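import Mathlib

set_option autoImplicit false

namespace Pool.Agent.Lib.MP_d3d931_al

/-- A factor of a product cube: a direction (`none` is the last direction), the value at `0` and
the value at `1`. -/
abbrev Fac (d : ℕ) (M : Type*) := Option (Fin d) × M × M

/-- coordinate of the vertex `(ε, s)` in direction `i` -/
def ev {d : ℕ} (ε : Fin d → Bool) (s : Bool) (i : Option (Fin d)) : Bool := i.elim s ε

/-- the value of a factor at the vertex `(ε, s)` -/
def fval {d : ℕ} {M : Type*} (ε : Fin d → Bool) (s : Bool) (f : Fac d M) : M :=
  if ev ε s f.1 = true then f.2.2 else f.2.1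

/-- the value of a product cube -/
def val {d : ℕ} {M : Type*} [Monoid M] (l : List (Fac d M)) (ε : Fin d → Bool) (s : Bool) : M :=
  (l.map (fval ε s)).prod

/-- the top vertex -/
def top (d : ℕ) : Fin d → Bool := fun _ => true

/-- bounded supernilpotence condition for a monoid: product cubes with at most `n` factors -/
def SN (d n : ℕ) (M : Type*) [Monoid M] : Prop :=
  ∀ l : List (Fac d M), l.length ≤ n →
    (∀ ε : Fin d → Bool, ε ≠ top d → val l ε false = val l ε true) →
    val l (top d) false = val l (top d) true

/-- supernilpotence condition for a semigroup, all product cubes -/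
def SNS (d : ℕ) (S : Type*) [Semigroup S] : Prop :=
  ∀ l : List (Fac d S), l ≠ [] →
    (∀ ε : Fin d → Bool, ε ≠ top d →
      (l.map fun f => ((fval ε false f : S) : WithOne S)).prod =
      (l.map fun f => ((fval ε true f : S) : WithOne S)).prod) →
    (l.map fun f => ((fval (top d) false f : S) : WithOne S)).prod =
      (l.map fun f => ((fval (top d) true f : S) : WithOne S)).prod

section Local

variable {S : Type*} [Semigroup S]

/-- sandwich multiplication with an identity adjoined -/
def Variant (_ : S) : Type _ := Option S

variable (e : S)

/-- the sandwich product -/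
def vmul (a b : Option S) : Option S :=
  match a, b with
  | none, b => b
  | some a, none => some a
  | some a, some b => some (a * e * b)

instance variantMonoid (e : S) : Monoid (Variant e) where
  mul a b := vmul e a b
  one := (none : Option S)
  mul_assoc a b c := by
    change vmul e (vmul e a b) c = vmul e a (vmul e b c)
    rcases a with _ | a <;> rcases b with _ | b <;> rcases c with _ | c <;>
      simp [vmul, mul_assoc]
  one_mul a := rfl
  mul_one a := by
    change vmul e a none = a
    rcases a with _ | a <;> rfl

/-- the value map -/
def psi (a : Option S) : S :=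
  match a with
  | none => e
  | some a => e * a * e

/-- right action -/
def ract (b : Option S) (s : S) : S :=
  match b with
  | none => s
  | some b => s * b * e

/-- left action -/
def lact (a : Option S) (s : S) : S :=
  match a with
  | none => s
  | some a => e * a * s

lemma psi_vmul_ract (a b : Option S) : psi e (vmul e a b) = ract e b (psi e a) := by
  rcases a with _ | a <;> rcases b with _ | b <;> simp [vmul, psi, ract, mul_assoc]

lemma psi_vmul_lact (a b : Option S) : psi e (vmul e a b) = lact e a (psi e b) := by
  rcases a with _ | a <;> rcases b with _ | b <;> simp [vmul, psi, lact, mul_assoc]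

lemma psi_vmul_congr {a a' b b' : Option S} (h : psi e a = psi e a') (h' : psi e b = psi e b') :
    psi e (vmul e a b) = psi e (vmul e a' b') := by
  rw [psi_vmul_ract, h, ← psi_vmul_ract, psi_vmul_lact, h', ← psi_vmul_lact]

/-- the kernel congruence of `psi` -/
def psiCon : Con (Variant e) where
  r a b := psi e a = psi e b
  iseqv := ⟨fun _ => rfl, fun h => h.symm, fun h h' => h.trans h'⟩
  mul' h h' := psi_vmul_congr e h h'

/-- the local monoid at `e` -/
abbrev Loc : Type _ := (psiCon e).Quotient

/-- the value of an element of the local monoid -/
def psiQ (m : Loc e) : S := Quotient.lift (psi e) (fun _ _ h => h) m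

lemma psiQ_injective : Function.Injective (psiQ e) := by
  intro a b
  refine Quotient.inductionOn₂ a b ?_
  intro a b h
  exact Quotient.sound h

/-- the class of an element -/
def mk (a : Option S) : Loc e := Quotient.mk _ a

lemma psiQ_mk (a : Option S) : psiQ e (mk e a) = psi e a := rfl

lemma mk_surj (m : Loc e) : ∃ a, mk e a = m := by
  refine Quotient.inductionOn m ?_
  intro a
  exact ⟨a, rfl⟩

lemma mk_mul (a b : Option S) : mk e a * mk e b = mk e (vmul e a b) := rfl

lemma mk_one : mk e (none : Option S) = 1 := rfl

lemma psiQ_one : psiQ e 1 = e := rfl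

lemma psiQ_mul_mk (m : Loc e) (b : Option S) : psiQ e (m * mk e b) = ract e b (psiQ e m) := by
  obtain ⟨a, rfl⟩ := mk_surj e m
  rw [mk_mul, psiQ_mk, psi_vmul_ract, psiQ_mk]

lemma psiQ_mk_mul (m : Loc e) (a : Option S) : psiQ e (mk e a * m) = lact e a (psiQ e m) := by
  obtain ⟨b, rfl⟩ := mk_surj e m
  rw [mk_mul, psiQ_mk, psi_vmul_lact, psiQ_mk]

end Local

end Pool.Agent.Lib.MP_d3d931_al
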