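import Mathlib
import Pool.Agent.Lib.MP_d3d931_al.Cube

set_option autoImplicit false

namespace Pool.Agent.Lib.MP_d3d931_al

section

variable {S : Type*} [Semigroup S]

/-- `w * s` as an element of `S`, with `w` in `S¹` -/
def mulW (w : WithOne S) (s : S) : S :=
  match w with
  | none => s
  | some a => a * s

lemma coe_mulW (w : WithOne S) (s : S) : ((mulW w s : S) : WithOne S) = w * s := by
  rcases w with _ | a
  · exact (one_mul _).symm
  · rfl

/-- `s * w` as an element of `S`, with `w` in `S¹` -/
def Wmul (s : S) (w : WithOne S) : S :=
  match w with
  | none => s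
  | some a => s * a

lemma coe_Wmul (w : WithOne S) (s : S) : ((Wmul s w : S) : WithOne S) = s * w := by
  rcases w with _ | a
  · exact (mul_one _).symm
  · rfl

variable (e : S)

/-- chosen representative -/
noncomputable def out (m : Loc e) : Option S := Classical.choose (mk_surj e m)

lemma mk_out (m : Loc e) : mk e (out e m) = m := Classical.choose_spec (mk_surj e m)

/-- the semigroup factor realizing a factor of the local monoid -/
noncomputable def realize (pre : WithOne S) (f : S) (suf : WithOne S) (m : Loc e) : S :=
  match out e m with
  | none => f
  | some z => Wmul f suf * z * mulW pre f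

/-- the list of factors in `S` realizing a list of factors of the local monoid -/
noncomputable def build {d : ℕ} : WithOne S → List S → List (Fac d (Loc e)) → List (Fac d S)
  | _, [], _ => []
  | _, _ :: _, [] => []
  | pre, f :: fs, (i, a, b) :: l =>
      (i, realize e pre f ((fs.map (fun x : S => (x : WithOne S))).prod) a,
        realize e pre f ((fs.map (fun x : S => (x : WithOne S))).prod) b) ::
        build (pre * f) fs l

/-- state function -/
def phi (pre : WithOne S) (Z : Option S) : WithOne S :=
  match Z with
  | none => pre
  | some z => (e : WithOne S) * z * pre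

lemma phi_step (pre suf : WithOne S) (f : S) (he : pre * f * suf = e) (Z : Option S)
    (m : Loc e) : phi e pre Z * ((realize e pre f suf m : S) : WithOne S) =
      phi e (pre * f) (vmul e Z (out e m)) := by
  unfold realize
  rcases hm : out e m with _ | z
  · rcases Z with _ | y
    · rfl
    · simp only [phi, vmul, mul_assoc]
  · rcases Z with _ | y
    · simp only [phi, vmul, WithOne.coe_mul, coe_Wmul, coe_mulW]
      rw [← he]
      simp only [mul_assoc]
    · simp only [phi, vmul, WithOne.coe_mul, coe_Wmul, coe_mulW]
      rw [← he]
      simp only [mul_assoc]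

lemma fval_build {d : ℕ} (ε : Fin d → Bool) (s : Bool) (i : Option (Fin d)) (a b : Loc e)
    (F : Loc e → S) : fval ε s ((i, F a, F b) : Fac d S) = F (fval ε s ((i, a, b) : Fac d (Loc e))) := by
  unfold fval
  split_ifs <;> rfl

/-- product in the variant -/
def vprod (l : List (Option S)) : Option S := l.foldr (vmul e) none

lemma vmul_none_right (Z : Option S) : vmul e Z none = Z := by rcases Z with _ | y <;> rfl

lemma vmul_assoc' (x y z : Option S) : vmul e (vmul e x y) z = vmul e x (vmul e y z) :=
  (variantMonoid e).mul_assoc x y z

lemma build_prod {d : ℕ} (ε : Fin d → Bool) (s : Bool) (fs : List S) :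
    ∀ (l : List (Fac d (Loc e))) (pre : WithOne S) (Z : Option S), fs.length = l.length →
      pre * (fs.map (fun x : S => (x : WithOne S))).prod = e →
      phi e pre Z * ((build e pre fs l).map fun f => ((fval ε s f : S) : WithOne S)).prod =
        phi e e (vmul e Z (vprod e (l.map fun f => out e (fval ε s f)))) := by
  induction fs with
  | nil =>
    intro l pre Z hl hpre
    have hl' : l = [] := by
      cases l with
      | nil => rfl
      | cons a l => simp at hl
    subst hl'
    simp only [List.map_nil, List.prod_nil, mul_one] at hpre
    simp only [build, List.map_nil, List.prod_nil, mul_one, hpre]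
    simp only [vprod, List.foldr_nil, vmul_none_right]
  | cons f fs ih =>
    intro l pre Z hl hpre
    cases l with
    | nil => simp at hl
    | cons g l =>
      obtain ⟨i, a, b⟩ := g
      have hl' : fs.length = l.length := by simpa using hl
      simp only [List.map_cons, List.prod_cons] at hpre
      rw [← mul_assoc] at hpre
      simp only [build, List.map_cons, List.prod_cons]
      rw [fval_build, ← mul_assoc, phi_step e pre _ f hpre, ih l (pre * f) _ hl' hpre]
      simp only [vprod, List.foldr_cons, vmul_assoc']

lemma mk_prod (l : List (Option S)) :
    mk e (vprod e l) = (l.map (mk e)).prod := by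
  induction l with
  | nil => rfl
  | cons a l ih =>
    rw [List.map_cons, List.prod_cons, ← ih]
    rfl

lemma build_ne_nil {d : ℕ} (f : S) (fs : List S) (g : Fac d (Loc e)) (l : List (Fac d (Loc e)))
    (pre : WithOne S) : build e pre (f :: fs) (g :: l) ≠ [] := by
  obtain ⟨i, a, b⟩ := g
  simp [build]

lemma phi_top (Z : Option S) : phi e (e : WithOne S) Z = ((psi e Z : S) : WithOne S) := by
  rcases Z with _ | z <;> rfl

/-- value of the realized cube -/
lemma build_val {d : ℕ} (ε : Fin d → Bool) (s : Bool) (fs : List S) (l : List (Fac d (Loc e)))
    (hl : fs.length = l.length) (he : (fs.map (fun x : S => (x : WithOne S))).prod = e) :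
    ((build e 1 fs l).map fun f => ((fval ε s f : S) : WithOne S)).prod =
      ((psiQ e (val l ε s) : S) : WithOne S) := by
  have h := build_prod e ε s fs l 1 none hl (by rw [one_mul]; exact he)
  have h0 : phi e (1 : WithOne S) none = 1 := rfl
  rw [h0, one_mul, phi_top] at h
  rw [h]
  congr 1
  have h1 : ∀ Z : Option S, vmul e none Z = Z := fun Z => rfl
  rw [h1, ← psiQ_mk]
  congr 1
  have h2 := mk_prod e (l.map fun f => out e (fval ε s f))
  rw [List.map_map] at h2
  have h3 : (mk e ∘ fun f : Fac d (Loc e) => out e (fval ε s f)) = fval ε s := by
    funext f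
    exact mk_out e _
  rw [h3] at h2
  exact h2

/-- `e` is a product of `n` elements. -/
def IsProd (n : ℕ) (e : S) : Prop :=
  ∃ fs : List S, fs.length = n ∧ (fs.map (fun x : S => (x : WithOne S))).prod = e

/-- The local monoid at a product of `n` elements satisfies the bounded condition. -/
theorem SN_loc {d n : ℕ} (hn : 0 < n) (h : SNS d S) (he : IsProd n e) : SN d n (Loc e) := by
  obtain ⟨fs, hfs, hprod⟩ := he
  intro l hl hε
  -- pad the list
  let l' : List (Fac d (Loc e)) := l ++ List.replicate (n - l.length) (none, 1, 1)
  have hlen : fs.length = l'.length := by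
    simp only [l', List.length_append, List.length_replicate]; omega
  have hval : ∀ ε s, val l' ε s = val l ε s := by
    intro ε s
    have h1 : fval ε s ((none, 1, 1) : Fac d (Loc e)) = 1 := by
      unfold fval; split_ifs <;> rfl
    simp only [val, l', List.map_append, List.prod_append, List.map_replicate, List.prod_replicate,
      h1, one_pow, mul_one]
  have hne : build e 1 fs l' ≠ [] := by
    cases hf : fs with
    | nil => rw [hf] at hfs; simp at hfs; omega
    | cons f fs' =>
      cases hl'' : l' with
      | nil => rw [hl''] at hlen; rw [hf] at hlen; simp at hlen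
      | cons g l'' => exact build_ne_nil e f fs' g l'' 1
  have key := h (build e 1 fs l') hne (by
    intro ε hne'
    rw [build_val e ε false fs l' hlen hprod, build_val e ε true fs l' hlen hprod, hval, hval,
      hε ε hne'])
  rw [build_val e _ false fs l' hlen hprod, build_val e _ true fs l' hlen hprod, hval, hval] at key
  apply psiQ_injective e
  exact WithOne.coe_inj.mp key

end

end Pool.Agent.Lib.MP_d3d931_al
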