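import Mathlib
import Pool.Agent.Lib.MP_d3d931_al.Local

set_option autoImplicit false

namespace Pool.Agent.Lib.MP_d3d931_al

section

variable {S : Type*} [Semigroup S]

/-- Product in `S¹` of a list of elements of `S`. -/
def wprod (l : List S) : WithOne S := (l.map (fun x : S => (x : WithOne S))).prod

lemma wprod_nil : wprod ([] : List S) = 1 := rfl

lemma wprod_cons (a : S) (l : List S) : wprod (a :: l) = a * wprod l := by
  simp [wprod]

lemma wprod_append (l l' : List S) : wprod (l ++ l') = wprod l * wprod l' := by
  simp [wprod]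

/-- products of at least `k` elements -/
def P (S : Type*) [Semigroup S] (k : ℕ) : Set (WithOne S) :=
  {w | ∃ l : List S, k ≤ l.length ∧ wprod l = w}

lemma exists_list (w : WithOne S) : ∃ l : List S, wprod l = w := by
  rcases w with _ | a
  · exact ⟨[], rfl⟩
  · exact ⟨[a], by rw [wprod_cons, wprod_nil, mul_one]; rfl⟩

lemma mem_P_zero (w : WithOne S) : w ∈ P S 0 := by
  obtain ⟨l, hl⟩ := exists_list w
  exact ⟨l, Nat.zero_le _, hl⟩

lemma P_mul_right {k : ℕ} {w : WithOne S} (h : w ∈ P S k) (v : WithOne S) : w * v ∈ P S k := by
  obtain ⟨l, hl, rfl⟩ := h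
  obtain ⟨l', rfl⟩ := exists_list v
  exact ⟨l ++ l', by rw [List.length_append]; omega, wprod_append _ _⟩

lemma P_mul_left {k : ℕ} {w : WithOne S} (h : w ∈ P S k) (v : WithOne S) : v * w ∈ P S k := by
  obtain ⟨l, hl, rfl⟩ := h
  obtain ⟨l', rfl⟩ := exists_list v
  exact ⟨l' ++ l, by rw [List.length_append]; omega, wprod_append _ _⟩

lemma P_add {j k : ℕ} {w v : WithOne S} (h : w ∈ P S j) (h' : v ∈ P S k) : w * v ∈ P S (j + k) := by
  obtain ⟨l, hl, rfl⟩ := h
  obtain ⟨l', hl', rfl⟩ := h'
  exact ⟨l ++ l', by rw [List.length_append]; omega, wprod_append _ _⟩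

lemma coe_mem_P_one (s : S) : (s : WithOne S) ∈ P S 1 :=
  ⟨[s], le_rfl, by rw [wprod_cons, wprod_nil, mul_one]⟩

lemma P_succ_right {k : ℕ} {w : WithOne S} (h : w ∈ P S k) (s : S) : w * s ∈ P S (k + 1) :=
  P_add h (coe_mem_P_one s)

lemma P_succ_left {k : ℕ} {w : WithOne S} (h : w ∈ P S k) (s : S) : (s : WithOne S) * w ∈ P S (k + 1) := by
  rw [add_comm]; exact P_add (coe_mem_P_one s) h

lemma P_anti {j k : ℕ} (hjk : j ≤ k) {w : WithOne S} (h : w ∈ P S k) : w ∈ P S j := by
  obtain ⟨l, hl, rfl⟩ := h
  exact ⟨l, hjk.trans hl, rfl⟩

lemma exists_coe_of_mem_P {k : ℕ} (hk : 0 < k) {w : WithOne S} (h : w ∈ P S k) :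
    ∃ s : S, (s : WithOne S) = w := by
  obtain ⟨l, hl, rfl⟩ := h
  cases l with
  | nil => simp at hl; omega
  | cons a l =>
    exact ⟨Wmul a (wprod l), by rw [coe_Wmul, wprod_cons]⟩

lemma SN_mono {d m n : ℕ} {M : Type*} [Monoid M] (hmn : n ≤ m) (h : SN d m M) : SN d n M :=
  fun l hl => h l (hl.trans hmn)

/-- The local monoid at a product of at least `n` elements satisfies the bounded condition. -/
theorem SN_loc' {d n : ℕ} (hn : 0 < n) (h : SNS d S) (e : S) (he : (e : WithOne S) ∈ P S n) :
    SN d n (Loc e) := by
  obtain ⟨l, hl, hle⟩ := he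
  exact SN_mono hl (SN_loc e (n := l.length) (by omega) h ⟨l, rfl, hle⟩)

/-- left Ore condition -/
def OreL (M : Type*) [Monoid M] : Prop := ∀ a b : M, ∃ m n : M, m * a = n * b

/-- right Ore condition -/
def OreR (M : Type*) [Monoid M] : Prop := ∀ a b : M, ∃ m n : M, a * m = b * n

section cancel

/-- left-cancellation property of elements of `P K` -/
def CancL (S : Type*) [Semigroup S] (K : ℕ) : Prop :=
  ∀ x : S, (x : WithOne S) ∈ P S K → ∀ (e : S) (z w : WithOne S),
    (e : WithOne S) * x * z = (e : WithOne S) * x * w → (x : WithOne S) * z = (x : WithOne S) * w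

/-- right-cancellation property of elements of `P K` -/
def CancR (S : Type*) [Semigroup S] (K : ℕ) : Prop :=
  ∀ x : S, (x : WithOne S) ∈ P S K → ∀ (e : S) (z w : WithOne S),
    z * x * (e : WithOne S) = w * x * (e : WithOne S) → z * x = w * (x : WithOne S)

/-- value in `S¹` of a list of factors -/
def wval {d : ℕ} (l : List (Fac d S)) (ε : Fin d → Bool) (s : Bool) : WithOne S :=
  (l.map fun f => ((fval ε s f : S) : WithOne S)).prod

lemma wval_nil {d : ℕ} (ε : Fin d → Bool) (s : Bool) : wval ([] : List (Fac d S)) ε s = 1 := rfl

lemma wval_cons {d : ℕ} (f : Fac d S) (l : List (Fac d S)) (ε : Fin d → Bool) (s : Bool) :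
    wval (f :: l) ε s = (fval ε s f : S) * wval l ε s := by
  simp [wval]

lemma wval_append {d : ℕ} (l l' : List (Fac d S)) (ε : Fin d → Bool) (s : Bool) :
    wval (l ++ l') ε s = wval l ε s * wval l' ε s := by
  simp [wval]

lemma SNS_wval {d : ℕ} (h : SNS d S) (l : List (Fac d S)) (hl : l ≠ [])
    (hε : ∀ ε : Fin d → Bool, ε ≠ top d → wval l ε false = wval l ε true) :
    wval l (top d) false = wval l (top d) true := h l hl hε

/-- list of factors with prescribed values at `1`, values at `0` chosen by `c` applied to the
product of the following elements -/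
def facL {d : ℕ} (c : WithOne S → S) : List S → List (Fin d) → List (Fac d S)
  | [], _ => []
  | _ :: _, [] => []
  | g :: gs, i :: is => (some i, c (wprod gs), g) :: facL c gs is

lemma facL_true {d : ℕ} (c : WithOne S → S) (ε : Fin d → Bool) (s : Bool) :
    ∀ (gs : List S) (is : List (Fin d)), gs.length = is.length → (∀ i ∈ is, ε i = true) →
      wval (facL c gs is) ε s = wprod gs := by
  intro gs
  induction gs with
  | nil => intro is _ _; rfl
  | cons g gs ih =>
    intro is hlen htrue
    cases is with
    | nil => simp at hlen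
    | cons i is =>
      rw [facL, wval_cons, wprod_cons, ih is (by simpa using hlen)
        (fun j hj => htrue j (List.mem_cons_of_mem _ hj))]
      have : ε i = true := htrue i List.mem_cons_self
      simp [fval, ev, this]

lemma facL_false {d : ℕ} (c : WithOne S → S) (x b : WithOne S)
    (hc : ∀ a : WithOne S, ∃ r : WithOne S, (c a : WithOne S) * a * x = r * b)
    (ε : Fin d → Bool) :
    ∀ (gs : List S) (is : List (Fin d)), gs.length = is.length → (∃ i ∈ is, ε i = false) →
      ∃ r : WithOne S, ∀ s : Bool, wval (facL c gs is) ε s * x = r * b := by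
  intro gs
  induction gs with
  | nil =>
    intro is hlen hex
    cases is with
    | nil => simp at hex
    | cons i is => simp at hlen
  | cons g gs ih =>
    intro is hlen hex
    cases is with
    | nil => simp at hlen
    | cons i is =>
      by_cases h : ∃ j ∈ is, ε j = false
      · obtain ⟨r, hr⟩ := ih is (by simpa using hlen) h
        refine ⟨((if ε i = true then g else c (wprod gs) : S) : WithOne S) * r, fun s => ?_⟩
        rw [facL, wval_cons, mul_assoc, hr s, mul_assoc]
        rfl
      · push Not at h
        have htrue : ∀ j ∈ is, ε j = true := fun j hj => by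
          have := h j hj
          simpa using this
        obtain ⟨j, hj, hjf⟩ := hex
        rcases List.mem_cons.mp hj with rfl | hj'
        · obtain ⟨r, hr⟩ := hc (wprod gs)
          refine ⟨r, fun s => ?_⟩
          rw [facL, wval_cons, facL_true c ε s gs is (by simpa using hlen) htrue]
          simp only [fval, ev, Option.elim, hjf]
          exact hr
        · exact absurd hjf (by rw [htrue j hj']; simp)

theorem cancL_of_ore {d n : ℕ} (hn : 0 < n) (h : SNS d S)
    (hore : ∀ e : S, (e : WithOne S) ∈ P S n → OreL (Loc e)) : CancL S (d + n) := by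
  classical
  intro x hx e z w hzw
  obtain ⟨l, hl, hlx⟩ := hx
  -- split the list
  have hsplit : wprod l = wprod (l.take d) * wprod (l.drop d) := by
    rw [← wprod_append, List.take_append_drop]
  have h2 : wprod (l.drop d) ∈ P S n := ⟨l.drop d, by rw [List.length_drop]; omega, rfl⟩
  obtain ⟨x2, hx2⟩ := exists_coe_of_mem_P hn h2
  set x1 := wprod (l.take d) with hx1
  have hx12 : (x : WithOne S) = x1 * x2 := by rw [← hlx, hsplit, hx2]
  have hore2 := hore x2 (by rw [hx2]; exact h2)
  -- choice of the `0` values
  have hc : ∀ a : WithOne S, ∃ c : S, ∃ r : WithOne S,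
      (c : WithOne S) * a * x2 = r * ((e : WithOne S) * x1 * x2) := by
    intro a
    induction a using WithOne.recOneCoe with
    | one =>
      refine ⟨Wmul e x1, 1, ?_⟩
      rw [coe_Wmul, mul_one, one_mul]
    | coe a =>
      obtain ⟨m, n', hmn⟩ := hore2 (mk x2 (some a)) (mk x2 (some (Wmul e x1)))
      have h3 := congrArg (psiQ x2) hmn
      rw [psiQ_mul_mk, psiQ_mul_mk] at h3
      simp only [ract] at h3
      have h4 := congrArg (fun s : S => (s : WithOne S)) h3
      simp only [WithOne.coe_mul, coe_Wmul] at h4
      refine ⟨psiQ x2 m, ((psiQ x2 n' : S) : WithOne S), ?_⟩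
      rw [h4]
      simp only [mul_assoc]
  choose c hc' using hc
  let L : List (Fac d S) := facL c (l.take d) (List.finRange d) ++
    [(none, Wmul x2 z, Wmul x2 w)]
  have hlen : (l.take d).length = (List.finRange d).length := by
    rw [List.length_take, List.length_finRange]; omega
  have hLval : ∀ ε s, wval L ε s = wval (facL c (l.take d) (List.finRange d)) ε s * x2 *
      (if s = true then w else z) := by
    intro ε s
    simp only [L, wval_append, wval_cons, wval_nil, mul_one, mul_assoc]
    congr 1
    cases s <;> simp [fval, ev, coe_Wmul]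
  have key := SNS_wval h L (by simp [L]) (by
    intro ε hε
    have hex : ∃ i ∈ List.finRange d, ε i = false := by
      by_contra hcon
      push Not at hcon
      apply hε
      funext i
      have := hcon i (List.mem_finRange i)
      simpa [top] using this
    obtain ⟨r, hr⟩ := facL_false c x2 ((e : WithOne S) * x1 * x2) (fun a => hc' a) ε
      (l.take d) (List.finRange d) hlen hex
    rw [hLval, hLval, hr, hr]
    simp only [Bool.false_eq_true, if_false, if_true, mul_assoc]
    rw [hx12] at hzw
    simp only [mul_assoc] at hzw
    rw [hzw])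
  rw [hLval, hLval, facL_true c (top d) false (l.take d) (List.finRange d) hlen (fun i _ => rfl),
    facL_true c (top d) true (l.take d) (List.finRange d) hlen (fun i _ => rfl)] at key
  rw [hx12, hx1]
  simpa using key

/-- mirror image of `facL` -/
def facR {d : ℕ} (c : WithOne S → S) : WithOne S → List S → List (Fin d) → List (Fac d S)
  | _, [], _ => []
  | _, _ :: _, [] => []
  | pre, g :: gs, i :: is => (some i, c pre, g) :: facR c (pre * g) gs is

lemma facR_true {d : ℕ} (c : WithOne S → S) (ε : Fin d → Bool) (s : Bool) :
    ∀ (gs : List S) (pre : WithOne S) (is : List (Fin d)), gs.length = is.length →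
      (∀ i ∈ is, ε i = true) → wval (facR c pre gs is) ε s = wprod gs := by
  intro gs
  induction gs with
  | nil => intro pre is _ _; rfl
  | cons g gs ih =>
    intro pre is hlen htrue
    cases is with
    | nil => simp at hlen
    | cons i is =>
      rw [facR, wval_cons, wprod_cons, ih _ is (by simpa using hlen)
        (fun j hj => htrue j (List.mem_cons_of_mem _ hj))]
      have : ε i = true := htrue i List.mem_cons_self
      simp [fval, ev, this]

lemma facR_false {d : ℕ} (c : WithOne S → S) (x b : WithOne S)
    (hc : ∀ a : WithOne S, ∃ r : WithOne S, x * a * (c a : WithOne S) = b * r)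
    (ε : Fin d → Bool) :
    ∀ (gs : List S) (pre : WithOne S) (is : List (Fin d)), gs.length = is.length →
      (∃ i ∈ is, ε i = false) →
      ∃ r : WithOne S, ∀ s : Bool, x * pre * wval (facR c pre gs is) ε s = b * r := by
  intro gs
  induction gs with
  | nil =>
    intro pre is hlen hex
    cases is with
    | nil => simp at hex
    | cons i is => simp at hlen
  | cons g gs ih =>
    intro pre is hlen hex
    cases is with
    | nil => simp at hlen
    | cons i is =>
      have hdep : ∀ (gs : List S) (pre : WithOne S) (is : List (Fin d)) (s : Bool),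
          wval (facR c pre gs is) ε s = wval (facR c pre gs is) ε false := by
        intro gs
        induction gs with
        | nil => intro pre is s; rfl
        | cons g gs ih =>
          intro pre is s
          cases is with
          | nil => rfl
          | cons i is =>
            rw [facR, wval_cons, wval_cons, ih]
            rfl
      cases hi : ε i with
      | false =>
        obtain ⟨r, hr⟩ := hc pre
        refine ⟨r * wval (facR c (pre * g) gs is) ε false, fun s => ?_⟩
        rw [facR, wval_cons, hdep _ _ _ s, ← mul_assoc]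
        have : (fval ε s ((some i, c pre, g) : Fac d S)) = c pre := by
          simp [fval, ev, hi]
        rw [this, hr, mul_assoc]
      | true =>
        have hex' : ∃ j ∈ is, ε j = false := by
          obtain ⟨j, hj, hjf⟩ := hex
          rcases List.mem_cons.mp hj with rfl | hj'
          · rw [hi] at hjf; exact absurd hjf (by simp)
          · exact ⟨j, hj', hjf⟩
        obtain ⟨r, hr⟩ := ih (pre * g) is (by simpa using hlen) hex'
        refine ⟨r, fun s => ?_⟩
        rw [facR, wval_cons, ← hr s]
        have : (fval ε s ((some i, c pre, g) : Fac d S)) = g := by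
          simp [fval, ev, hi]
        rw [this]
        simp only [mul_assoc]

theorem cancR_of_ore {d n : ℕ} (hn : 0 < n) (h : SNS d S)
    (hore : ∀ e : S, (e : WithOne S) ∈ P S n → OreR (Loc e)) : CancR S (d + n) := by
  classical
  intro x hx e z w hzw
  obtain ⟨l, hl, hlx⟩ := hx
  -- split the list: first `|l| - d`, then the last `d`
  have hsplit : wprod l = wprod (l.take (l.length - d)) * wprod (l.drop (l.length - d)) := by
    rw [← wprod_append, List.take_append_drop]
  have h2 : wprod (l.take (l.length - d)) ∈ P S n :=
    ⟨l.take (l.length - d), by rw [List.length_take]; omega, rfl⟩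
  obtain ⟨x2, hx2⟩ := exists_coe_of_mem_P hn h2
  set x1 := wprod (l.drop (l.length - d)) with hx1
  have hx12 : (x : WithOne S) = x2 * x1 := by rw [← hlx, hsplit, hx2]
  have hore2 := hore x2 (by rw [hx2]; exact h2)
  -- choice of the `0` values
  have hc : ∀ a : WithOne S, ∃ c : S, ∃ r : WithOne S,
      (x2 : WithOne S) * a * (c : WithOne S) = ((x2 : WithOne S) * x1 * e) * r := by
    intro a
    induction a using WithOne.recOneCoe with
    | one =>
      refine ⟨mulW x1 e, 1, ?_⟩
      rw [coe_mulW, mul_one, mul_one, mul_assoc]
    | coe a =>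
      obtain ⟨m, n', hmn⟩ := hore2 (mk x2 (some a)) (mk x2 (some (mulW x1 e)))
      have h3 := congrArg (psiQ x2) hmn
      rw [psiQ_mk_mul, psiQ_mk_mul] at h3
      simp only [lact] at h3
      have h4 := congrArg (fun s : S => (s : WithOne S)) h3
      simp only [WithOne.coe_mul, coe_mulW] at h4
      refine ⟨psiQ x2 m, ((psiQ x2 n' : S) : WithOne S), ?_⟩
      rw [h4]
      simp only [mul_assoc]
  choose c hc' using hc
  let L : List (Fac d S) := (none, mulW z x2, mulW w x2) ::
    facR c 1 (l.drop (l.length - d)) (List.finRange d)
  have hlen : (l.drop (l.length - d)).length = (List.finRange d).length := by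
    rw [List.length_drop, List.length_finRange]; omega
  have hLval : ∀ ε s, wval L ε s = (if s = true then w else z) * (x2 *
      wval (facR c 1 (l.drop (l.length - d)) (List.finRange d)) ε s) := by
    intro ε s
    simp only [L, wval_cons]
    rw [← mul_assoc]
    congr 1
    cases s <;> simp [fval, ev, coe_mulW]
  have key := SNS_wval h L (by simp [L]) (by
    intro ε hε
    have hex : ∃ i ∈ List.finRange d, ε i = false := by
      by_contra hcon
      push Not at hcon
      apply hε
      funext i
      have := hcon i (List.mem_finRange i)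
      simpa [top] using this
    obtain ⟨r, hr⟩ := facR_false c x2 ((x2 : WithOne S) * x1 * e) (fun a => hc' a) ε
      (l.drop (l.length - d)) 1 (List.finRange d) hlen hex
    have hr' : ∀ s, (x2 : WithOne S) * wval (facR c 1 (l.drop (l.length - d)) (List.finRange d)) ε s
        = (x2 : WithOne S) * x1 * e * r := by
      intro s
      have := hr s
      rwa [mul_one] at this
    rw [hLval, hLval, hr', hr']
    simp only [Bool.false_eq_true, if_false, if_true, ← mul_assoc]
    rw [hx12] at hzw
    simp only [← mul_assoc] at hzw
    rw [hzw])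
  rw [hLval, hLval, facR_true c (top d) false _ 1 (List.finRange d) hlen (fun i _ => rfl),
    facR_true c (top d) true _ 1 (List.finRange d) hlen (fun i _ => rfl)] at key
  rw [hx12, hx1]
  simpa [mul_assoc] using key

end cancel

end

end Pool.Agent.Lib.MP_d3d931_al
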