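import Mathlib
import Pool.Agent.Lib.MP_d3d931_al.Powers

set_option autoImplicit false
set_option linter.unusedSectionVars false

namespace Pool.Agent.Lib.MP_d3d931_al

section

variable {S : Type*} [Semigroup S]

/-- A factor of a binary matrix: `true` for column factors, `false` for row factors, with its two
values. -/
abbrev BF (S : Type*) := Bool × WithOne S × WithOne S

/-- value of a factor in row `r` and column `c` -/
def bf (f : BF S) (r c : Bool) : WithOne S :=
  if (if f.1 = true then c else r) = true then f.2.2 else f.2.1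

/-- value of a product of factors in row `r` and column `c` -/
def bv (l : List (BF S)) (r c : Bool) : WithOne S := (l.map fun f => bf f r c).prod

lemma bv_nil (r c : Bool) : bv ([] : List (BF S)) r c = 1 := rfl

lemma bv_cons (f : BF S) (l : List (BF S)) (r c : Bool) : bv (f :: l) r c = bf f r c * bv l r c := by
  simp [bv]

lemma bv_concat (f : BF S) (l : List (BF S)) (r c : Bool) :
    bv (l ++ [f]) r c = bv l r c * bf f r c := by
  simp [bv]

lemma bf_row (x y : WithOne S) (r c : Bool) : bf (false, x, y) r c = if r = true then y else x := by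
  simp [bf]

lemma bf_col (x y : WithOne S) (r c : Bool) : bf (true, x, y) r c = if c = true then y else x := by
  simp [bf]

/-- admissible lists of factors -/
def Adm (α β : WithOne S → WithOne S → Prop) (l : List (BF S)) : Prop :=
  ∀ f ∈ l, f.2.1 ∈ P S 1 ∧ f.2.2 ∈ P S 1 ∧ (f.1 = false → α f.2.1 f.2.2) ∧
    (f.1 = true → β f.2.1 f.2.2)

lemma Adm.cons {α β : WithOne S → WithOne S → Prop} {f : BF S} {l : List (BF S)}
    (h : Adm α β (f :: l)) : Adm α β l := fun g hg => h g (List.mem_cons_of_mem _ hg)

lemma Adm.init {α β : WithOne S → WithOne S → Prop} {f : BF S} {l : List (BF S)}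
    (h : Adm α β (l ++ [f])) : Adm α β l := fun g hg => h g (List.mem_append_left _ hg)

/-- The term condition for relations on `S¹`. -/
def TC (α β δ : WithOne S → WithOne S → Prop) : Prop :=
  ∀ l : List (BF S), l ≠ [] → Adm α β l →
    δ (bv l false false) (bv l false true) → δ (bv l true false) (bv l true true)

lemma bv_col {α : WithOne S → WithOne S → Prop} {θ : Con (WithOne S)} {l : List (BF S)}
    (h : Adm α θ l) (r : Bool) : θ (bv l r false) (bv l r true) := by
  induction l with
  | nil => exact θ.refl _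
  | cons f l ih =>
    rw [bv_cons, bv_cons]
    apply θ.mul _ (ih h.cons)
    obtain ⟨b, x, y⟩ := f
    cases b with
    | false => rw [bf_row, bf_row]; exact θ.refl _
    | true =>
      have := (h _ List.mem_cons_self).2.2.2 rfl
      simpa [bf_col] using this

lemma bv_row {β : WithOne S → WithOne S → Prop} {θ : Con (WithOne S)} {l : List (BF S)}
    (h : Adm θ β l) (c : Bool) : θ (bv l false c) (bv l true c) := by
  induction l with
  | nil => exact θ.refl _
  | cons f l ih =>
    rw [bv_cons, bv_cons]
    apply θ.mul _ (ih h.cons)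
    obtain ⟨b, x, y⟩ := f
    cases b with
    | true => rw [bf_col, bf_col]; exact θ.refl _
    | false =>
      have := (h _ List.mem_cons_self).2.2.1 rfl
      simpa [bf_row] using this

lemma bf_mem {α β : WithOne S → WithOne S → Prop} {f : BF S} {l : List (BF S)}
    (h : Adm α β l) (hf : f ∈ l) (r c : Bool) : bf f r c ∈ P S 1 := by
  unfold bf
  split_ifs <;> first | exact (h f hf).2.1 | exact (h f hf).1

lemma bv_mem {α β : WithOne S → WithOne S → Prop} {l : List (BF S)}
    (h : Adm α β l) (r c : Bool) : bv l r c ∈ P S l.length := by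
  induction l with
  | nil => exact mem_P_zero _
  | cons f l ih =>
    rw [bv_cons, List.length_cons, add_comm]
    exact P_add (bf_mem h List.mem_cons_self r c) (ih h.cons)

lemma Adm.mono {α β α' β' : WithOne S → WithOne S → Prop} {l : List (BF S)}
    (hα : ∀ x y, α x y → α' x y) (hβ : ∀ x y, β x y → β' x y) (h : Adm α β l) : Adm α' β' l :=
  fun f hf => ⟨(h f hf).1, (h f hf).2.1, fun h' => hα _ _ ((h f hf).2.2.1 h'),
    fun h' => hβ _ _ ((h f hf).2.2.2 h')⟩

/-- Single factors satisfy every term condition. -/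
lemma bv_single (f : BF S) (δ : Con (WithOne S))
    (h : δ (bv [f] false false) (bv [f] false true)) :
    δ (bv [f] true false) (bv [f] true true) := by
  obtain ⟨b, x, y⟩ := f
  cases b with
  | false => rw [bv_cons, bv_cons, bf_row, bf_row]; exact δ.refl _
  | true =>
    rw [bv_cons, bv_cons, bf_col, bf_col] at h ⊢
    exact h

/-! ### Rees-type congruences -/

/-- `ρ_i` -/
def Rho (S : Type*) [Semigroup S] (i : ℕ) : Con (WithOne S) where
  r x y := x = y ∨ (x ∈ P S i ∧ y ∈ P S i)
  iseqv := by
    refine ⟨fun _ => Or.inl rfl, ?_, ?_⟩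
    · rintro x y (h | h)
      · exact Or.inl h.symm
      · exact Or.inr ⟨h.2, h.1⟩
    · rintro x y z (h | h) (h' | h')
      · exact Or.inl (h.trans h')
      · exact Or.inr ⟨h ▸ h'.1, h'.2⟩
      · exact Or.inr ⟨h.1, h' ▸ h.2⟩
      · exact Or.inr ⟨h.1, h'.2⟩
  mul' := by
    rintro w x y z (h | h) (h' | h')
    · exact Or.inl (by rw [h, h'])
    · exact Or.inr ⟨P_mul_left h'.1 _, P_mul_left h'.2 _⟩
    · exact Or.inr ⟨P_mul_right h.1 _, P_mul_right h.2 _⟩
    · exact Or.inr ⟨P_mul_right h.1 _, P_mul_right h.2 _⟩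

lemma Rho_iff {i : ℕ} {x y : WithOne S} : Rho S i x y ↔ x = y ∨ (x ∈ P S i ∧ y ∈ P S i) := Iff.rfl

/-- a product with at least two factors, one of which is in `P i` in all four positions -/
lemma bv_mem_succ {α β : WithOne S → WithOne S → Prop} {l : List (BF S)}
    (h : Adm α β l) (hl : 2 ≤ l.length) {i : ℕ}
    (hex : ∃ f ∈ l, f.2.1 ∈ P S i ∧ f.2.2 ∈ P S i) (r c : Bool) : bv l r c ∈ P S (i + 1) := by
  obtain ⟨f, hf, hfi⟩ := hex
  obtain ⟨s, t, rfl⟩ := List.append_of_mem hf
  have h1 : bv (s ++ f :: t) r c = bv s r c * (bf f r c * bv t r c) := by simp [bv]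
  have hf' : bf f r c ∈ P S i := by
    unfold bf
    split_ifs <;> first | exact hfi.2 | exact hfi.1
  have hs : bv s r c ∈ P S s.length := bv_mem (fun g hg => h g (by simp [hg])) r c
  have ht : bv t r c ∈ P S t.length := bv_mem (fun g hg => h g (by simp [hg])) r c
  rw [h1]
  apply P_anti _ (P_add hs (P_add hf' ht))
  simp at hl
  omega

lemma TC_rho_right (i : ℕ) (α : WithOne S → WithOne S → Prop) : TC α (Rho S i) (Rho S (i + 1)) := by
  intro l hl hadm hδ
  by_cases hlen : 2 ≤ l.length
  · by_cases hex : ∃ f ∈ l, f.1 = true ∧ f.2.1 ≠ f.2.2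
    · obtain ⟨f, hf, hft, hne⟩ := hex
      have := (hadm f hf).2.2.2 hft
      rw [Rho_iff] at this
      have h2 := this.resolve_left hne
      exact Or.inr ⟨bv_mem_succ hadm hlen ⟨f, hf, h2⟩ _ _, bv_mem_succ hadm hlen ⟨f, hf, h2⟩ _ _⟩
    · push Not at hex
      left
      have hadm' : Adm α (⊥ : Con (WithOne S)) l := fun f hf =>
        ⟨(hadm f hf).1, (hadm f hf).2.1, (hadm f hf).2.2.1, fun h => hex f hf h⟩
      exact bv_col hadm' true
  · have : ∃ f, l = [f] := by
      apply List.length_eq_one_iff.mp
      have : l.length ≠ 0 := by simpa using hl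
      omega
    obtain ⟨f, rfl⟩ := this
    exact bv_single f _ hδ

lemma TC_rho_left (i : ℕ) (β : WithOne S → WithOne S → Prop) : TC (Rho S i) β (Rho S (i + 1)) := by
  intro l hl hadm hδ
  by_cases hlen : 2 ≤ l.length
  · by_cases hex : ∃ f ∈ l, f.1 = false ∧ f.2.1 ≠ f.2.2
    · obtain ⟨f, hf, hft, hne⟩ := hex
      have := (hadm f hf).2.2.1 hft
      rw [Rho_iff] at this
      have h2 := this.resolve_left hne
      exact Or.inr ⟨bv_mem_succ hadm hlen ⟨f, hf, h2⟩ _ _, bv_mem_succ hadm hlen ⟨f, hf, h2⟩ _ _⟩
    · push Not at hex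
      have hadm' : Adm (⊥ : Con (WithOne S)) β l := fun f hf =>
        ⟨(hadm f hf).1, (hadm f hf).2.1, fun h => hex f hf h, (hadm f hf).2.2.2⟩
      have h1 : bv l false false = bv l true false := bv_row hadm' false
      have h2 : bv l false true = bv l true true := bv_row hadm' true
      rwa [h1, h2] at hδ
  · have : ∃ f, l = [f] := by
      apply List.length_eq_one_iff.mp
      have : l.length ≠ 0 := by simpa using hl
      omega
    obtain ⟨f, rfl⟩ := this
    exact bv_single f _ hδ

end

end Pool.Agent.Lib.MP_d3d931_al
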