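import Mathlib
import Pool.Agent.Lib.MP_d3d931_al.TC

set_option autoImplicit false
set_option linter.unusedSectionVars false

namespace Pool.Agent.Lib.MP_d3d931_al

section

variable {S : Type*} [Semigroup S] {Q : Type*} [Group Q] (F : WithOne S → Q)

/-- `κ_{xy}(p,q)` -/
def kap (x y p q : WithOne S) : Q := F (p * x * q) * (F (p * y * q))⁻¹

lemma kap_self (x p q : WithOne S) : kap F x x p q = 1 := by simp [kap]

lemma kap_trans (x y z p q : WithOne S) :
    kap F x y p q * kap F y z p q = kap F x z p q := by simp [kap]

lemma kap_inv (x y p q : WithOne S) : (kap F x y p q)⁻¹ = kap F y x p q := by simp [kap]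

lemma kap_mul_left (c x y p q : WithOne S) :
    kap F (c * x) (c * y) p q = kap F x y (p * c) q := by simp [kap, mul_assoc]

lemma kap_mul_right (c x y p q : WithOne S) :
    kap F (x * c) (y * c) p q = kap F x y p (c * q) := by simp [kap, mul_assoc]

lemma kap_mul (w x y z p q : WithOne S) :
    kap F (w * y) (x * z) p q = kap F w x p (y * q) * kap F y z (p * x) q := by
  rw [← kap_trans F (w * y) (x * y) (x * z), kap_mul_right, kap_mul_left]

/-- the condition `κ(pu, q) = κ(u, q)` for `u ∈ P a` -/
def relA (a : ℕ) : Con (WithOne S) where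
  r x y := ∀ p q u : WithOne S, u ∈ P S a → kap F x y (p * u) q = kap F x y u q
  iseqv := by
    refine ⟨fun x p q u _ => by rw [kap_self, kap_self], ?_, ?_⟩
    · intro x y h p q u hu
      rw [← kap_inv, h p q u hu, kap_inv]
    · intro x y z h h' p q u hu
      rw [← kap_trans F x y z, h p q u hu, h' p q u hu, kap_trans]
  mul' := by
    intro w x y z h h' p q u hu
    rw [kap_mul, kap_mul, h p _ u hu, mul_assoc p u x, h' p q (u * x) (P_mul_right hu x)]

/-- the condition `κ(p, vq) = κ(p, v)` for `v ∈ P b` -/
def relB (b : ℕ) : Con (WithOne S) where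
  r x y := ∀ p q v : WithOne S, v ∈ P S b → kap F x y p (v * q) = kap F x y p v
  iseqv := by
    refine ⟨fun x p q u _ => by rw [kap_self, kap_self], ?_, ?_⟩
    · intro x y h p q u hu
      rw [← kap_inv, h p q u hu, kap_inv]
    · intro x y z h h' p q u hu
      rw [← kap_trans F x y z, h p q u hu, h' p q u hu, kap_trans]
  mul' := by
    intro w x y z h h' p q v hv
    rw [kap_mul, kap_mul, ← mul_assoc y v q, h p q (y * v) (P_mul_left hv y), h' _ q v hv]

/-- `κ` is central -/
def relC : Con (WithOne S) where
  r x y := ∀ p q : WithOne S, kap F x y p q ∈ Subgroup.center Q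
  iseqv := by
    refine ⟨fun x p q => by rw [kap_self]; exact one_mem _, ?_, ?_⟩
    · intro x y h p q
      rw [← kap_inv]; exact inv_mem (h p q)
    · intro x y z h h' p q
      rw [← kap_trans F x y z]; exact mul_mem (h p q) (h' p q)
  mul' := by
    intro w x y z h h' p q
    rw [kap_mul]; exact mul_mem (h _ _) (h' _ _)

/-- `κ` is trivial -/
def relE : Con (WithOne S) where
  r x y := ∀ p q : WithOne S, kap F x y p q = 1
  iseqv := by
    refine ⟨fun x p q => by rw [kap_self], ?_, ?_⟩
    · intro x y h p q
      rw [← kap_inv, h p q, inv_one]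
    · intro x y z h h' p q
      rw [← kap_trans F x y z, h p q, h' p q, one_mul]
  mul' := by
    intro w x y z h h' p q
    rw [kap_mul, h, h', one_mul]

variable {F}

lemma relA_iff {a : ℕ} {x y : WithOne S} : relA F a x y ↔
    ∀ p q u : WithOne S, u ∈ P S a → kap F x y (p * u) q = kap F x y u q := Iff.rfl

lemma relB_iff {b : ℕ} {x y : WithOne S} : relB F b x y ↔
    ∀ p q v : WithOne S, v ∈ P S b → kap F x y p (v * q) = kap F x y p v := Iff.rfl

lemma relC_iff {x y : WithOne S} : relC F x y ↔
    ∀ p q : WithOne S, kap F x y p q ∈ Subgroup.center Q := Iff.rfl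

lemma relE_iff {x y : WithOne S} : relE F x y ↔
    ∀ p q : WithOne S, kap F x y p q = 1 := Iff.rfl

variable {K : ℕ}

/-- prefix factorization hypothesis -/
def HF1 (F : WithOne S → Q) (K : ℕ) : Prop := ∀ u ∈ P S K, ∀ p q q' : WithOne S,
  F (p * u * q) * (F (u * q))⁻¹ = F (p * u * q') * (F (u * q'))⁻¹

/-- suffix factorization hypothesis -/
def HF2 (F : WithOne S → Q) (K : ℕ) : Prop := ∀ v ∈ P S K, ∀ q p p' : WithOne S,
  (F (p * v))⁻¹ * F (p * v * q) = (F (p' * v))⁻¹ * F (p' * v * q)

lemma addL (h1 : HF1 F K) {x y : WithOne S} (hxy : Rho S K x y) (hC : relC F x y)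
    (p q q' : WithOne S) :
    kap F x y p q * (kap F x y 1 q)⁻¹ = kap F x y p q' * (kap F x y 1 q')⁻¹ := by
  rcases hxy with rfl | ⟨hx, hy⟩
  · simp [kap_self]
  · have key : ∀ q : WithOne S, kap F x y p q * (kap F x y 1 q)⁻¹ =
        (F (p * x * 1) * (F (x * 1))⁻¹) * (F (p * y * 1) * (F (y * 1))⁻¹)⁻¹ := by
      intro q
      have hz := hC 1 q
      rw [Subgroup.mem_center_iff] at hz
      have e1 : F (p * x * q) = (F (p * x * 1) * (F (x * 1))⁻¹) * F (x * q) := by
        rw [← h1 x hx p q 1]; group
      have e2 : F (p * y * q) = (F (p * y * 1) * (F (y * 1))⁻¹) * F (y * q) := by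
        rw [← h1 y hy p q 1]; group
      set A := F (p * x * 1) * (F (x * 1))⁻¹
      set B := F (p * y * 1) * (F (y * 1))⁻¹
      have e3 : kap F x y 1 q = F (x * q) * (F (y * q))⁻¹ := by simp [kap]
      have e4 : kap F x y p q = A * kap F x y 1 q * B⁻¹ := by
        rw [e3]
        unfold kap
        rw [e1, e2]
        group
      rw [e4, mul_assoc A, ← hz B⁻¹, ← mul_assoc, mul_assoc, mul_inv_cancel, mul_one]
    rw [key q, key q']

lemma addR (h2 : HF2 F K) {x y : WithOne S} (hxy : Rho S K x y) (hC : relC F x y)
    (q p p' : WithOne S) :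
    kap F x y p q * (kap F x y p 1)⁻¹ = kap F x y p' q * (kap F x y p' 1)⁻¹ := by
  rcases hxy with rfl | ⟨hx, hy⟩
  · simp [kap_self]
  · have key : ∀ p : WithOne S, kap F x y p q * (kap F x y p 1)⁻¹ =
        ((F (1 * x))⁻¹ * F (1 * x * q)) * ((F (1 * y))⁻¹ * F (1 * y * q))⁻¹ := by
      intro p
      have hz := hC p 1
      have hz' := hC p q
      have hc : kap F x y p q * (kap F x y p 1)⁻¹ ∈ Subgroup.center Q :=
        mul_mem hz' (inv_mem hz)
      rw [Subgroup.mem_center_iff] at hz hc
      have e1 : F (p * x * q) = F (p * x) * ((F (1 * x))⁻¹ * F (1 * x * q)) := by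
        rw [← h2 x hx q p 1]; group
      have e2 : F (p * y * q) = F (p * y) * ((F (1 * y))⁻¹ * F (1 * y * q)) := by
        rw [← h2 y hy q p 1]; group
      set A := (F (1 * x))⁻¹ * F (1 * x * q)
      set B := (F (1 * y))⁻¹ * F (1 * y * q)
      set Z := kap F x y p 1 with hZ
      have e3 : F (p * x) = Z * F (p * y) := by
        rw [hZ]; simp [kap]
      have e5 : F (p * y) = Z⁻¹ * F (p * x) := by rw [e3]; group
      have e4 : kap F x y p q = F (p * x) * (A * B⁻¹) * (F (p * x))⁻¹ * Z := by
        unfold kap
        rw [e1, e2, e5]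
        group
      have e6 : kap F x y p q * Z⁻¹ = F (p * x) * (A * B⁻¹) * (F (p * x))⁻¹ := by
        rw [e4]; group
      rw [e6] at hc ⊢
      set D := F (p * x) * (A * B⁻¹) * (F (p * x))⁻¹ with hD
      have e7 : A * B⁻¹ = (F (p * x))⁻¹ * D * F (p * x) := by rw [hD]; group
      rw [e7, hc]; group
    rw [key p, key p']

/-! ### Row steps for the prefix condition -/

theorem TC_A_right {a : ℕ} (h1 : HF1 F K) {α : WithOne S → WithOne S → Prop} {θ : Con (WithOne S)}
    (hθ : ∀ x y, θ x y → relA F (a + 1) x y ∧ relC F x y ∧ Rho S K x y) :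
    TC α θ (relA F a) := by
  intro l hl hadm hδ
  cases l with
  | nil => exact absurd rfl hl
  | cons f l =>
    obtain ⟨b, x, y⟩ := f
    have hcol := fun r => hθ _ _ (bv_col hadm.cons r)
    cases b with
    | false =>
      intro p q u hu
      have hy : y ∈ P S 1 := (hadm _ List.mem_cons_self).2.1
      rw [bv_cons, bv_cons, bf_row, bf_row]
      simp only [if_true]
      rw [kap_mul_left, kap_mul_left, mul_assoc, (hcol true).1 p q (u * y) (P_add hu hy)]
    | true =>
      have hxy : θ x y := (hadm _ List.mem_cons_self).2.2.2 rfl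
      have hy : y ∈ P S 1 := (hadm _ List.mem_cons_self).2.1
      have hxy' := hθ _ _ hxy
      intro p q u hu
      have h0 := hδ p q u hu
      rw [bv_cons, bv_cons, bf_col, bf_col] at h0 ⊢
      simp only [if_true, Bool.false_eq_true, if_false] at h0 ⊢
      rw [kap_mul, kap_mul, mul_assoc p u y, (hcol false).1 p q (u * y) (P_add hu hy)] at h0
      rw [kap_mul, kap_mul, mul_assoc p u y, (hcol true).1 p q (u * y) (P_add hu hy)]
      have h0' := mul_right_cancel h0
      congr 1
      have a1 := addL h1 hxy'.2.2 hxy'.2.1 (p * u) (bv l true false * q) (bv l false false * q)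
      have a2 := addL h1 hxy'.2.2 hxy'.2.1 u (bv l true false * q) (bv l false false * q)
      rw [h0', ← a2] at a1
      exact mul_right_cancel a1

theorem TC_B_right {b : ℕ} (h2 : HF2 F K) {α : WithOne S → WithOne S → Prop} {θ : Con (WithOne S)}
    (hθ : ∀ x y, θ x y → relB F (b + 1) x y ∧ relC F x y ∧ Rho S K x y) :
    TC α θ (relB F b) := by
  intro l hl hadm hδ
  obtain ⟨l, f, rfl⟩ := (List.eq_nil_or_concat' l).resolve_left hl
  obtain ⟨bb, x, y⟩ := f
  have hmem : (bb, x, y) ∈ l ++ [(bb, x, y)] := by simp
  have hcol := fun r => hθ _ _ (bv_col hadm.init r)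
  cases bb with
  | false =>
    intro p q v hv
    have hy : y ∈ P S 1 := (hadm _ hmem).2.1
    rw [bv_concat, bv_concat, bf_row, bf_row]
    simp only [if_true]
    rw [kap_mul_right, kap_mul_right, ← mul_assoc, (hcol true).1 p q (y * v)
      (by rw [add_comm]; exact P_add hy hv)]
  | true =>
    have hxy : θ x y := (hadm _ hmem).2.2.2 rfl
    have hx : x ∈ P S 1 := (hadm _ hmem).1
    have hxy' := hθ _ _ hxy
    intro p q v hv
    have h0 := hδ p q v hv
    rw [bv_concat, bv_concat, bf_col, bf_col] at h0 ⊢
    simp only [if_true, Bool.false_eq_true, if_false] at h0 ⊢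
    have hxv : x * v ∈ P S (b + 1) := by rw [add_comm]; exact P_add hx hv
    rw [kap_mul, kap_mul, ← mul_assoc x v q, (hcol false).1 p q (x * v) hxv] at h0
    rw [kap_mul, kap_mul, ← mul_assoc x v q, (hcol true).1 p q (x * v) hxv]
    have h0' := mul_left_cancel h0
    congr 1
    have a1 := addR h2 hxy'.2.2 hxy'.2.1 (v * q) (p * bv l true true) (p * bv l false true)
    have a2 := addR h2 hxy'.2.2 hxy'.2.1 v (p * bv l true true) (p * bv l false true)
    rw [h0', ← a2] at a1
    exact mul_right_cancel a1

/-! ### Column steps -/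

theorem TC_A_left {a : ℕ} (h1 : HF1 F K) {β : WithOne S → WithOne S → Prop} {θ : Con (WithOne S)}
    (hθ : ∀ x y, θ x y → relA F (a + 1) x y ∧ relC F x y ∧ Rho S K x y) :
    TC θ β (relA F a) := by
  intro l hl hadm hδ
  have hrow' := fun c => hθ _ _ (bv_row hadm c)
  -- it suffices to compare the row changes
  suffices H : ∀ p q u : WithOne S, u ∈ P S a →
      kap F (bv l false false) (bv l true false) (p * u) q *
        (kap F (bv l false false) (bv l true false) u q)⁻¹ =
      kap F (bv l false true) (bv l true true) (p * u) q *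
        (kap F (bv l false true) (bv l true true) u q)⁻¹ by
    intro p q u hu
    have h0 := hδ p q u hu
    have h3 := H p q u hu
    have key : ∀ p', kap F (bv l true false) (bv l true true) p' q =
        kap F (bv l false false) (bv l false true) p' q *
          (kap F (bv l false true) (bv l true true) p' q *
          (kap F (bv l false false) (bv l true false) p' q)⁻¹) := by
      intro p'
      have hz := inv_mem ((hrow' false).2.1 p' q)
      rw [Subgroup.mem_center_iff] at hz
      rw [← mul_assoc, hz, ← mul_assoc, kap_inv, kap_trans, kap_trans]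
    rw [key, key, h0]
    congr 1
    have hz := inv_mem ((hrow' false).2.1 u q)
    have hz2 := inv_mem ((hrow' false).2.1 (p * u) q)
    rw [Subgroup.mem_center_iff] at hz hz2
    -- from `L0' * L0⁻¹ = L1' * L1⁻¹`
    set L0' := kap F (bv l false false) (bv l true false) (p * u) q
    set L0 := kap F (bv l false false) (bv l true false) u q
    set L1' := kap F (bv l false true) (bv l true true) (p * u) q
    set L1 := kap F (bv l false true) (bv l true true) u q
    -- want L1' * L0'⁻¹ = L1 * L0⁻¹
    have h4 : L1' = L0' * L0⁻¹ * L1 := by rw [h3]; group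
    rw [h4, hz2]
    rw [show L0'⁻¹ * (L0' * L0⁻¹ * L1) = L0⁻¹ * L1 by group, ← hz]
  cases l with
  | nil => exact absurd rfl hl
  | cons f l =>
    obtain ⟨b, x, y⟩ := f
    have hrow := fun c => hθ _ _ (bv_row hadm.cons c)
    intro p q u hu
    cases b with
    | true =>
      have hx : x ∈ P S 1 := (hadm _ List.mem_cons_self).1
      have hy : y ∈ P S 1 := (hadm _ List.mem_cons_self).2.1
      simp only [bv_cons, bf_col, if_true, Bool.false_eq_true, if_false]
      rw [kap_mul_left, kap_mul_left, kap_mul_left, kap_mul_left, mul_assoc, mul_assoc,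
        (hrow false).1 p q (u * x) (P_add hu hx), (hrow true).1 p q (u * y) (P_add hu hy)]
      simp
    | false =>
      have hy : y ∈ P S 1 := (hadm _ List.mem_cons_self).2.1
      have hxy' := hθ _ _ ((hadm _ List.mem_cons_self).2.2.1 rfl)
      simp only [bv_cons, bf_row, if_true, Bool.false_eq_true, if_false]
      have key : ∀ c, kap F (x * bv l false c) (y * bv l true c) (p * u) q *
          (kap F (x * bv l false c) (y * bv l true c) u q)⁻¹ =
          kap F x y (p * u) (bv l false c * q) * (kap F x y u (bv l false c * q))⁻¹ := by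
        intro c
        rw [kap_mul, kap_mul, mul_assoc p u y, (hrow c).1 p q (u * y) (P_add hu hy)]
        group
      have key2 : ∀ Q' : WithOne S, kap F x y (p * u) Q' * (kap F x y u Q')⁻¹ =
          (kap F x y (p * u) Q' * (kap F x y 1 Q')⁻¹) *
          (kap F x y u Q' * (kap F x y 1 Q')⁻¹)⁻¹ := by
        intro Q'; group
      rw [key, key, key2, key2 (bv l false true * q),
        addL h1 hxy'.2.2 hxy'.2.1 (p * u) (bv l false true * q) (bv l false false * q),
        addL h1 hxy'.2.2 hxy'.2.1 u (bv l false true * q) (bv l false false * q)]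

theorem TC_B_left {b : ℕ} (h2 : HF2 F K) {β : WithOne S → WithOne S → Prop} {θ : Con (WithOne S)}
    (hθ : ∀ x y, θ x y → relB F (b + 1) x y ∧ relC F x y ∧ Rho S K x y) :
    TC θ β (relB F b) := by
  intro l hl hadm hδ
  have hrow' := fun c => hθ _ _ (bv_row hadm c)
  suffices H : ∀ p q v : WithOne S, v ∈ P S b →
      kap F (bv l false false) (bv l true false) p (v * q) *
        (kap F (bv l false false) (bv l true false) p v)⁻¹ =
      kap F (bv l false true) (bv l true true) p (v * q) *
        (kap F (bv l false true) (bv l true true) p v)⁻¹ by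
    intro p q v hv
    have h0 := hδ p q v hv
    have h3 := H p q v hv
    have key : ∀ q', kap F (bv l true false) (bv l true true) p q' =
        kap F (bv l false false) (bv l false true) p q' *
          (kap F (bv l false true) (bv l true true) p q' *
          (kap F (bv l false false) (bv l true false) p q')⁻¹) := by
      intro q'
      have hz := inv_mem ((hrow' false).2.1 p q')
      rw [Subgroup.mem_center_iff] at hz
      rw [← mul_assoc, hz, ← mul_assoc, kap_inv, kap_trans, kap_trans]
    rw [key, key, h0]
    congr 1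
    have hz := inv_mem ((hrow' false).2.1 p v)
    have hz2 := inv_mem ((hrow' false).2.1 p (v * q))
    rw [Subgroup.mem_center_iff] at hz hz2
    set L0' := kap F (bv l false false) (bv l true false) p (v * q)
    set L0 := kap F (bv l false false) (bv l true false) p v
    set L1' := kap F (bv l false true) (bv l true true) p (v * q)
    set L1 := kap F (bv l false true) (bv l true true) p v
    have h4 : L1' = L0' * L0⁻¹ * L1 := by rw [h3]; group
    rw [h4, hz2]
    rw [show L0'⁻¹ * (L0' * L0⁻¹ * L1) = L0⁻¹ * L1 by group, ← hz]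
  obtain ⟨l, f, rfl⟩ := (List.eq_nil_or_concat' l).resolve_left hl
  obtain ⟨bb, x, y⟩ := f
  have hmem : (bb, x, y) ∈ l ++ [(bb, x, y)] := by simp
  have hrow := fun c => hθ _ _ (bv_row hadm.init c)
  intro p q v hv
  cases bb with
  | true =>
    have hx : x ∈ P S 1 := (hadm _ hmem).1
    have hy : y ∈ P S 1 := (hadm _ hmem).2.1
    simp only [bv_concat, bf_col, if_true, Bool.false_eq_true, if_false]
    rw [kap_mul_right, kap_mul_right, kap_mul_right, kap_mul_right, ← mul_assoc, ← mul_assoc,
      (hrow false).1 p q (x * v) (by rw [add_comm]; exact P_add hx hv),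
      (hrow true).1 p q (y * v) (by rw [add_comm]; exact P_add hy hv)]
    simp
  | false =>
    have hx : x ∈ P S 1 := (hadm _ hmem).1
    have hxy' := hθ _ _ ((hadm _ hmem).2.2.1 rfl)
    simp only [bv_concat, bf_row, if_true, Bool.false_eq_true, if_false]
    have hxv : x * v ∈ P S (b + 1) := by rw [add_comm]; exact P_add hx hv
    have key : ∀ c, kap F (bv l false c * x) (bv l true c * y) p (v * q) *
        (kap F (bv l false c * x) (bv l true c * y) p v)⁻¹ =
        kap F x y (p * bv l true c) (v * q) * (kap F x y (p * bv l true c) v)⁻¹ := by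
      intro c
      rw [kap_mul, kap_mul, ← mul_assoc x v q, (hrow c).1 p q (x * v) hxv]
      have hz := (hrow c).2.1 p (x * v)
      rw [Subgroup.mem_center_iff] at hz
      rw [← hz (kap F x y (p * bv l true c) (v * q)), ← hz (kap F x y (p * bv l true c) v)]
      group
    have key2 : ∀ P' : WithOne S, kap F x y P' (v * q) * (kap F x y P' v)⁻¹ =
        (kap F x y P' (v * q) * (kap F x y P' 1)⁻¹) *
        (kap F x y P' v * (kap F x y P' 1)⁻¹)⁻¹ := by
      intro P'; group
    rw [key, key, key2, key2 (p * bv l true true),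
      addR h2 hxy'.2.2 hxy'.2.1 (v * q) (p * bv l true true) (p * bv l true false),
      addR h2 hxy'.2.2 hxy'.2.1 v (p * bv l true true) (p * bv l true false)]

/-! ### The bottom of a level -/

theorem TC_E_right {α : WithOne S → WithOne S → Prop} {θ : Con (WithOne S)}
    (hθ : ∀ x y, θ x y → relA F 0 x y ∧ relB F 0 x y ∧ relC F x y) :
    TC α θ (relE F) := by
  -- the quotient `κ` of the two columns does not depend on the row
  have hconst : ∀ x y, θ x y → ∀ p q, kap F x y p q = kap F x y 1 1 := by
    intro x y h p q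
    have h1 := (hθ x y h).1 p q 1 (mem_P_zero _)
    have h2 := (hθ x y h).2.1 1 q 1 (mem_P_zero _)
    rw [mul_one] at h1
    rw [one_mul] at h2
    rw [h1, h2]
  have key : ∀ l : List (BF S), Adm α θ l → ∀ p q p' q',
      kap F (bv l true false) (bv l true true) p q =
      kap F (bv l false false) (bv l false true) p' q' := by
    intro l
    induction l with
    | nil => intro _ p q p' q'; simp [bv_nil, kap_self]
    | cons f l ih =>
      intro hadm p q p' q'
      obtain ⟨b, x, y⟩ := f
      cases b with
      | false =>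
        simp only [bv_cons, bf_row, if_true, Bool.false_eq_true, if_false]
        rw [kap_mul_left, kap_mul_left]
        exact ih hadm.cons _ _ _ _
      | true =>
        have hxy : θ x y := (hadm _ List.mem_cons_self).2.2.2 rfl
        simp only [bv_cons, bf_col, if_true, Bool.false_eq_true, if_false]
        rw [kap_mul, kap_mul, hconst x y hxy, hconst x y hxy p', ih hadm.cons _ _ _ _]
  intro l hl hadm hδ p q
  rw [key l hadm p q p q]
  exact hδ p q

theorem TC_E_left {β : WithOne S → WithOne S → Prop} {θ : Con (WithOne S)}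
    (hθ : ∀ x y, θ x y → relA F 0 x y ∧ relB F 0 x y ∧ relC F x y) :
    TC θ β (relE F) := by
  have hconst : ∀ x y, θ x y → ∀ p q, kap F x y p q = kap F x y 1 1 := by
    intro x y h p q
    have h1 := (hθ x y h).1 p q 1 (mem_P_zero _)
    have h2 := (hθ x y h).2.1 1 q 1 (mem_P_zero _)
    rw [mul_one] at h1
    rw [one_mul] at h2
    rw [h1, h2]
  have key : ∀ l : List (BF S), Adm θ β l → ∀ p q p' q',
      kap F (bv l false false) (bv l true false) p q =
      kap F (bv l false true) (bv l true true) p' q' := by
    intro l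
    induction l with
    | nil => intro _ p q p' q'; simp [bv_nil, kap_self]
    | cons f l ih =>
      intro hadm p q p' q'
      obtain ⟨b, x, y⟩ := f
      cases b with
      | true =>
        simp only [bv_cons, bf_col, if_true, Bool.false_eq_true, if_false]
        rw [kap_mul_left, kap_mul_left]
        exact ih hadm.cons _ _ _ _
      | false =>
        have hxy : θ x y := (hadm _ List.mem_cons_self).2.2.1 rfl
        simp only [bv_cons, bf_row, if_true, Bool.false_eq_true, if_false]
        rw [kap_mul, kap_mul, hconst x y hxy, hconst x y hxy p', ih hadm.cons _ _ _ _]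
  intro l hl hadm hδ p q
  have h1 := key l hadm p q p q
  rw [← kap_trans F _ (bv l false false) _, ← kap_trans F (bv l false false) (bv l false true) _,
    hδ p q, one_mul, ← h1, kap_trans, kap_self]

end

end Pool.Agent.Lib.MP_d3d931_al
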