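import Mathlib
import Pool.Agent.Lib.MP_d3d931_al.TC

set_option autoImplicit false
set_option linter.unusedSectionVars false

namespace Pool.Agent.Lib.MP_d3d931_al

section

variable {S : Type*} [Semigroup S]

/-- `u x q e = u y q e` for `u ∈ P a` -/
def relT (e : WithOne S) (a : ℕ) : Con (WithOne S) where
  r x y := ∀ q u : WithOne S, u ∈ P S a → u * x * q * e = u * y * q * e
  iseqv := ⟨fun _ _ _ _ => rfl, fun h q u hu => (h q u hu).symm,
    fun h h' q u hu => (h q u hu).trans (h' q u hu)⟩
  mul' := by
    intro w x y z h h' q u hu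
    have h1 := h (y * q) u hu
    have h2 := h' q (u * x) (P_mul_right hu x)
    simp only [mul_assoc] at h1 h2 ⊢
    rw [h1, h2]

/-- `e p x v = e p y v` for `v ∈ P b` -/
def relT' (e : WithOne S) (b : ℕ) : Con (WithOne S) where
  r x y := ∀ p v : WithOne S, v ∈ P S b → e * p * x * v = e * p * y * v
  iseqv := ⟨fun _ _ _ _ => rfl, fun h q u hu => (h q u hu).symm,
    fun h h' q u hu => (h q u hu).trans (h' q u hu)⟩
  mul' := by
    intro w x y z h h' p v hv
    have h1 := h p (y * v) (P_mul_left hv y)
    have h2 := h' (p * x) v hv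
    simp only [mul_assoc] at h1 h2 ⊢
    rw [h1, h2]

/-- `e p x q e = e p y q e` -/
def relE0 (e : WithOne S) : Con (WithOne S) where
  r x y := ∀ p q : WithOne S, e * p * x * q * e = e * p * y * q * e
  iseqv := ⟨fun _ _ _ => rfl, fun h q u => (h q u).symm,
    fun h h' q u => (h q u).trans (h' q u)⟩
  mul' := by
    intro w x y z h h' p q
    have h1 := h p (y * q)
    have h2 := h' (p * x) q
    simp only [mul_assoc] at h1 h2 ⊢
    rw [h1, h2]

/-- `p x q = p y q` whenever `|p| + |q| ≥ n` -/
def relZ (S : Type*) [Semigroup S] (n : ℕ) : Con (WithOne S) where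
  r x y := ∀ i j : ℕ, n ≤ i + j → ∀ p ∈ P S i, ∀ q ∈ P S j, p * x * q = p * y * q
  iseqv := ⟨fun _ _ _ _ _ _ _ _ => rfl, fun h i j hij p hp q hq => (h i j hij p hp q hq).symm,
    fun h h' i j hij p hp q hq => (h i j hij p hp q hq).trans (h' i j hij p hp q hq)⟩
  mul' := by
    intro w x y z h h' i j hij p hp q hq
    have h1 := h i j hij p hp (y * q) (P_mul_left hq y)
    have h2 := h' i j hij (p * x) (P_mul_right hp x) q hq
    simp only [mul_assoc] at h1 h2 ⊢
    rw [h1, h2]

lemma relT_iff {e : WithOne S} {a : ℕ} {x y : WithOne S} : relT e a x y ↔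
    ∀ q u : WithOne S, u ∈ P S a → u * x * q * e = u * y * q * e := Iff.rfl

lemma relT'_iff {e : WithOne S} {b : ℕ} {x y : WithOne S} : relT' e b x y ↔
    ∀ p v : WithOne S, v ∈ P S b → e * p * x * v = e * p * y * v := Iff.rfl

lemma relE0_iff {e : WithOne S} {x y : WithOne S} : relE0 e x y ↔
    ∀ p q : WithOne S, e * p * x * q * e = e * p * y * q * e := Iff.rfl

variable {K : ℕ} {e : S}

/-- the value of an element of the local monoid, in `S¹` -/
def pw {e : S} (m : Loc e) : WithOne S := ((psiQ e m : S) : WithOne S)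

lemma psiQ_right (m : Loc e) :
    ∃ r : WithOne S, pw m = (e : WithOne S) * r ∧
      (r = 1 ∨ ∃ s : S, r = (s : WithOne S)) := by
  obtain ⟨a, rfl⟩ := mk_surj e m
  rcases a with _ | a
  · exact ⟨1, by rw [mul_one]; rfl, Or.inl rfl⟩
  · refine ⟨((a * e : S) : WithOne S), ?_, Or.inr ⟨_, rfl⟩⟩
    change ((e * a * e : S) : WithOne S) = _
    simp [WithOne.coe_mul, mul_assoc]

lemma psiQ_left (m : Loc e) :
    ∃ r : WithOne S, pw m = r * (e : WithOne S) ∧
      (r = 1 ∨ ∃ s : S, r = (s : WithOne S)) := by
  obtain ⟨a, rfl⟩ := mk_surj e m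
  rcases a with _ | a
  · exact ⟨1, by rw [one_mul]; rfl, Or.inl rfl⟩
  · refine ⟨((e * a : S) : WithOne S), ?_, Or.inr ⟨_, rfl⟩⟩
    change ((e * a * e : S) : WithOne S) = _
    simp [WithOne.coe_mul]

/-- Right Ore condition, in `S`. -/
lemma ore_right (hO : OreR (Loc e)) (s s' : S) : ∃ M M' : Loc e,
    (e : WithOne S) * s * pw M = (e : WithOne S) * s' * pw M' := by
  obtain ⟨m, m', h⟩ := hO (mk e (some s)) (mk e (some s'))
  refine ⟨m, m', ?_⟩
  have h3 := congrArg (psiQ e) h
  rw [psiQ_mk_mul, psiQ_mk_mul] at h3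
  simp only [lact] at h3
  have h4 := congrArg (fun s : S => (s : WithOne S)) h3
  simpa only [WithOne.coe_mul, pw] using h4

lemma ore_left (hO : OreL (Loc e)) (s s' : S) : ∃ M M' : Loc e,
    pw M * s * (e : WithOne S) = pw M' * s' * e := by
  obtain ⟨m, m', h⟩ := hO (mk e (some s)) (mk e (some s'))
  refine ⟨m, m', ?_⟩
  have h3 := congrArg (psiQ e) h
  rw [psiQ_mul_mk, psiQ_mul_mk] at h3
  simp only [ract] at h3
  have h4 := congrArg (fun s : S => (s : WithOne S)) h3
  simpa only [WithOne.coe_mul, pw] using h4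

/-- `[xv] m = [xv'] m'` gives `x v M = x v' M'`. -/
lemma ore_right' (hL : CancL S K) (hO : OreR (Loc e)) {x : S} (hx : (x : WithOne S) ∈ P S K)
    (v v' : WithOne S) : ∃ M M' : Loc e,
    (x : WithOne S) * v * pw M = (x : WithOne S) * v' * pw M' ∧
    (e : WithOne S) * x * v * pw M = (e : WithOne S) * x * v' * pw M' := by
  obtain ⟨M, M', h⟩ := ore_right hO (Wmul x v) (Wmul x v')
  rw [coe_Wmul, coe_Wmul] at h
  refine ⟨M, M', ?_, by simpa only [mul_assoc] using h⟩
  have := hL x hx e (v * pw M) (v' * pw M') (by simpa only [mul_assoc] using h)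
  simpa only [mul_assoc] using this

lemma ore_left' (hR : CancR S K) (hO : OreL (Loc e)) {x : S} (hx : (x : WithOne S) ∈ P S K)
    (v v' : WithOne S) : ∃ M M' : Loc e,
    pw M * v * x = pw M' * v' * x ∧
    pw M * v * x * e = pw M' * v' * x * e := by
  obtain ⟨M, M', h⟩ := ore_left hO (mulW v x) (mulW v' x)
  rw [coe_mulW, coe_mulW] at h
  refine ⟨M, M', ?_, by simpa only [mul_assoc] using h⟩
  exact hR x hx e (pw M * v) (pw M' * v') (by simpa only [mul_assoc] using h)

lemma transferR (hL : CancL S K) (hR : CancR S K) (he : (e : WithOne S) ∈ P S K)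
    (hO : OreR (Loc e)) {x y : S} (hx : (x : WithOne S) ∈ P S K) (hy : (y : WithOne S) ∈ P S K)
    (hE : relE0 (e : WithOne S) x y) {u v v' : WithOne S}
    (h : u * x * v * e = u * y * v * (e : WithOne S)) :
    u * x * v' * e = u * y * v' * (e : WithOne S) := by
  obtain ⟨M, M', h1, h2⟩ := ore_right' hL hO hx v v'
  obtain ⟨r, hr, -⟩ := psiQ_right (e := e) M
  obtain ⟨r', hr', hr''⟩ := psiQ_right (e := e) M'
  have hE1 := hE 1 v
  have hE2 := hE 1 v'
  simp only [mul_one] at hE1 hE2
  have h3 : (e : WithOne S) * y * v * pw M = (e : WithOne S) * y * v' * pw M' := by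
    have a1 : (e : WithOne S) * x * v * pw M = (e : WithOne S) * y * v * pw M := by
      rw [hr, ← mul_assoc, ← mul_assoc, hE1]
    have a2 : (e : WithOne S) * x * v' * pw M' = (e : WithOne S) * y * v' * pw M' := by
      rw [hr', ← mul_assoc, ← mul_assoc, hE2]
    rw [← a1, ← a2, h2]
  have h4 : (y : WithOne S) * v * pw M = (y : WithOne S) * v' * pw M' := by
    have := hL y hy e (v * pw M) (v' * pw M') (by simpa only [mul_assoc] using h3)
    simpa only [mul_assoc] using this
  have h5 : u * x * v' * pw M' = u * y * v' * pw M' := by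
    calc u * x * v' * pw M' = u * (x * v' * pw M') := by simp only [mul_assoc]
      _ = u * (x * v * pw M) := by rw [h1]
      _ = (u * x * v * e) * r := by rw [hr]; simp only [mul_assoc]
      _ = (u * y * v * e) * r := by rw [h]
      _ = u * (y * v * pw M) := by rw [hr]; simp only [mul_assoc]
      _ = u * (y * v' * pw M') := by rw [h4]
      _ = u * y * v' * pw M' := by simp only [mul_assoc]
  rw [hr'] at h5
  rcases hr'' with rfl | ⟨s, rfl⟩
  · simpa using h5
  · exact hR e he s (u * x * v') (u * y * v') (by simpa only [mul_assoc] using h5)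

lemma transferL (hL : CancL S K) (hR : CancR S K) (he : (e : WithOne S) ∈ P S K)
    (hO : OreL (Loc e)) {x y : S} (hx : (x : WithOne S) ∈ P S K) (hy : (y : WithOne S) ∈ P S K)
    (hE : relE0 (e : WithOne S) x y) {u v v' : WithOne S}
    (h : (e : WithOne S) * v * x * u = e * v * y * u) :
    (e : WithOne S) * v' * x * u = e * v' * y * u := by
  obtain ⟨M, M', h1, h2⟩ := ore_left' hR hO hx v v'
  obtain ⟨r, hr, -⟩ := psiQ_left (e := e) M
  obtain ⟨r', hr', hr''⟩ := psiQ_left (e := e) M'
  have hE1 := hE v 1
  have hE2 := hE v' 1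
  simp only [mul_one] at hE1 hE2
  have h3 : pw M * v * y * e = pw M' * v' * y * e := by
    have a1 : pw M * v * x * e = pw M * v * y * e := by
      rw [hr]
      calc r * (e : WithOne S) * v * x * e = r * (e * v * x * e) := by simp only [mul_assoc]
        _ = r * (e * v * y * e) := by rw [hE1]
        _ = _ := by simp only [mul_assoc]
    have a2 : pw M' * v' * x * e = pw M' * v' * y * e := by
      rw [hr']
      calc r' * (e : WithOne S) * v' * x * e = r' * (e * v' * x * e) := by simp only [mul_assoc]
        _ = r' * (e * v' * y * e) := by rw [hE2]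
        _ = _ := by simp only [mul_assoc]
    rw [← a1, ← a2, h2]
  have h4 : pw M * v * y = pw M' * v' * y :=
    hR y hy e (pw M * v) (pw M' * v') (by simpa only [mul_assoc] using h3)
  have h5 : pw M' * v' * x * u = pw M' * v' * y * u := by
    calc pw M' * v' * x * u = (pw M * v * x) * u := by rw [h1]
      _ = r * (e * v * x * u) := by rw [hr]; simp only [mul_assoc]
      _ = r * (e * v * y * u) := by rw [h]
      _ = (pw M * v * y) * u := by rw [hr]; simp only [mul_assoc]
      _ = _ := by rw [h4]
  rw [hr'] at h5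
  rcases hr'' with rfl | ⟨s, rfl⟩
  · simpa using h5
  · have := hL e he s (v' * x * u) (v' * y * u) (by simpa only [mul_assoc] using h5)
    simpa only [mul_assoc] using this

/-! ### Steps for `relT` -/

theorem TC_T_right (hK : 0 < K) (hL : CancL S K) (hR : CancR S K)
    (he : (e : WithOne S) ∈ P S K) (hO : OreR (Loc e)) {a : ℕ}
    {α : WithOne S → WithOne S → Prop} {θ : Con (WithOne S)}
    (hθ : ∀ x y, θ x y → relT (e : WithOne S) (a + 1) x y ∧ relE0 (e : WithOne S) x y ∧
      Rho S K x y) : TC α θ (relT (e : WithOne S) a) := by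
  intro l hl hadm hδ
  cases l with
  | nil => exact absurd rfl hl
  | cons f l =>
    obtain ⟨b, x, y⟩ := f
    have hcol := fun r => hθ _ _ (bv_col hadm.cons r)
    cases b with
    | false =>
      intro q u hu
      have hy : y ∈ P S 1 := (hadm _ List.mem_cons_self).2.1
      rw [bv_cons, bv_cons, bf_row, bf_row]
      simp only [if_true]
      have := (hcol true).1 q (u * y) (P_add hu hy)
      simpa only [mul_assoc] using this
    | true =>
      have hxy : θ x y := (hadm _ List.mem_cons_self).2.2.2 rfl
      have hy : y ∈ P S 1 := (hadm _ List.mem_cons_self).2.1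
      obtain ⟨-, hE, hρ⟩ := hθ _ _ hxy
      intro q u hu
      have h0 := hδ q u hu
      rw [bv_cons, bv_cons, bf_col, bf_col] at h0 ⊢
      simp only [if_true, Bool.false_eq_true, if_false] at h0 ⊢
      have c0 := (hcol false).1 q (u * y) (P_add hu hy)
      have c1 := (hcol true).1 q (u * y) (P_add hu hy)
      rcases hρ with rfl | ⟨hxK, hyK⟩
      · simpa only [mul_assoc] using c1
      · obtain ⟨x', rfl⟩ := exists_coe_of_mem_P hK hxK
        obtain ⟨y', rfl⟩ := exists_coe_of_mem_P hK hyK
        have h1 : u * x' * (bv l false false * q) * e = u * y' * (bv l false false * q) * e := by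
          simp only [mul_assoc] at h0 c0 ⊢
          rw [h0, c0]
        have h2 := transferR hL hR he hO hxK hyK hE (v' := bv l true false * q) h1
        simp only [mul_assoc] at h2 c1 ⊢
        rw [h2, c1]

theorem TC_T'_right (hK : 0 < K) (hL : CancL S K) (hR : CancR S K)
    (he : (e : WithOne S) ∈ P S K) (hO : OreL (Loc e)) {b : ℕ}
    {α : WithOne S → WithOne S → Prop} {θ : Con (WithOne S)}
    (hθ : ∀ x y, θ x y → relT' (e : WithOne S) (b + 1) x y ∧ relE0 (e : WithOne S) x y ∧
      Rho S K x y) : TC α θ (relT' (e : WithOne S) b) := by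
  intro l hl hadm hδ
  obtain ⟨l, f, rfl⟩ := (List.eq_nil_or_concat' l).resolve_left hl
  obtain ⟨bb, x, y⟩ := f
  have hmem : (bb, x, y) ∈ l ++ [(bb, x, y)] := by simp
  have hcol := fun r => hθ _ _ (bv_col hadm.init r)
  cases bb with
  | false =>
    intro p v hv
    have hy : y ∈ P S 1 := (hadm _ hmem).2.1
    rw [bv_concat, bv_concat, bf_row, bf_row]
    simp only [if_true]
    have := (hcol true).1 p (y * v) (by rw [add_comm]; exact P_add hy hv)
    simpa only [mul_assoc] using this
  | true =>
    have hxy : θ x y := (hadm _ hmem).2.2.2 rfl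
    have hx : x ∈ P S 1 := (hadm _ hmem).1
    have hy : y ∈ P S 1 := (hadm _ hmem).2.1
    obtain ⟨-, hE, hρ⟩ := hθ _ _ hxy
    intro p v hv
    have h0 := hδ p v hv
    rw [bv_concat, bv_concat, bf_col, bf_col] at h0 ⊢
    simp only [if_true, Bool.false_eq_true, if_false] at h0 ⊢
    have c0 := (hcol false).1 p (y * v) (by rw [add_comm]; exact P_add hy hv)
    have c1 := (hcol true).1 p (y * v) (by rw [add_comm]; exact P_add hy hv)
    rcases hρ with rfl | ⟨hxK, hyK⟩
    · simpa only [mul_assoc] using c1
    · obtain ⟨x', rfl⟩ := exists_coe_of_mem_P hK hxK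
      obtain ⟨y', rfl⟩ := exists_coe_of_mem_P hK hyK
      have h1 : (e : WithOne S) * (p * bv l false false) * x' * v =
          e * (p * bv l false false) * y' * v := by
        simp only [mul_assoc] at h0 c0 ⊢
        rw [h0, c0]
      have h2 := transferL hL hR he hO hxK hyK hE (v' := p * bv l true false) h1
      simp only [mul_assoc] at h2 c1 ⊢
      rw [h2, c1]

lemma transfer2R (hL : CancL S K) {x y : S} (hx : (x : WithOne S) ∈ P S K)
    (hy : (y : WithOne S) ∈ P S K)
    (hE : relE0 (e : WithOne S) x y) {u v v' : WithOne S}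
    (h : u * x * v * e = u * x * v' * (e : WithOne S)) :
    u * y * v * e = u * y * v' * (e : WithOne S) := by
  have h1 : (x : WithOne S) * (v * e) = (x : WithOne S) * (v' * e) := by
    induction u using WithOne.recOneCoe with
    | one => simpa only [one_mul, mul_assoc] using h
    | coe u => exact hL x hx u (v * e) (v' * e) (by simpa only [mul_assoc] using h)
  have hE1 := hE 1 v
  have hE2 := hE 1 v'
  simp only [mul_one, mul_assoc] at hE1 hE2
  have h2 : (e : WithOne S) * y * (v * e) = (e : WithOne S) * y * (v' * e) := by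
    simp only [mul_assoc]
    rw [← hE1, ← hE2, h1]
  have h3 := hL y hy e (v * e) (v' * e) h2
  simp only [mul_assoc]
  rw [h3]

lemma transfer2L (hR : CancR S K) {x y : S} (hx : (x : WithOne S) ∈ P S K)
    (hy : (y : WithOne S) ∈ P S K)
    (hE : relE0 (e : WithOne S) x y) {u v v' : WithOne S}
    (h : (e : WithOne S) * v * x * u = e * v' * x * u) :
    (e : WithOne S) * v * y * u = e * v' * y * u := by
  have h1 : (e : WithOne S) * v * x = (e : WithOne S) * v' * x := by
    induction u using WithOne.recOneCoe with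
    | one => simpa only [mul_one, mul_assoc] using h
    | coe u => exact hR x hx u (e * v) (e * v') h
  have hE1 := hE v 1
  have hE2 := hE v' 1
  simp only [mul_one] at hE1 hE2
  have h2 : ((e : WithOne S) * v) * y * e = ((e : WithOne S) * v') * y * e := by
    rw [← hE1, ← hE2, h1]
  have h3 := hR y hy e (e * v) (e * v') h2
  rw [h3]

theorem TC_T_left (hK : 0 < K) (hL : CancL S K) {a : ℕ}
    {β : WithOne S → WithOne S → Prop} {θ : Con (WithOne S)}
    (hθ : ∀ x y, θ x y → relT (e : WithOne S) (a + 1) x y ∧ relE0 (e : WithOne S) x y ∧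
      Rho S K x y) : TC θ β (relT (e : WithOne S) a) := by
  intro l hl hadm hδ
  cases l with
  | nil => exact absurd rfl hl
  | cons f l =>
    obtain ⟨b, x, y⟩ := f
    have hrow := fun c => hθ _ _ (bv_row hadm.cons c)
    cases b with
    | true =>
      intro q u hu
      have hx : x ∈ P S 1 := (hadm _ List.mem_cons_self).1
      have hy : y ∈ P S 1 := (hadm _ List.mem_cons_self).2.1
      have h0 := hδ q u hu
      simp only [bv_cons, bf_col, if_true, Bool.false_eq_true, if_false] at h0 ⊢
      have c0 := (hrow false).1 q (u * x) (P_add hu hx)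
      have c1 := (hrow true).1 q (u * y) (P_add hu hy)
      simp only [mul_assoc] at h0 c0 c1 ⊢
      rw [← c0, ← c1, h0]
    | false =>
      have hxy : θ x y := (hadm _ List.mem_cons_self).2.2.1 rfl
      have hy : y ∈ P S 1 := (hadm _ List.mem_cons_self).2.1
      obtain ⟨-, hE, hρ⟩ := hθ _ _ hxy
      intro q u hu
      have h0 := hδ q u hu
      simp only [bv_cons, bf_row, if_true, Bool.false_eq_true, if_false] at h0 ⊢
      have c0 := (hrow false).1 q (u * y) (P_add hu hy)
      have c1 := (hrow true).1 q (u * y) (P_add hu hy)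
      rcases hρ with rfl | ⟨hxK, hyK⟩
      · simp only [mul_assoc] at h0 c0 c1 ⊢
        rw [← c0, ← c1, h0]
      · obtain ⟨x', rfl⟩ := exists_coe_of_mem_P hK hxK
        obtain ⟨y', rfl⟩ := exists_coe_of_mem_P hK hyK
        have h2 := transfer2R hL hxK hyK hE (u := u) (v := bv l false false * q)
          (v' := bv l false true * q) (by simpa only [mul_assoc] using h0)
        simp only [mul_assoc] at h2 c0 c1 ⊢
        rw [← c0, ← c1, h2]

theorem TC_T'_left (hK : 0 < K) (hR : CancR S K) {b : ℕ}
    {β : WithOne S → WithOne S → Prop} {θ : Con (WithOne S)}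
    (hθ : ∀ x y, θ x y → relT' (e : WithOne S) (b + 1) x y ∧ relE0 (e : WithOne S) x y ∧
      Rho S K x y) : TC θ β (relT' (e : WithOne S) b) := by
  intro l hl hadm hδ
  obtain ⟨l, f, rfl⟩ := (List.eq_nil_or_concat' l).resolve_left hl
  obtain ⟨bb, x, y⟩ := f
  have hmem : (bb, x, y) ∈ l ++ [(bb, x, y)] := by simp
  have hrow := fun c => hθ _ _ (bv_row hadm.init c)
  cases bb with
  | true =>
    intro p v hv
    have hx : x ∈ P S 1 := (hadm _ hmem).1
    have hy : y ∈ P S 1 := (hadm _ hmem).2.1
    have h0 := hδ p v hv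
    simp only [bv_concat, bf_col, if_true, Bool.false_eq_true, if_false] at h0 ⊢
    have c0 := (hrow false).1 p (x * v) (by rw [add_comm]; exact P_add hx hv)
    have c1 := (hrow true).1 p (y * v) (by rw [add_comm]; exact P_add hy hv)
    simp only [mul_assoc] at h0 c0 c1 ⊢
    rw [← c0, ← c1, h0]
  | false =>
    have hxy : θ x y := (hadm _ hmem).2.2.1 rfl
    have hy : y ∈ P S 1 := (hadm _ hmem).2.1
    obtain ⟨-, hE, hρ⟩ := hθ _ _ hxy
    intro p v hv
    have h0 := hδ p v hv
    simp only [bv_concat, bf_row, if_true, Bool.false_eq_true, if_false] at h0 ⊢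
    have c0 := (hrow false).1 p (y * v) (by rw [add_comm]; exact P_add hy hv)
    have c1 := (hrow true).1 p (y * v) (by rw [add_comm]; exact P_add hy hv)
    rcases hρ with rfl | ⟨hxK, hyK⟩
    · simp only [mul_assoc] at h0 c0 c1 ⊢
      rw [← c0, ← c1, h0]
    · obtain ⟨x', rfl⟩ := exists_coe_of_mem_P hK hxK
      obtain ⟨y', rfl⟩ := exists_coe_of_mem_P hK hyK
      have h2 := transfer2L hR hxK hyK hE (u := v) (v := p * bv l false false)
        (v' := p * bv l false true) (by simpa only [mul_assoc] using h0)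
      simp only [mul_assoc] at h2 c0 c1 ⊢
      rw [← c0, ← c1, h2]

/-! ### The last steps -/

lemma relT_of_relE0 (hK : 0 < K) (hL : CancL S K) {x y : WithOne S}
    (h : relE0 (e : WithOne S) x y) : relT (e : WithOne S) K x y := by
  intro q u hu
  obtain ⟨u', rfl⟩ := exists_coe_of_mem_P hK hu
  have h1 := h u' q
  have := hL u' hu e (x * q * e) (y * q * e) (by simpa only [mul_assoc] using h1)
  simpa only [mul_assoc] using this

lemma relT'_of_relE0 (hK : 0 < K) (hR : CancR S K) {x y : WithOne S}
    (h : relE0 (e : WithOne S) x y) : relT' (e : WithOne S) K x y := by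
  intro p v hv
  obtain ⟨v', rfl⟩ := exists_coe_of_mem_P hK hv
  have h1 := h p v'
  exact hR v' hv e (e * p * x) (e * p * y) h1

lemma relE0_of_relT (he : (e : WithOne S) ∈ P S K) {a : ℕ} (ha : a ≤ K) {x y : WithOne S}
    (h : relT (e : WithOne S) a x y) : relE0 (e : WithOne S) x y := by
  intro p q
  exact h q (e * p) (P_anti ha (P_mul_right he p))

lemma relZ_of_relT (hK : 0 < K) (hL : CancL S K) (hR : CancR S K) {x y : WithOne S}
    (h : relT (e : WithOne S) 0 x y) (h' : relT' (e : WithOne S) 0 x y) : relZ S (2 * K) x y := by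
  intro i j hij p hp q hq
  by_cases hj : K ≤ j
  · obtain ⟨q', rfl⟩ := exists_coe_of_mem_P hK (P_anti hj hq)
    have h1 := h q' 1 (mem_P_zero _)
    rw [one_mul, one_mul] at h1
    have h2 := hR q' (P_anti hj hq) e x y h1
    rw [mul_assoc, h2, mul_assoc]
  · have hi : K ≤ i := by omega
    obtain ⟨p', rfl⟩ := exists_coe_of_mem_P hK (P_anti hi hp)
    have h1 := h' p' 1 (mem_P_zero _)
    rw [mul_one, mul_one] at h1
    have h2 := hL p' (P_anti hi hp) e x y h1
    rw [h2]

lemma relZ_zero {x y : WithOne S} (h : relZ S 0 x y) : x = y := by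
  have := h 0 0 (by omega) 1 (mem_P_zero _) 1 (mem_P_zero _)
  simpa using this

/-- Changing the column factors inside a long product does nothing. -/
lemma bv_relZ_col {n : ℕ} {α : WithOne S → WithOne S → Prop} {l : List (BF S)}
    (hadm : Adm α (relZ S (n + 1)) l) (r : Bool) :
    ∀ i j : ℕ, n + 2 ≤ i + j + l.length → ∀ p ∈ P S i, ∀ q ∈ P S j,
      p * bv l r false * q = p * bv l r true * q := by
  induction l with
  | nil => intro i j _ p hp q hq; rfl
  | cons f l ih =>
    intro i j hij p hp q hq
    have hlen : (f :: l).length = l.length + 1 := rfl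
    rw [bv_cons, bv_cons]
    obtain ⟨b, x, y⟩ := f
    have hx : x ∈ P S 1 := (hadm _ List.mem_cons_self).1
    have hy : y ∈ P S 1 := (hadm _ List.mem_cons_self).2.1
    have hbf : ∀ c, bf (b, x, y) r c ∈ P S 1 := fun c => bf_mem hadm List.mem_cons_self r c
    have h1 := ih hadm.cons (i + 1) j (by omega) (p * bf (b, x, y) r false)
      (P_add hp (hbf false)) q hq
    have h2 : p * bf (b, x, y) r false * bv l r true * q =
        p * bf (b, x, y) r true * bv l r true * q := by
      cases b with
      | false => rw [bf_row, bf_row]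
      | true =>
        rw [bf_col, bf_col]
        simp only [if_true, Bool.false_eq_true, if_false]
        have hxy : relZ S (n + 1) x y := (hadm _ List.mem_cons_self).2.2.2 rfl
        have h3 := hxy i (j + l.length) (by omega) p hp (bv l r true * q)
          (by rw [add_comm]; exact P_add (bv_mem hadm.cons r true) hq)
        simpa only [mul_assoc] using h3
    simp only [mul_assoc] at h1 h2 ⊢
    rw [h1, h2]

lemma bv_relZ_row {n : ℕ} {β : WithOne S → WithOne S → Prop} {l : List (BF S)}
    (hadm : Adm (relZ S (n + 1)) β l) (c : Bool) :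
    ∀ i j : ℕ, n + 2 ≤ i + j + l.length → ∀ p ∈ P S i, ∀ q ∈ P S j,
      p * bv l false c * q = p * bv l true c * q := by
  induction l with
  | nil => intro i j _ p hp q hq; rfl
  | cons f l ih =>
    intro i j hij p hp q hq
    have hlen : (f :: l).length = l.length + 1 := rfl
    rw [bv_cons, bv_cons]
    obtain ⟨b, x, y⟩ := f
    have hbf : ∀ r, bf (b, x, y) r c ∈ P S 1 := fun r => bf_mem hadm List.mem_cons_self r c
    have h1 := ih hadm.cons (i + 1) j (by omega) (p * bf (b, x, y) false c)
      (P_add hp (hbf false)) q hq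
    have h2 : p * bf (b, x, y) false c * bv l true c * q =
        p * bf (b, x, y) true c * bv l true c * q := by
      cases b with
      | true => rw [bf_col, bf_col]
      | false =>
        rw [bf_row, bf_row]
        simp only [if_true, Bool.false_eq_true, if_false]
        have hxy : relZ S (n + 1) x y := (hadm _ List.mem_cons_self).2.2.1 rfl
        have h3 := hxy i (j + l.length) (by omega) p hp (bv l true c * q)
          (by rw [add_comm]; exact P_add (bv_mem hadm.cons true c) hq)
        simpa only [mul_assoc] using h3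
    simp only [mul_assoc] at h1 h2 ⊢
    rw [h1, h2]

lemma length_cases {l : List (BF S)} (hl : l ≠ []) : 2 ≤ l.length ∨ ∃ f, l = [f] := by
  by_cases h : 2 ≤ l.length
  · exact Or.inl h
  · right
    apply List.length_eq_one_iff.mp
    have : l.length ≠ 0 := by simpa using hl
    omega

theorem TC_Z_right (n : ℕ) (α : WithOne S → WithOne S → Prop) :
    TC α (relZ S (n + 1)) (relZ S n) := by
  intro l hl hadm hδ
  rcases length_cases hl with hlen | ⟨f, rfl⟩
  · intro i j hij p hp q hq
    exact bv_relZ_col hadm true i j (by omega) p hp q hq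
  · exact bv_single f _ hδ

theorem TC_Z_left (n : ℕ) (β : WithOne S → WithOne S → Prop) :
    TC (relZ S (n + 1)) β (relZ S n) := by
  intro l hl hadm hδ
  rcases length_cases hl with hlen | ⟨f, rfl⟩
  · intro i j hij p hp q hq
    rw [← bv_relZ_row hadm false i j (by omega) p hp q hq,
      ← bv_relZ_row hadm true i j (by omega) p hp q hq]
    exact hδ i j hij p hp q hq
  · exact bv_single f _ hδ

end

end Pool.Agent.Lib.MP_d3d931_al
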