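import Mathlib
import Pool.Agent.Lib.MP_d3d931_al.Delta
import Pool.Agent.Lib.MP_d3d931_al.Theta

set_option autoImplicit false
set_option linter.unusedSectionVars false

namespace Pool.Agent.Lib.MP_d3d931_al

section

variable {S : Type*} [Semigroup S]

/-- the trivial condition -/
abbrev TT : WithOne S → WithOne S → Prop := fun _ _ => True

/-- A congruence of `S¹` from which equality (on `S`) can be reached by commutator steps. -/
inductive Good : Con (WithOne S) → Prop
  | base (θ : Con (WithOne S)) (h : ∀ x y : S, θ (x : WithOne S) (y : WithOne S) → x = y) : Good θ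
  | step (θ θ' : Con (WithOne S)) (h1 : TC TT θ θ') (h2 : TC θ TT θ') (h : Good θ') : Good θ
  | mono (θ θ' : Con (WithOne S)) (h : ∀ x y, θ x y → θ' x y) (h' : Good θ') : Good θ

/-- conjunction of three congruences -/
def con3 (θ₁ θ₂ θ₃ : Con (WithOne S)) : Con (WithOne S) where
  r x y := θ₁ x y ∧ θ₂ x y ∧ θ₃ x y
  iseqv := ⟨fun x => ⟨θ₁.refl x, θ₂.refl x, θ₃.refl x⟩,
    fun h => ⟨θ₁.symm h.1, θ₂.symm h.2.1, θ₃.symm h.2.2⟩,
    fun h h' => ⟨θ₁.trans h.1 h'.1, θ₂.trans h.2.1 h'.2.1, θ₃.trans h.2.2 h'.2.2⟩⟩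
  mul' := fun h h' => ⟨θ₁.mul h.1 h'.1, θ₂.mul h.2.1 h'.2.1, θ₃.mul h.2.2 h'.2.2⟩

lemma con3_iff {θ₁ θ₂ θ₃ : Con (WithOne S)} {x y : WithOne S} :
    con3 θ₁ θ₂ θ₃ x y ↔ θ₁ x y ∧ θ₂ x y ∧ θ₃ x y := Iff.rfl

/-- conjunction of two congruences -/
def con2 (θ₁ θ₂ : Con (WithOne S)) : Con (WithOne S) where
  r x y := θ₁ x y ∧ θ₂ x y
  iseqv := ⟨fun x => ⟨θ₁.refl x, θ₂.refl x⟩,
    fun h => ⟨θ₁.symm h.1, θ₂.symm h.2⟩,
    fun h h' => ⟨θ₁.trans h.1 h'.1, θ₂.trans h.2 h'.2⟩⟩
  mul' := fun h h' => ⟨θ₁.mul h.1 h'.1, θ₂.mul h.2 h'.2⟩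

lemma con2_iff {θ₁ θ₂ : Con (WithOne S)} {x y : WithOne S} :
    con2 θ₁ θ₂ x y ↔ θ₁ x y ∧ θ₂ x y := Iff.rfl

lemma TC_self_right {α : WithOne S → WithOne S → Prop} {θ δ : Con (WithOne S)}
    (h : ∀ x y, θ x y → δ x y) : TC α θ δ := by
  intro l _ hadm _
  exact h _ _ (bv_col hadm true)

lemma TC_self_left {β : WithOne S → WithOne S → Prop} {θ δ : Con (WithOne S)}
    (h : ∀ x y, θ x y → δ x y) : TC θ β δ := by
  intro l _ hadm hδ
  exact δ.trans (δ.symm (h _ _ (bv_row hadm false))) (δ.trans hδ (h _ _ (bv_row hadm true)))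

lemma TC_con2 {α β : WithOne S → WithOne S → Prop} {δ₁ δ₂ : Con (WithOne S)}
    (h1 : TC α β δ₁) (h2 : TC α β δ₂) : TC α β (con2 δ₁ δ₂) := by
  intro l hl hadm hδ
  exact ⟨h1 l hl hadm hδ.1, h2 l hl hadm hδ.2⟩

lemma TC_con3 {α β : WithOne S → WithOne S → Prop} {δ₁ δ₂ δ₃ : Con (WithOne S)}
    (h1 : TC α β δ₁) (h2 : TC α β δ₂) (h3 : TC α β δ₃) : TC α β (con3 δ₁ δ₂ δ₃) := by
  intro l hl hadm hδ
  exact ⟨h1 l hl hadm hδ.1, h2 l hl hadm hδ.2.1, h3 l hl hadm hδ.2.2⟩

/-! ### Bottom part of the chain -/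

theorem good_Z (n : ℕ) : Good (relZ S n) := by
  induction n with
  | zero =>
    refine Good.base _ fun x y h => ?_
    exact WithOne.coe_inj.mp (relZ_zero h)
  | succ n ih => exact Good.step _ _ (TC_Z_right n _) (TC_Z_left n _) ih

variable {K : ℕ} {e : S}

theorem good_T (hK : 0 < K) (hL : CancL S K) (hR : CancR S K) (he : (e : WithOne S) ∈ P S K)
    (hOL : OreL (Loc e)) (hOR : OreR (Loc e)) (a : ℕ) (ha : a ≤ K) (b : ℕ) (hb : b ≤ K) :
    Good (con3 (relT (e : WithOne S) a) (relT' (e : WithOne S) b) (Rho S K)) := by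
  have h0 : Good (con3 (relT (e : WithOne S) 0) (relT' (e : WithOne S) 0) (Rho S K)) := by
    refine Good.mono _ (relZ S (2 * K)) ?_ (good_Z _)
    intro x y h
    exact relZ_of_relT hK hL hR h.1 h.2.1
  have h1 : ∀ b, b ≤ K → Good (con3 (relT (e : WithOne S) 0) (relT' (e : WithOne S) b)
      (Rho S K)) := by
    intro b
    induction b with
    | zero => intro _; exact h0
    | succ b ih =>
      intro hb
      refine Good.step _ _ ?_ ?_ (ih (by omega))
      · refine TC_con3 (TC_self_right fun x y h => h.1)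
          (TC_T'_right hK hL hR he hOL ?_) (TC_self_right fun x y h => h.2.2)
        intro x y h
        exact ⟨h.2.1, relE0_of_relT he (Nat.zero_le _) h.1, h.2.2⟩
      · refine TC_con3 (TC_self_left fun x y h => h.1)
          (TC_T'_left hK hR ?_) (TC_self_left fun x y h => h.2.2)
        intro x y h
        exact ⟨h.2.1, relE0_of_relT he (Nat.zero_le _) h.1, h.2.2⟩
  induction a with
  | zero => exact h1 b hb
  | succ a ih =>
    refine Good.step _ _ ?_ ?_ (ih (by omega))
    · refine TC_con3 (TC_T_right hK hL hR he hOR ?_) (TC_self_right fun x y h => h.2.1)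
        (TC_self_right fun x y h => h.2.2)
      intro x y h
      exact ⟨h.1, relE0_of_relT he ha h.1, h.2.2⟩
    · refine TC_con3 (TC_T_left hK hL ?_) (TC_self_left fun x y h => h.2.1)
        (TC_self_left fun x y h => h.2.2)
      intro x y h
      exact ⟨h.1, relE0_of_relT he ha h.1, h.2.2⟩

theorem good_E0 (hK : 0 < K) (hL : CancL S K) (hR : CancR S K) (he : (e : WithOne S) ∈ P S K)
    (hOL : OreL (Loc e)) (hOR : OreR (Loc e)) :
    Good (con2 (relE0 (e : WithOne S)) (Rho S K)) := by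
  refine Good.mono _ _ ?_ (good_T hK hL hR he hOL hOR K le_rfl K le_rfl)
  intro x y h
  exact ⟨relT_of_relE0 hK hL h.1, relT'_of_relE0 hK hR h.1, h.2⟩

/-! ### Group levels -/

section level

variable {Q : Type*} [Group Q] {F : WithOne S → Q}

/-- `Δ_{a,b}` -/
def relD (F : WithOne S → Q) (K a b : ℕ) : Con (WithOne S) :=
  con2 (con2 (relA F a) (relB F b)) (con2 (relC F) (Rho S K))

lemma relD_iff {a b : ℕ} {x y : WithOne S} : relD F K a b x y ↔
    (relA F a x y ∧ relB F b x y) ∧ (relC F x y ∧ Rho S K x y) := Iff.rfl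

theorem good_D (h1 : HF1 F K) (h2 : HF2 F K) (h0 : Good (con2 (relE F) (Rho S K))) (a b : ℕ) :
    Good (relD F K a b) := by
  have hs : Good (relD F K 0 0) := by
    refine Good.step _ _ ?_ ?_ h0
    · refine TC_con2 (TC_E_right fun x y h => ⟨h.1.1, h.1.2, h.2.1⟩)
        (TC_self_right fun x y h => h.2.2)
    · refine TC_con2 (TC_E_left fun x y h => ⟨h.1.1, h.1.2, h.2.1⟩)
        (TC_self_left fun x y h => h.2.2)
  have hb : ∀ b, Good (relD F K 0 b) := by
    intro b
    induction b with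
    | zero => exact hs
    | succ b ih =>
      refine Good.step _ _ ?_ ?_ ih
      · refine TC_con2 (TC_con2 (TC_self_right fun x y h => h.1.1)
          (TC_B_right h2 fun x y h => ⟨h.1.2, h.2.1, h.2.2⟩)) (TC_self_right fun x y h => h.2)
      · refine TC_con2 (TC_con2 (TC_self_left fun x y h => h.1.1)
          (TC_B_left h2 fun x y h => ⟨h.1.2, h.2.1, h.2.2⟩)) (TC_self_left fun x y h => h.2)
  induction a with
  | zero => exact hb b
  | succ a ih =>
    refine Good.step _ _ ?_ ?_ ih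
    · refine TC_con2 (TC_con2 (TC_A_right h1 fun x y h => ⟨h.1.1, h.2.1, h.2.2⟩)
        (TC_self_right fun x y h => h.1.2)) (TC_self_right fun x y h => h.2)
    · refine TC_con2 (TC_con2 (TC_A_left h1 fun x y h => ⟨h.1.1, h.2.1, h.2.2⟩)
        (TC_self_left fun x y h => h.1.2)) (TC_self_left fun x y h => h.2)

/-- above `P K` the conditions are automatic -/
lemma relD_of_relC (h1 : HF1 F K) (h2 : HF2 F K) {x y : WithOne S}
    (hC : relC F x y) (hρ : Rho S K x y) : relD F K K K x y := by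
  refine ⟨⟨?_, ?_⟩, hC, hρ⟩
  · intro p q u hu
    have hz := hC u q
    rw [Subgroup.mem_center_iff] at hz
    have e1 : F (p * u * x * q) = (F (p * u * 1) * (F (u * 1))⁻¹) * F (u * x * q) := by
      have := h1 u hu p (x * q) 1
      rw [← this]
      simp only [mul_assoc]; group
    have e2 : F (p * u * y * q) = (F (p * u * 1) * (F (u * 1))⁻¹) * F (u * y * q) := by
      have := h1 u hu p (y * q) 1
      rw [← this]
      simp only [mul_assoc]; group
    unfold kap at hz ⊢
    rw [e1, e2]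
    set A := F (p * u * 1) * (F (u * 1))⁻¹
    rw [show A * F (u * x * q) * (A * F (u * y * q))⁻¹ =
      A * (F (u * x * q) * (F (u * y * q))⁻¹) * A⁻¹ by group, hz A]
    group
  · intro p q v hv
    have e1 : F (p * x * (v * q)) = F (p * x * v) * ((F (1 * v))⁻¹ * F (1 * v * q)) := by
      have := h2 v hv q (p * x) 1
      rw [← this]
      simp only [mul_assoc]; group
    have e2 : F (p * y * (v * q)) = F (p * y * v) * ((F (1 * v))⁻¹ * F (1 * v * q)) := by
      have := h2 v hv q (p * y) 1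
      rw [← this]
      simp only [mul_assoc]; group
    unfold kap
    rw [e1, e2]
    group

theorem good_C (h1 : HF1 F K) (h2 : HF2 F K) (h0 : Good (con2 (relE F) (Rho S K))) :
    Good (con2 (relC F) (Rho S K)) := by
  refine Good.mono _ _ ?_ (good_D h1 h2 h0 K K)
  intro x y h
  exact relD_of_relC h1 h2 h.1 h.2

end level

/-! ### The map to the group -/

section group

variable {G : Type*} [Group G] (ι : Loc e →* G)

/-- the map `S¹ → G` -/
def Fg (ι : Loc e →* G) (w : WithOne S) : G := ι (mk e w)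

lemma Fg_coe (s : S) : Fg ι (s : WithOne S) = ι (mk e (some s)) := rfl

lemma mk_mul_eq {s s' : S} {M M' : Loc e}
    (h : (e : WithOne S) * s * pw M = (e : WithOne S) * s' * pw M') :
    mk e (some s) * M = mk e (some s') * M' := by
  apply psiQ_injective
  rw [psiQ_mk_mul, psiQ_mk_mul]
  simp only [lact]
  apply WithOne.coe_inj.mp
  simpa only [WithOne.coe_mul, pw] using h

lemma mul_mk_eq {s s' : S} {M M' : Loc e}
    (h : pw M * s * (e : WithOne S) = pw M' * s' * e) :
    M * mk e (some s) = M' * mk e (some s') := by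
  apply psiQ_injective
  rw [psiQ_mul_mk, psiQ_mul_mk]
  simp only [ract]
  apply WithOne.coe_inj.mp
  simpa only [WithOne.coe_mul, pw] using h

theorem HF1_Fg (hK : 0 < K) (hL : CancL S K) (hOR : OreR (Loc e)) : HF1 (Fg ι) K := by
  intro u hu p q q'
  obtain ⟨x, rfl⟩ := exists_coe_of_mem_P hK hu
  obtain ⟨M, M', h1, h2⟩ := ore_right' hL hOR hu q q'
  have e1 : mk e (some (Wmul x q)) * M = mk e (some (Wmul x q')) * M' := by
    apply mk_mul_eq
    rw [coe_Wmul, coe_Wmul]
    simpa only [mul_assoc] using h2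
  have e2 : mk e (some (mulW p (Wmul x q))) * M = mk e (some (mulW p (Wmul x q'))) * M' := by
    apply mk_mul_eq
    rw [coe_mulW, coe_mulW, coe_Wmul, coe_Wmul]
    simp only [mul_assoc] at h1 ⊢
    rw [h1]
  have c1 : (x : WithOne S) * q = ((Wmul x q : S) : WithOne S) := (coe_Wmul _ _).symm
  have c2 : (x : WithOne S) * q' = ((Wmul x q' : S) : WithOne S) := (coe_Wmul _ _).symm
  have c3 : p * (x : WithOne S) * q = ((mulW p (Wmul x q) : S) : WithOne S) := by
    rw [coe_mulW, coe_Wmul, mul_assoc]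
  have c4 : p * (x : WithOne S) * q' = ((mulW p (Wmul x q') : S) : WithOne S) := by
    rw [coe_mulW, coe_Wmul, mul_assoc]
  rw [c1, c2, c3, c4, Fg_coe, Fg_coe, Fg_coe, Fg_coe]
  have g1 := congrArg ι e1
  have g2 := congrArg ι e2
  rw [map_mul, map_mul] at g1 g2
  have g3 : ι (mk e (some (mulW p (Wmul x q)))) * (ι (mk e (some (Wmul x q))))⁻¹ =
      (ι (mk e (some (mulW p (Wmul x q)))) * ι M) * (ι (mk e (some (Wmul x q))) * ι M)⁻¹ := by
    group
  rw [g3, g1, g2]
  group

theorem HF2_Fg (hK : 0 < K) (hR : CancR S K) (hOL : OreL (Loc e)) : HF2 (Fg ι) K := by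
  intro v hv q p p'
  obtain ⟨x, rfl⟩ := exists_coe_of_mem_P hK hv
  obtain ⟨M, M', h1, h2⟩ := ore_left' hR hOL hv p p'
  have e1 : M * mk e (some (mulW p x)) = M' * mk e (some (mulW p' x)) := by
    apply mul_mk_eq
    rw [coe_mulW, coe_mulW]
    simpa only [mul_assoc] using h2
  have e2 : M * mk e (some (Wmul (mulW p x) q)) = M' * mk e (some (Wmul (mulW p' x) q)) := by
    apply mul_mk_eq
    rw [coe_Wmul, coe_Wmul, coe_mulW, coe_mulW]
    simp only [← mul_assoc] at h1 ⊢
    rw [h1]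
  have c1 : p * (x : WithOne S) = ((mulW p x : S) : WithOne S) := (coe_mulW _ _).symm
  have c2 : p' * (x : WithOne S) = ((mulW p' x : S) : WithOne S) := (coe_mulW _ _).symm
  have c3 : p * (x : WithOne S) * q = ((Wmul (mulW p x) q : S) : WithOne S) := by
    rw [coe_Wmul, coe_mulW]
  have c4 : p' * (x : WithOne S) * q = ((Wmul (mulW p' x) q : S) : WithOne S) := by
    rw [coe_Wmul, coe_mulW]
  rw [c3, c4, c1, c2, Fg_coe, Fg_coe, Fg_coe, Fg_coe]
  have g1 := congrArg ι e1
  have g2 := congrArg ι e2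
  rw [map_mul, map_mul] at g1 g2
  have g3 : (ι (mk e (some (mulW p x))))⁻¹ * ι (mk e (some (Wmul (mulW p x) q))) =
      (ι M * ι (mk e (some (mulW p x))))⁻¹ * (ι M * ι (mk e (some (Wmul (mulW p x) q)))) := by
    group
  rw [g3, g1, g2]
  group

/-- the map `S¹ → G / Z_j` -/
def Fj (ι : Loc e →* G) (j : ℕ) (w : WithOne S) : G ⧸ Subgroup.upperCentralSeries G j :=
  QuotientGroup.mk' (Subgroup.upperCentralSeries G j) (Fg ι w)

lemma HF1_Fj {j : ℕ} (h : HF1 (Fg ι) K) : HF1 (Fj ι j) K := by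
  intro u hu p q q'
  have := congrArg (QuotientGroup.mk' (Subgroup.upperCentralSeries G j)) (h u hu p q q')
  rw [map_mul, map_mul, map_inv, map_inv] at this
  exact this

lemma HF2_Fj {j : ℕ} (h : HF2 (Fg ι) K) : HF2 (Fj ι j) K := by
  intro u hu p q q'
  have := congrArg (QuotientGroup.mk' (Subgroup.upperCentralSeries G j)) (h u hu p q q')
  rw [map_mul, map_mul, map_inv, map_inv] at this
  exact this

lemma kap_Fj (j : ℕ) (x y p q : WithOne S) : kap (Fj ι j) x y p q =
    QuotientGroup.mk' (Subgroup.upperCentralSeries G j) (kap (Fg ι) x y p q) := by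
  simp only [kap, Fj, map_mul, map_inv]

lemma relE_Fj {j : ℕ} {x y : WithOne S} : relE (Fj ι j) x y ↔
    ∀ p q, kap (Fg ι) x y p q ∈ Subgroup.upperCentralSeries G j := by
  rw [relE_iff]
  refine forall_congr' fun p => forall_congr' fun q => ?_
  rw [kap_Fj, ← QuotientGroup.eq_one_iff]
  rfl

lemma relC_Fj {j : ℕ} {x y : WithOne S} : relC (Fj ι j) x y ↔
    ∀ p q, kap (Fg ι) x y p q ∈ Subgroup.upperCentralSeries G (j + 1) := by
  rw [relC_iff]
  refine forall_congr' fun p => forall_congr' fun q => ?_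
  rw [kap_Fj]
  have : Subgroup.upperCentralSeries G (j + 1) = Subgroup.comap
      (QuotientGroup.mk' (Subgroup.upperCentralSeries G j)) (Subgroup.center (G ⧸ Subgroup.upperCentralSeries G j)) :=
    Subgroup.upperCentralSeriesStep_eq_comap_center (Subgroup.upperCentralSeries G j)
  rw [this, Subgroup.mem_comap]

theorem good_level (h1 : HF1 (Fg ι) K) (h2 : HF2 (Fg ι) K) {j : ℕ}
    (h : Good (con2 (relE (Fj ι j)) (Rho S K))) : Good (con2 (relE (Fj ι (j + 1))) (Rho S K)) := by
  refine Good.mono _ _ ?_ (good_C (HF1_Fj ι h1) (HF2_Fj ι h2) h)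
  intro x y hxy
  refine ⟨?_, hxy.2⟩
  rw [relC_Fj, ← relE_Fj]
  exact hxy.1

/-- **The chain**: everything is good. -/
theorem good_top {d : ℕ} (hK : 0 < K) (hL : CancL S K) (hR : CancR S K)
    (he : (e : WithOne S) ∈ P S K) (hOL : OreL (Loc e)) (hOR : OreR (Loc e))
    (hι : Function.Injective ι) (hG : Subgroup.upperCentralSeries G d = ⊤) :
    Good (⊤ : Con (WithOne S)) := by
  have h1 := HF1_Fg ι hK hL hOR
  have h2 := HF2_Fg ι hK hR hOL
  have h0 : Good (con2 (relE (Fj ι 0)) (Rho S K)) := by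
    refine Good.mono _ _ ?_ (good_E0 hK hL hR he hOL hOR)
    rintro x y ⟨hE, hρ⟩
    refine ⟨?_, hρ⟩
    rcases hρ with rfl | ⟨hx, hy⟩
    · exact (relE0 (e : WithOne S)).refl _
    · obtain ⟨x, rfl⟩ := exists_coe_of_mem_P hK hx
      obtain ⟨y, rfl⟩ := exists_coe_of_mem_P hK hy
      intro p q
      have h3 := (relE_Fj ι).mp hE p q
      rw [Subgroup.upperCentralSeries_zero, Subgroup.mem_bot] at h3
      unfold kap at h3
      have c1 : p * (x : WithOne S) * q = ((Wmul (mulW p x) q : S) : WithOne S) := by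
        rw [coe_Wmul, coe_mulW]
      have c2 : p * (y : WithOne S) * q = ((Wmul (mulW p y) q : S) : WithOne S) := by
        rw [coe_Wmul, coe_mulW]
      rw [c1, c2, Fg_coe, Fg_coe, mul_inv_eq_one] at h3
      have h4 := congrArg (psiQ e) (hι h3)
      rw [psiQ_mk, psiQ_mk] at h4
      simp only [psi] at h4
      have h5 := congrArg (fun s : S => (s : WithOne S)) h4
      simp only [WithOne.coe_mul, coe_Wmul, coe_mulW] at h5
      simpa only [mul_assoc] using h5
  have hj : ∀ j, Good (con2 (relE (Fj ι j)) (Rho S K)) := by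
    intro j
    induction j with
    | zero => exact h0
    | succ j ih => exact good_level ι h1 h2 ih
  have hρK : Good (Rho S K) := by
    refine Good.mono _ _ ?_ (hj d)
    intro x y h
    refine ⟨?_, h⟩
    rw [relE_Fj]
    intro p q
    rw [hG]
    exact Subgroup.mem_top _
  have hρ : ∀ i, i ≤ K → Good (Rho S (K - i)) := by
    intro i
    induction i with
    | zero => intro _; exact hρK
    | succ i ih =>
      intro hi
      have h3 : K - i = (K - (i + 1)) + 1 := by omega
      have h4 := ih (by omega)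
      rw [h3] at h4
      exact Good.step _ _ (TC_rho_right _ _) (TC_rho_left _ _) h4
  have h5 := hρ K le_rfl
  rw [Nat.sub_self] at h5
  refine Good.mono _ _ ?_ h5
  intro x y _
  exact Or.inr ⟨mem_P_zero _, mem_P_zero _⟩

end group

end

end Pool.Agent.Lib.MP_d3d931_al
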