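import Mathlib

/-!
# Higher commutators of semigroups (Bulatov's higher commutators, as in MP_d3d931_al)
-/

namespace Pool.Agent.Lib.MP_d3d931_al

universe u

section Defs
variable {S : Type u} [Semigroup S]

/-- The matrix whose row `ε` is `(a, a)` if `ε i = 0` and `(b, b)` if `ε i = 1`. -/
def rowGen {m : ℕ} (i : Fin m) (a b : S) : (Fin m → Bool) → Bool → S :=
  fun ε _ => if ε i = true then b else a

/-- The matrix all of whose rows are `(a, b)`. -/
def colGen {m : ℕ} (a b : S) : (Fin m → Bool) → Bool → S :=
  fun _ η => if η = true then b else a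

/-- `M (α₁, …, αₙ)` with `n = m + 1`: the subsemigroup of `S ^ (2 ^ m × 2)` generated by the
matrices `rowGen i a b` with `(a, b) ∈ αᵢ` for `i < n` and by `colGen a b` with `(a, b) ∈ αₙ`. -/
def M {m : ℕ} (α : Fin (m + 1) → Con S) : Subsemigroup ((Fin m → Bool) → Bool → S) :=
  Subsemigroup.closure
    ({x | ∃ (i : Fin m) (a b : S), α i.castSucc a b ∧ x = rowGen i a b} ∪
      {x | ∃ a b : S, α (Fin.last m) a b ∧ x = colGen a b})

/-- The term condition `C(α₁, …, αₙ; δ)`: for each `x` in `M (α₁, …, αₙ)`, if the two entries of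
each row `ε ≠ (1, …, 1)` are `δ`-related, then so are the two entries of row `(1, …, 1)`. -/
def Centralizes {m : ℕ} (α : Fin (m + 1) → Con S) (δ : Con S) : Prop :=
  ∀ x ∈ M α, (∀ ε : Fin m → Bool, ε ≠ (fun _ => true) → δ (x ε false) (x ε true)) →
    δ (x (fun _ => true) false) (x (fun _ => true) true)

/-- The higher commutator `[α₁, …, αₙ]`: the least congruence `δ` with `C(α₁, …, αₙ; δ)`. -/
def comm {m : ℕ} (α : Fin (m + 1) → Con S) : Con S := sInf {δ | Centralizes α δ}

variable (S)

/-- `S` is `d`-supernilpotent: `[1, …, 1] = 0` with `d + 1` copies of `1`. -/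
def IsSupernilpotent (d : ℕ) : Prop := comm (fun _ : Fin (d + 1) => (⊤ : Con S)) = ⊥

/-- `leftSeries S d = [1, [1, …, [1, 1]…]]` with `d + 1` copies of `1`. -/
def leftSeries : ℕ → Con S
  | 0 => ⊤
  | k + 1 => comm (m := 1) ![⊤, leftSeries k]

/-- `rightSeries S d = [[…[1, 1], …], 1]` with `d + 1` copies of `1`. -/
def rightSeries : ℕ → Con S
  | 0 => ⊤
  | k + 1 => comm (m := 1) ![rightSeries k, ⊤]

/-- Supernilpotent: `d`-supernilpotent for some `d`. -/
def Supernilpotent : Prop := ∃ d : ℕ, IsSupernilpotent S d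

/-- Left nilpotent: left `d`-nilpotent for some `d`. -/
def LeftNilpotent : Prop := ∃ d : ℕ, leftSeries S d = ⊥

/-- Right nilpotent: right `d`-nilpotent for some `d`. -/
def RightNilpotent : Prop := ∃ d : ℕ, rightSeries S d = ⊥

end Defs

section Basic
variable {S : Type u} [Semigroup S]

theorem comm_le {m : ℕ} {α : Fin (m + 1) → Con S} {δ : Con S} (h : Centralizes α δ) :
    comm α ≤ δ := sInf_le h

theorem M_mono {m : ℕ} {α β : Fin (m + 1) → Con S} (h : ∀ i, α i ≤ β i) : M α ≤ M β := by
  unfold M
  apply Subsemigroup.closure_mono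
  rintro x (⟨i, a, b, hab, rfl⟩ | ⟨a, b, hab, rfl⟩)
  · exact Or.inl ⟨i, a, b, h _ hab, rfl⟩
  · exact Or.inr ⟨a, b, h _ hab, rfl⟩

theorem Centralizes.mono {m : ℕ} {α β : Fin (m + 1) → Con S} {δ : Con S} (h : ∀ i, α i ≤ β i)
    (hc : Centralizes β δ) : Centralizes α δ :=
  fun x hx hrow => hc x (M_mono h hx) hrow

theorem comm_mono {m : ℕ} {α β : Fin (m + 1) → Con S} (h : ∀ i, α i ≤ β i) :
    comm α ≤ comm β := by
  unfold comm
  exact sInf_le_sInf fun δ hδ => Centralizes.mono h hδ

/-- The commutator itself satisfies the term condition, so it is the least such congruence. -/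
theorem centralizes_comm {m : ℕ} (α : Fin (m + 1) → Con S) : Centralizes α (comm α) := by
  intro x hx hrow δ hδ
  exact hδ x hx fun ε hε => hrow ε hε δ hδ

theorem fin1_ne {ε : Fin 1 → Bool} (h : ε ≠ fun _ => true) : ε = fun _ => false := by
  funext i
  by_contra hi
  apply h
  funext j
  have : j = i := Subsingleton.elim _ _
  subst this
  simpa using hi

theorem fin1_cases (ε : Fin 1 → Bool) : ε = (fun _ => false) ∨ ε = fun _ => true := by
  by_cases h : ε = fun _ => true
  · exact Or.inr h
  · exact Or.inl (fin1_ne h)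

/-- Binary case, from an invariant of `2 × 2` matrices closed under products. -/
theorem centralizes_two {α β δ : Con S} (p : (Bool → Bool → S) → Prop)
    (h1 : ∀ a b, α a b → p (fun ε _ => if ε = true then b else a))
    (h2 : ∀ a b, β a b → p (fun _ η => if η = true then b else a))
    (hmul : ∀ x y, p x → p y → p (fun ε η => x ε η * y ε η))
    (hend : ∀ x, p x → δ (x false false) (x false true) → δ (x true false) (x true true)) :
    Centralizes (m := 1) ![α, β] δ := by
  intro x hx hrow
  have key : p (fun ε η => x (fun _ => ε) η) := by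
    clear hrow
    unfold M at hx
    induction hx using Subsemigroup.closure_induction with
    | mem x hx =>
      rcases hx with ⟨i, a, b, hab, rfl⟩ | ⟨a, b, hab, rfl⟩
      · have hi : i = 0 := Subsingleton.elim _ _
        subst hi
        exact h1 a b (by simpa using hab)
      · exact h2 a b (by simpa using hab)
    | mul x y hx hy ihx ihy =>
      exact hmul _ _ ihx ihy
  exact hend _ key (hrow _ (by
    intro h
    have := congrFun h 0
    simp at this))

end Basic

end Pool.Agent.Lib.MP_d3d931_al
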