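import Mathlib
import Pool.Agent.Lib.MP_d3d931_al.Defs
import Pool.Agent.Lib.MP_d3d931_al.Chain

set_option autoImplicit false
set_option linter.unusedSectionVars false

namespace Pool.Agent.Lib.MP_d3d931_al

universe u

section

variable {S : Type u} [Semigroup S]

/-! ### From the higher commutator to product cubes -/

lemma exists_matrix {d : ℕ} (l : List (Fac d S)) (hl : l ≠ []) :
    ∃ x ∈ M (fun _ : Fin (d + 1) => (⊤ : Con S)), ∀ (ε : Fin d → Bool) (s : Bool),
      (l.map fun f => ((fval ε s f : S) : WithOne S)).prod = ((x ε s : S) : WithOne S) := by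
  have hgen : ∀ f : Fac d S, ∃ x ∈ M (fun _ : Fin (d + 1) => (⊤ : Con S)),
      ∀ (ε : Fin d → Bool) (s : Bool), fval ε s f = x ε s := by
    rintro ⟨i, a, b⟩
    cases i with
    | none =>
      refine ⟨colGen a b, Subsemigroup.subset_closure (Or.inr ⟨a, b, trivial, rfl⟩), ?_⟩
      intro ε s
      rfl
    | some i =>
      refine ⟨rowGen i a b, Subsemigroup.subset_closure (Or.inl ⟨i, a, b, trivial, rfl⟩), ?_⟩
      intro ε s
      rfl
  induction l with
  | nil => exact absurd rfl hl
  | cons f l ih =>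
    obtain ⟨x, hx, hfx⟩ := hgen f
    by_cases hl' : l = []
    · subst hl'
      refine ⟨x, hx, fun ε s => ?_⟩
      simp [hfx]
    · obtain ⟨y, hy, hly⟩ := ih hl'
      refine ⟨x * y, mul_mem hx hy, fun ε s => ?_⟩
      rw [List.map_cons, List.prod_cons, hly ε s, hfx]
      rfl

theorem SNS_of_isSupernilpotent {d : ℕ} (h : IsSupernilpotent S d) : SNS d S := by
  intro l hl hε
  obtain ⟨x, hx, hxl⟩ := exists_matrix l hl
  have hc := centralizes_comm (fun _ : Fin (d + 1) => (⊤ : Con S))
  unfold IsSupernilpotent at h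
  rw [h] at hc
  have key := hc x hx (fun ε hne => by
    have h1 := hε ε hne
    rw [hxl, hxl] at h1
    exact WithOne.coe_inj.mp h1)
  rw [hxl, hxl]
  exact congrArg _ key

/-! ### From the chain to nilpotence -/

/-- restriction of a congruence of `S¹` to `S` -/
def restr (θ : Con (WithOne S)) : Con S where
  r x y := θ (x : WithOne S) (y : WithOne S)
  iseqv := ⟨fun _ => θ.refl _, fun h => θ.symm h, fun h h' => θ.trans h h'⟩
  mul' := by
    intro w x y z h h'
    rw [WithOne.coe_mul, WithOne.coe_mul]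
    exact θ.mul h h'

theorem centralizes_of_TC {α β : Con S} {α' β' : WithOne S → WithOne S → Prop}
    {δ : Con (WithOne S)} (hα : ∀ x y : S, α x y → α' x y) (hβ : ∀ x y : S, β x y → β' x y)
    (h : TC α' β' δ) : Centralizes (m := 1) ![α, β] (restr δ) := by
  refine centralizes_two (fun x => ∃ l : List (BF S), l ≠ [] ∧ Adm α' β' l ∧
    ∀ r c : Bool, ((x r c : S) : WithOne S) = bv l r c) ?_ ?_ ?_ ?_
  · intro a b hab
    refine ⟨[(false, (a : WithOne S), (b : WithOne S))], by simp, ?_, ?_⟩
    · intro f hf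
      rw [List.mem_singleton] at hf
      subst hf
      exact ⟨coe_mem_P_one a, coe_mem_P_one b, fun _ => hα a b hab, fun h => by simp at h⟩
    · intro r c
      rw [bv_cons, bv_nil, mul_one, bf_row]
      cases r <;> rfl
  · intro a b hab
    refine ⟨[(true, (a : WithOne S), (b : WithOne S))], by simp, ?_, ?_⟩
    · intro f hf
      rw [List.mem_singleton] at hf
      subst hf
      exact ⟨coe_mem_P_one a, coe_mem_P_one b, fun h => by simp at h, fun _ => hβ a b hab⟩
    · intro r c
      rw [bv_cons, bv_nil, mul_one, bf_col]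
      cases c <;> rfl
  · rintro x y ⟨l, hl, hadm, hlx⟩ ⟨l', hl', hadm', hly⟩
    refine ⟨l ++ l', by simp [hl], ?_, ?_⟩
    · intro f hf
      rcases List.mem_append.mp hf with hf | hf
      · exact hadm f hf
      · exact hadm' f hf
    · intro r c
      rw [WithOne.coe_mul, hlx, hly]
      simp [bv]
  · rintro x ⟨l, hl, hadm, hlx⟩ h0
    have h0' : δ (bv l false false) (bv l false true) := by
      rw [← hlx, ← hlx]; exact h0
    have h1 := h l hl hadm h0'
    rw [← hlx, ← hlx] at h1
    exact h1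

/-- iterated commutators -/
def leftIter (γ : Con S) : ℕ → Con S
  | 0 => γ
  | k + 1 => comm (m := 1) ![⊤, leftIter γ k]

/-- iterated commutators -/
def rightIter (γ : Con S) : ℕ → Con S
  | 0 => γ
  | k + 1 => comm (m := 1) ![rightIter γ k, ⊤]

lemma leftIter_succ (γ : Con S) (k : ℕ) :
    leftIter γ (k + 1) = leftIter (comm (m := 1) ![⊤, γ]) k := by
  induction k with
  | zero => rfl
  | succ k ih => rw [leftIter, ih, leftIter]

lemma rightIter_succ (γ : Con S) (k : ℕ) :
    rightIter γ (k + 1) = rightIter (comm (m := 1) ![γ, ⊤]) k := by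
  induction k with
  | zero => rfl
  | succ k ih => rw [rightIter, ih, rightIter]

theorem left_of_good {θ : Con (WithOne S)} (h : Good θ) :
    ∀ γ : Con S, (∀ x y : S, γ x y → θ (x : WithOne S) (y : WithOne S)) →
      ∃ N, leftIter γ N = ⊥ := by
  induction h with
  | base θ h =>
    intro γ hγ
    refine ⟨0, ?_⟩
    rw [eq_bot_iff]
    intro x y hxy
    exact h x y (hγ x y hxy)
  | step θ θ' h1 h2 h ih =>
    intro γ hγ
    have hc : comm (m := 1) ![⊤, γ] ≤ restr θ' :=
      comm_le (centralizes_of_TC (fun _ _ _ => trivial) hγ h1)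
    obtain ⟨N, hN⟩ := ih _ (fun x y hxy => hc hxy)
    exact ⟨N + 1, by rw [leftIter_succ]; exact hN⟩
  | mono θ θ' h h' ih =>
    intro γ hγ
    exact ih γ (fun x y hxy => h _ _ (hγ x y hxy))

theorem right_of_good {θ : Con (WithOne S)} (h : Good θ) :
    ∀ γ : Con S, (∀ x y : S, γ x y → θ (x : WithOne S) (y : WithOne S)) →
      ∃ N, rightIter γ N = ⊥ := by
  induction h with
  | base θ h =>
    intro γ hγ
    refine ⟨0, ?_⟩
    rw [eq_bot_iff]
    intro x y hxy
    exact h x y (hγ x y hxy)
  | step θ θ' h1 h2 h ih =>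
    intro γ hγ
    have hc : comm (m := 1) ![γ, ⊤] ≤ restr θ' :=
      comm_le (centralizes_of_TC hγ (fun _ _ _ => trivial) h2)
    obtain ⟨N, hN⟩ := ih _ (fun x y hxy => hc hxy)
    exact ⟨N + 1, by rw [rightIter_succ]; exact hN⟩
  | mono θ θ' h h' ih =>
    intro γ hγ
    exact ih γ (fun x y hxy => h _ _ (hγ x y hxy))

lemma leftIter_top (k : ℕ) : leftIter (⊤ : Con S) k = leftSeries S k := by
  induction k with
  | zero => rfl
  | succ k ih => rw [leftIter, ih, leftSeries]

lemma rightIter_top (k : ℕ) : rightIter (⊤ : Con S) k = rightSeries S k := by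
  induction k with
  | zero => rfl
  | succ k ih => rw [rightIter, ih, rightSeries]

theorem nilpotent_of_good (h : Good (⊤ : Con (WithOne S))) : LeftNilpotent S ∧ RightNilpotent S := by
  obtain ⟨N, hN⟩ := left_of_good h ⊤ (fun _ _ _ => trivial)
  obtain ⟨N', hN'⟩ := right_of_good h ⊤ (fun _ _ _ => trivial)
  exact ⟨⟨N, by rw [← leftIter_top]; exact hN⟩, ⟨N', by rw [← rightIter_top]; exact hN'⟩⟩

/-- Part (A): the statement about monoids with the bounded condition. -/
def PartA (d n : ℕ) : Prop := ∀ (M : Type u) [Monoid M], SN d n M → OreL M ∧ OreR M ∧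
  ∃ (G : Type u) (_ : Group G) (ι : M →* G), Function.Injective ι ∧
    Subgroup.upperCentralSeries G d = ⊤

theorem assemble (hA : ∀ d : ℕ, ∃ n : ℕ, 0 < n ∧ PartA.{u} d n) (h : Supernilpotent S) :
    LeftNilpotent S ∧ RightNilpotent S := by
  obtain ⟨d, hd⟩ := h
  have hS := SNS_of_isSupernilpotent hd
  obtain ⟨n, hn, hPA⟩ := hA d
  have hloc : ∀ e : S, (e : WithOne S) ∈ P S n → SN d n (Loc e) := fun e he =>
    SN_loc' hn hS e he
  have hL : CancL S (d + n) := cancL_of_ore hn hS fun e he => (hPA _ (hloc e he)).1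
  have hR : CancR S (d + n) := cancR_of_ore hn hS fun e he => (hPA _ (hloc e he)).2.1
  by_cases hne : Nonempty S
  · obtain ⟨s⟩ := hne
    have hmem : wprod (List.replicate (d + n) s) ∈ P S (d + n) :=
      ⟨_, by rw [List.length_replicate], rfl⟩
    obtain ⟨e, he⟩ := exists_coe_of_mem_P (by omega) hmem
    have heK : (e : WithOne S) ∈ P S (d + n) := by rw [he]; exact hmem
    have hen : (e : WithOne S) ∈ P S n := P_anti (by omega) heK
    obtain ⟨hOL, hOR, G, hG, ι, hι, hGd⟩ := hPA _ (hloc e hen)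
    exact nilpotent_of_good (good_top ι (by omega) hL hR heK hOL hOR hι hGd)
  · have hemp : IsEmpty S := not_nonempty_iff.mp hne
    have hbot : (⊤ : Con S) = ⊥ := by
      rw [eq_bot_iff]
      intro x
      exact (hemp.false x).elim
    exact ⟨⟨0, hbot⟩, ⟨0, hbot⟩⟩

end

end Pool.Agent.Lib.MP_d3d931_al
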