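import Mathlib
import Pool.Agent.Lib.MP_d3d931_al.Cube

set_option autoImplicit false

namespace Pool.Agent.Lib.MP_d3d931_al

/-- number of factors sufficient for part (A) -/
def Nd (d : ℕ) : ℕ := 4 ^ (d + 1)

section cancel

variable {M : Type*} [Monoid M] {d n : ℕ}

lemma val_nil (ε : Fin d → Bool) (s : Bool) : val ([] : List (Fac d M)) ε s = 1 := rfl

lemma val_cons (f : Fac d M) (l : List (Fac d M)) (ε : Fin d → Bool) (s : Bool) :
    val (f :: l) ε s = fval ε s f * val l ε s := by
  simp [val]

lemma val_append (l l' : List (Fac d M)) (ε : Fin d → Bool) (s : Bool) :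
    val (l ++ l') ε s = val l ε s * val l' ε s := by
  simp [val]

lemma val_powers (a : M) (L : List (Fin d)) (ε : Fin d → Bool) (s : Bool) :
    val (L.map fun i => ((some i, a, 1) : Fac d M)) ε s = a ^ (L.countP fun i => !ε i) := by
  induction L with
  | nil => simp [val]
  | cons i L ih =>
    rw [List.map_cons, val_cons, ih]
    cases h : ε i
    · rw [List.countP_cons_of_pos (by simp [h]), pow_succ']
      simp [fval, ev, h]
    · rw [List.countP_cons_of_neg (by simp [h])]
      simp [fval, ev, h]

lemma countP_top (L : List (Fin d)) : (L.countP fun i => !(top d) i) = 0 := by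
  rw [List.countP_eq_zero]
  intro i _
  simp [top]

lemma countP_pos {ε : Fin d → Bool} (h : ε ≠ top d) :
    ∃ k, ((List.finRange d).countP fun i => !ε i) = k + 1 := by
  apply Nat.exists_eq_succ_of_ne_zero
  intro h0
  apply h
  rw [List.countP_eq_zero] at h0
  funext i
  have := h0 i (List.mem_finRange i)
  simpa [top] using this

theorem SN.left_cancel (hn : d + 1 ≤ n) (h : SN d n M) (a b c : M) (hab : a * b = a * c) :
    b = c := by
  have key := h ((List.finRange d).map (fun i => ((some i, a, 1) : Fac d M)) ++ [(none, b, c)])
    (by simpa using hn) (by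
      intro ε hε
      obtain ⟨k, hk⟩ := countP_pos hε
      rw [val_append, val_append, val_powers, val_powers, hk]
      simp only [val_cons, val_nil, fval, ev, Option.elim, mul_one, Bool.false_eq_true, if_false,
        if_true]
      rw [pow_succ, mul_assoc, mul_assoc, hab])
  rw [val_append, val_append, val_powers, val_powers, countP_top] at key
  simpa [val_cons, val_nil, fval, ev] using key

theorem SN.right_cancel (hn : d + 1 ≤ n) (h : SN d n M) (a b c : M) (hab : b * a = c * a) :
    b = c := by
  have key := h ((none, b, c) :: (List.finRange d).map (fun i => ((some i, a, 1) : Fac d M)))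
    (by simpa using hn) (by
      intro ε hε
      obtain ⟨k, hk⟩ := countP_pos hε
      rw [val_cons, val_cons, val_powers, val_powers, hk]
      simp only [fval, ev, Option.elim, Bool.false_eq_true, if_false, if_true]
      rw [pow_succ', ← mul_assoc, ← mul_assoc, hab])
  rw [val_cons, val_cons, val_powers, val_powers, countP_top] at key
  simpa [fval, ev] using key

end cancel

/-! ### Thue-Morse cubes -/

/-- skeleton of a product cube: slots (coordinate, polarity, letter) -/
abbrev Sk := List (ℕ × Bool × Bool)

/-- the letter of the slot is present at the vertex `v` -/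
def act (v : ℕ → Bool) (x : ℕ × Bool × Bool) : Bool := v x.1 == x.2.1

/-- the letters of a slot at `v` -/
def sword (v : ℕ → Bool) (x : ℕ × Bool × Bool) : List Bool :=
  if act v x = true then [x.2.2] else []

/-- the word at the vertex `v` -/
def word (sk : Sk) (v : ℕ → Bool) : List Bool := sk.flatMap (sword v)

/-- slot substitution -/
def nextSlot (k : ℕ) (x : ℕ × Bool × Bool) : Sk :=
  if x.2.2 = true then
    [(k, false, false), (x.1, x.2.1, true), (x.1, x.2.1, false), (k, false, true)]
  else [(x.1, x.2.1, false), (x.1, x.2.1, true)]

/-- next skeleton -/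
def nextSk (k : ℕ) (sk : Sk) : Sk := sk.flatMap (nextSlot k)

/-- the Thue-Morse skeletons -/
def tm : ℕ → Sk
  | 0 => [(0, false, false), (0, true, true)]
  | k + 1 => nextSk (k + 1) (tm k)

/-- the Thue-Morse substitution -/
def phiL (l : Bool) : List Bool := [l, !l]

/-- powers of the word `a b` -/
def rep (m : ℕ) : List Bool := (List.replicate m [false, true]).flatten

lemma rep_add (m m' : ℕ) : rep (m + m') = rep m ++ rep m' := by
  unfold rep
  rw [List.replicate_add, List.flatten_append]

lemma length_rep (m : ℕ) : (rep m).length = 2 * m := by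
  induction m with
  | zero => rfl
  | succ m ih =>
    rw [rep_add, List.length_append, ih]
    simp [rep]
    ring

lemma word_cons (x : ℕ × Bool × Bool) (sk : Sk) (v : ℕ → Bool) :
    word (x :: sk) v = sword v x ++ word sk v := by simp [word]

lemma word_append (sk sk' : Sk) (v : ℕ → Bool) :
    word (sk ++ sk') v = word sk v ++ word sk' v := by simp [word]

lemma nextSk_cons (k : ℕ) (x : ℕ × Bool × Bool) (sk : Sk) :
    nextSk k (x :: sk) = nextSlot k x ++ nextSk k sk := by simp [nextSk]

lemma word_nextSlot_true (k : ℕ) (x : ℕ × Bool × Bool) (v : ℕ → Bool) (hv : v k = true) :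
    word (nextSlot k x) v = (sword v x).flatMap phiL := by
  obtain ⟨i, p, l⟩ := x
  have hk : (v k == false) = false := by rw [hv]; rfl
  cases l <;> by_cases h : (v i == p) = true <;>
    simp [nextSlot, word, sword, act, phiL, h, hk]

lemma word_nextSlot_false (k : ℕ) (x : ℕ × Bool × Bool) (v : ℕ → Bool) (hv : v k = false) :
    word (nextSlot k x) v =
      rep ((sword v x).length + if x.2.2 = true then 1 else 0) := by
  obtain ⟨i, p, l⟩ := x
  have hk : (v k == false) = true := by rw [hv]; rfl
  cases l <;> by_cases h : (v i == p) = true <;>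
    simp [nextSlot, word, sword, act, rep, h, hk, List.replicate]

lemma word_next_true (k : ℕ) (sk : Sk) (v : ℕ → Bool) (hv : v k = true) :
    word (nextSk k sk) v = (word sk v).flatMap phiL := by
  induction sk with
  | nil => rfl
  | cons x sk ih =>
    rw [nextSk_cons, word_append, ih, word_nextSlot_true k x v hv, word_cons,
      List.flatMap_append]

lemma word_next_false (k : ℕ) (sk : Sk) (v : ℕ → Bool) (hv : v k = false) :
    word (nextSk k sk) v =
      rep ((word sk v).length + sk.countP fun x => x.2.2) := by
  induction sk with
  | nil => rfl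
  | cons x sk ih =>
    rw [nextSk_cons, word_append, ih, word_nextSlot_false k x v hv, word_cons,
      List.length_append, List.countP_cons, ← rep_add]
    congr 1
    ring

lemma length_flatMap_phiL (l : List Bool) : (l.flatMap phiL).length = 2 * l.length := by
  induction l with
  | nil => rfl
  | cons a l ih => simp [phiL] at ih ⊢; omega

lemma flatMap_phiL_injective : Function.Injective fun l : List Bool => l.flatMap phiL := by
  intro l
  induction l with
  | nil =>
    intro l' h
    cases l' with
    | nil => rfl
    | cons b l' => simp [phiL] at h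
  | cons a l ih =>
    intro l' h
    cases l' with
    | nil => simp [phiL] at h
    | cons b l' =>
      simp only [List.flatMap_cons, phiL, List.cons_append, List.nil_append, List.cons.injEq] at h
      obtain ⟨h1, _, h2⟩ := h
      rw [h1, ih h2]

lemma tm_length_eq (k : ℕ) : ∀ v w : ℕ → Bool, (∀ j, 1 ≤ j → j ≤ k → v j = w j) →
    (word (tm k) v).length = (word (tm k) w).length := by
  induction k with
  | zero =>
    intro v w _
    cases hv : v 0 <;> cases hw : w 0 <;> simp [tm, word, sword, act, hv, hw]
  | succ k ih =>
    intro v w h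
    have h1 := ih v w fun j hj hj' => h j hj (by omega)
    have h2 := h (k + 1) (by omega) le_rfl
    cases hv : v (k + 1)
    · have hw : w (k + 1) = false := by rw [← h2, hv]
      rw [tm, word_next_false _ _ _ hv, word_next_false _ _ _ hw, h1]
    · have hw : w (k + 1) = true := by rw [← h2, hv]
      rw [tm, word_next_true _ _ _ hv, word_next_true _ _ _ hw, length_flatMap_phiL,
        length_flatMap_phiL, h1]

lemma tm_word_eq (k : ℕ) : ∀ v w : ℕ → Bool, (∀ j, 1 ≤ j → j ≤ k → v j = w j) →
    (∃ j, 1 ≤ j ∧ j ≤ k ∧ v j = false) → word (tm k) v = word (tm k) w := by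
  induction k with
  | zero =>
    rintro v w _ ⟨j, h1, h2, _⟩
    omega
  | succ k ih =>
    rintro v w h ⟨j, hj1, hj2, hj⟩
    have h2 := h (k + 1) (by omega) le_rfl
    cases hv : v (k + 1)
    · have hw : w (k + 1) = false := by rw [← h2, hv]
      rw [tm, word_next_false _ _ _ hv, word_next_false _ _ _ hw,
        tm_length_eq k v w fun j hj hj' => h j hj (by omega)]
    · have hw : w (k + 1) = true := by rw [← h2, hv]
      have hj3 : j ≤ k := by
        by_contra hcon
        have : j = k + 1 := by omega
        rw [this, hv] at hj
        exact absurd hj (by simp)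
      rw [tm, word_next_true _ _ _ hv, word_next_true _ _ _ hw,
        ih v w (fun j hj hj' => h j hj (by omega)) ⟨j, hj1, hj3, hj⟩]

lemma tm_word_ne (k : ℕ) : ∀ v w : ℕ → Bool, (∀ j, 1 ≤ j → j ≤ k → v j = true) →
    (∀ j, 1 ≤ j → j ≤ k → w j = true) → v 0 = false → w 0 = true →
    word (tm k) v ≠ word (tm k) w := by
  induction k with
  | zero =>
    intro v w _ _ hv hw
    simp [tm, word, sword, act, hv, hw]
  | succ k ih =>
    intro v w h h' hv hw heq
    rw [tm, word_next_true _ _ _ (h (k + 1) (by omega) le_rfl),
      word_next_true _ _ _ (h' (k + 1) (by omega) le_rfl)] at heq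
    exact ih v w (fun j hj hj' => h j hj (by omega)) (fun j hj hj' => h' j hj (by omega)) hv hw
      (flatMap_phiL_injective heq)

lemma nextSlot_length (k : ℕ) (x : ℕ × Bool × Bool) : (nextSlot k x).length ≤ 4 := by
  unfold nextSlot
  split_ifs <;> simp

lemma nextSk_length (k : ℕ) (sk : Sk) : (nextSk k sk).length ≤ 4 * sk.length := by
  induction sk with
  | nil => simp [nextSk]
  | cons x sk ih =>
    rw [nextSk_cons, List.length_append, List.length_cons]
    have := nextSlot_length k x
    omega

lemma tm_length (k : ℕ) : (tm k).length ≤ 2 * 4 ^ k := by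
  induction k with
  | zero => simp [tm]
  | succ k ih =>
    have := nextSk_length (k + 1) (tm k)
    rw [tm, pow_succ]
    omega

section eval

variable {M : Type*} [Monoid M]

/-- evaluate a word at two elements -/
def evalW (a b : M) (w : List Bool) : M := (w.map fun l => if l = true then b else a).prod

lemma evalW_nil (a b : M) : evalW a b [] = 1 := rfl

lemma evalW_cons (a b : M) (l : Bool) (w : List Bool) :
    evalW a b (l :: w) = (if l = true then b else a) * evalW a b w := by simp [evalW]

lemma evalW_append (a b : M) (w w' : List Bool) :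
    evalW a b (w ++ w') = evalW a b w * evalW a b w' := by simp [evalW]

variable {d n : ℕ}

/-- coordinates of a vertex -/
def cv (ε : Fin d → Bool) (s : Bool) (i : ℕ) : Bool :=
  match i with
  | 0 => s
  | j + 1 => if h : j < d then ε ⟨j, h⟩ else s

/-- direction of a coordinate -/
def dir (d : ℕ) (i : ℕ) : Option (Fin d) :=
  match i with
  | 0 => none
  | j + 1 => if h : j < d then some ⟨j, h⟩ else none

lemma ev_dir (ε : Fin d → Bool) (s : Bool) (i : ℕ) : ev ε s (dir d i) = cv ε s i := by
  cases i with
  | zero => rfl
  | succ j =>
    unfold dir cv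
    by_cases h : j < d
    · simp [h, ev]
    · simp [h, ev]

/-- factor of a slot -/
def toFac (d : ℕ) (a b : M) (x : ℕ × Bool × Bool) : Fac d M :=
  (dir d x.1, if x.2.1 = true then 1 else (if x.2.2 = true then b else a),
    if x.2.1 = true then (if x.2.2 = true then b else a) else 1)

lemma fval_toFac (a b : M) (x : ℕ × Bool × Bool) (ε : Fin d → Bool) (s : Bool) :
    fval ε s (toFac d a b x) = evalW a b (sword (cv ε s) x) := by
  obtain ⟨i, p, l⟩ := x
  unfold fval toFac sword act
  simp only [ev_dir]
  cases hc : cv ε s i <;> cases p <;> simp [evalW_nil, evalW_cons]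

lemma val_toFac (a b : M) (sk : Sk) (ε : Fin d → Bool) (s : Bool) :
    val (sk.map (toFac d a b)) ε s = evalW a b (word sk (cv ε s)) := by
  induction sk with
  | nil => rfl
  | cons x sk ih =>
    rw [List.map_cons, val_cons, ih, fval_toFac, word_cons, evalW_append]

lemma cv_top (s : Bool) (j : ℕ) (h1 : 1 ≤ j) (h2 : j ≤ d) : cv (top d) s j = true := by
  cases j with
  | zero => omega
  | succ j =>
    have : j < d := by omega
    simp [cv, this, top]

lemma cv_eq (ε : Fin d → Bool) (s s' : Bool) (j : ℕ) (h1 : 1 ≤ j) (h2 : j ≤ d) :
    cv ε s j = cv ε s' j := by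
  cases j with
  | zero => omega
  | succ j =>
    have : j < d := by omega
    simp [cv, this]

/-- The Thue-Morse identity. -/
theorem SN.thue (hn : Nd d ≤ n) (h : SN d n M) (a b : M) :
    evalW a b (word (tm d) (cv (top d) false)) = evalW a b (word (tm d) (cv (top d) true)) := by
  rw [← val_toFac, ← val_toFac]
  apply h
  · rw [List.length_map]
    have h1 := tm_length d
    have h2 : 2 * 4 ^ d ≤ Nd d := by
      unfold Nd
      rw [pow_succ]
      omega
    omega
  · intro ε hε
    rw [val_toFac, val_toFac]
    congr 1
    apply tm_word_eq d _ _ (fun j h1 h2 => cv_eq ε _ _ j h1 h2)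
    by_contra hcon
    push Not at hcon
    apply hε
    funext i
    have h1 := hcon (i.1 + 1) (by omega) (by omega)
    simpa [cv, top] using h1

lemma ore_of_words (hc : ∀ a b c : M, a * b = a * c → b = c) (a b : M) (u v : List Bool)
    (hl : u.length = v.length) (hne : u ≠ v) (he : evalW a b u = evalW a b v) :
    ∃ c c' : M, a * c = b * c' := by
  induction u generalizing v with
  | nil =>
    cases v with
    | nil => exact absurd rfl hne
    | cons y v => simp at hl
  | cons x u ih =>
    cases v with
    | nil => simp at hl
    | cons y v =>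
      rw [evalW_cons, evalW_cons] at he
      by_cases hxy : x = y
      · subst hxy
        refine ih v (by simpa using hl) (fun h => hne (by rw [h])) (hc _ _ _ he)
      · cases x <;> cases y
        · exact absurd rfl hxy
        · exact ⟨_, _, by simpa using he⟩
        · exact ⟨_, _, by simpa using he.symm⟩
        · exact absurd rfl hxy

lemma ore_of_words_left (hc : ∀ a b c : M, b * a = c * a → b = c) (a b : M) (u v : List Bool)
    (hl : u.length = v.length) (hne : u ≠ v) (he : evalW a b u.reverse = evalW a b v.reverse) :
    ∃ c c' : M, c * a = c' * b := by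
  induction u generalizing v with
  | nil =>
    cases v with
    | nil => exact absurd rfl hne
    | cons y v => simp at hl
  | cons x u ih =>
    cases v with
    | nil => simp at hl
    | cons y v =>
      rw [List.reverse_cons, List.reverse_cons, evalW_append, evalW_append] at he
      by_cases hxy : x = y
      · subst hxy
        refine ih v (by simpa using hl) (fun h => hne (by rw [h])) (hc _ _ _ he)
      · cases x <;> cases y
        · exact absurd rfl hxy
        · exact ⟨_, _, by simpa [evalW_cons, evalW_nil] using he⟩
        · exact ⟨_, _, by simpa [evalW_cons, evalW_nil] using he.symm⟩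
        · exact absurd rfl hxy

lemma Nd_ge (d : ℕ) : d + 1 ≤ Nd d := by
  unfold Nd
  have h : d + 1 < 4 ^ (d + 1) := Nat.lt_pow_self (by norm_num)
  omega

theorem SN.ore_right (hn : Nd d ≤ n) (h : SN d n M) (a b : M) : ∃ c c' : M, a * c = b * c' := by
  refine ore_of_words (SN.left_cancel (le_trans (Nd_ge d) hn) h) a b _ _ ?_ ?_ (h.thue hn a b)
  · exact tm_length_eq d _ _ fun j h1 h2 => cv_eq _ _ _ j h1 h2
  · exact tm_word_ne d _ _ (cv_top _) (cv_top _) rfl rfl

theorem SN.ore_left (hn : Nd d ≤ n) (h : SN d n M) (a b : M) : ∃ c c' : M, c * a = c' * b := by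
  have h1 := h.thue hn a b
  refine ore_of_words_left (SN.right_cancel (le_trans (Nd_ge d) hn) h) a b
    (word (tm d) (cv (top d) false)).reverse (word (tm d) (cv (top d) true)).reverse ?_ ?_ ?_
  · rw [List.length_reverse, List.length_reverse]
    exact tm_length_eq d _ _ fun j h1 h2 => cv_eq _ _ _ j h1 h2
  · intro h2
    exact tm_word_ne d _ _ (cv_top _) (cv_top _) rfl rfl (List.reverse_injective h2)
  · rw [List.reverse_reverse, List.reverse_reverse, h1]

end eval

end Pool.Agent.Lib.MP_d3d931_al
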