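import Mathlib
import Pool.Agent.Lib.MP_d3d931_al.PartA

set_option autoImplicit false

namespace Pool.Agent.Lib.MP_d3d931_al

universe u

open scoped commutatorElement

section frac

variable {M : Type u} [Monoid M]

/-- data for the Ore localization at the whole monoid -/
@[instance_reducible] noncomputable def oreTop (hc : ∀ a b c : M, b * a = c * a → b = c)
    (ho : ∀ a b : M, ∃ c c' : M, c * a = c' * b) :
    OreLocalization.OreSet (⊤ : Submonoid M) where
  ore_right_cancel r₁ r₂ s h := ⟨1, by rw [hc _ _ _ h]⟩
  oreNum r s := Classical.choose (Classical.choose_spec (ho r s))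
  oreDenom r s := ⟨Classical.choose (ho r s), trivial⟩
  ore_eq r s := Classical.choose_spec (Classical.choose_spec (ho r s))

theorem exists_left_frac (hc : ∀ a b c : M, b * a = c * a → b = c)
    (hc' : ∀ a b c : M, a * b = a * c → b = c)
    (ho : ∀ a b : M, ∃ c c' : M, c * a = c' * b) :
    ∃ (G : Type u) (_ : Group G) (ι : M →* G), Function.Injective ι ∧
      ∀ g : G, ∃ a b : M, g = (ι a)⁻¹ * ι b := by
  letI hO : OreLocalization.OreSet (⊤ : Submonoid M) := oreTop hc ho
  have hmul : ∀ (r : M) (s : (⊤ : Submonoid M)),
      OreLocalization.oreDiv (1 : M) s * OreLocalization.oreDiv r (1 : (⊤ : Submonoid M)) =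
        OreLocalization.oreDiv r s := by
    intro r s
    rw [OreLocalization.mul_div_one, one_mul]
  have hunit : ∀ g : OreLocalization (⊤ : Submonoid M) M, IsUnit g := by
    intro g
    induction g using OreLocalization.ind with
    | _ r s =>
      rw [← hmul]
      refine IsUnit.mul ?_ ?_
      · exact ⟨(OreLocalization.numeratorUnit s)⁻¹, rfl⟩
      · exact ⟨OreLocalization.numeratorUnit ⟨r, trivial⟩, rfl⟩
  let hG : Group (OreLocalization (⊤ : Submonoid M) M) := groupOfIsUnit hunit
  refine ⟨OreLocalization (⊤ : Submonoid M) M, hG, OreLocalization.numeratorHom, ?_, ?_⟩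
  · intro a b hab
    have h1 : OreLocalization.oreDiv a (1 : (⊤ : Submonoid M)) =
        OreLocalization.oreDiv b (1 : (⊤ : Submonoid M)) := hab
    rw [OreLocalization.oreDiv_eq_iff] at h1
    obtain ⟨u, v, h2, h3⟩ := h1
    have h4 : (u : M) = v := by simpa using h3
    have h5 : (u : M) * b = v * a := h2
    rw [← h4] at h5
    exact (hc' _ _ _ h5).symm
  · intro g
    induction g using OreLocalization.ind with
    | _ r s =>
      refine ⟨s.1, r, ?_⟩
      rw [eq_inv_mul_iff_mul_eq]
      have h1 : OreLocalization.oreDiv (s : M) (1 : (⊤ : Submonoid M)) *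
          OreLocalization.oreDiv r s = OreLocalization.oreDiv r (1 : (⊤ : Submonoid M)) :=
        OreLocalization.mul_cancel
      exact h1

end frac

section transfer

variable {M : Type u} [Monoid M] {G : Type u} [Group G] {d n : ℕ}

lemma common_den (ι : M →* G) (hf : ∀ g : G, ∃ a b : M, g = (ι a)⁻¹ * ι b)
    (ho : ∀ a b : M, ∃ c c' : M, c * a = c' * b) (g h : G) :
    ∃ s r t : M, ι s * g = ι r ∧ ι s * h = ι t := by
  obtain ⟨a, b, hg⟩ := hf g
  obtain ⟨a', b', hh⟩ := hf h
  obtain ⟨c, c', hc⟩ := ho a a'
  refine ⟨c * a, c * b, c' * b', ?_, ?_⟩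
  · rw [hg]; simp [mul_assoc]
  · rw [hc, hh]; simp [mul_assoc]

lemma transfer_aux (ι : M →* G) (hf : ∀ g : G, ∃ a b : M, g = (ι a)⁻¹ * ι b)
    (ho : ∀ a b : M, ∃ c c' : M, c * a = c' * b) (l : List (Fac d G)) :
    ∃ (q : M) (l' : List (Fac d M)), l'.length = l.length ∧
      ∀ ε s, ι q * val l ε s = ι (val l' ε s) := by
  induction l with
  | nil => exact ⟨1, [], rfl, fun ε s => by simp [val_nil]⟩
  | cons f l ih =>
    obtain ⟨q, l', hl', hq⟩ := ih
    obtain ⟨i, g, h⟩ := f
    obtain ⟨s, r, t, h1, h2⟩ := common_den ι hf ho (g * (ι q)⁻¹) (h * (ι q)⁻¹)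
    refine ⟨s, (i, r, t) :: l', by simp [hl'], fun ε b => ?_⟩
    rw [val_cons, val_cons, map_mul, ← hq]
    have h3 : ι s * fval ε b ((i, g, h) : Fac d G) * (ι q)⁻¹ =
        ι (fval ε b ((i, r, t) : Fac d M)) := by
      unfold fval
      split_ifs
      · rw [← h2]; group
      · rw [← h1]; group
    rw [← h3]
    group

theorem SN.transfer (h : SN d n M) (ι : M →* G) (hι : Function.Injective ι)
    (hf : ∀ g : G, ∃ a b : M, g = (ι a)⁻¹ * ι b)
    (ho : ∀ a b : M, ∃ c c' : M, c * a = c' * b) : SN d n G := by
  intro l hl hε
  obtain ⟨q, l', hl', hq⟩ := transfer_aux ι hf ho l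
  have key := h l' (by omega) (fun ε hne => hι (by rw [← hq, ← hq, hε ε hne]))
  have h2 : ι q * val l (top d) false = ι q * val l (top d) true := by rw [hq, hq, key]
  exact mul_left_cancel h2

/-- left-normed commutators -/
def lc : G → List G → G
  | x, [] => x
  | x, y :: ys => lc ⁅x, y⁆ ys

lemma lc_one (ys : List G) : lc 1 ys = 1 := by
  induction ys with
  | nil => rfl
  | cons y ys ih => rw [lc, commutatorElement_one_left, ih]

lemma lc_eq_one (x : G) (ys : List G) (h : (1 : G) ∈ ys) : lc x ys = 1 := by
  induction ys generalizing x with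
  | nil => simp at h
  | cons y ys ih =>
    rw [lc]
    rcases List.mem_cons.mp h with h1 | h1
    · rw [← h1, commutatorElement_one_right, lc_one]
    · exact ih _ h1

/-- inverse of a factor -/
def invF (f : Fac d G) : Fac d G := (f.1, f.2.1⁻¹, f.2.2⁻¹)

lemma fval_invF (f : Fac d G) (ε : Fin d → Bool) (s : Bool) :
    fval ε s (invF f) = (fval ε s f)⁻¹ := by
  unfold fval invF
  split_ifs <;> rfl

/-- inverse cube -/
def invL (l : List (Fac d G)) : List (Fac d G) := (l.map invF).reverse

lemma val_invL (l : List (Fac d G)) (ε : Fin d → Bool) (s : Bool) :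
    val (invL l) ε s = (val l ε s)⁻¹ := by
  induction l with
  | nil => simp [invL, val_nil]
  | cons f l ih =>
    rw [invL, List.map_cons, List.reverse_cons, val_append, val_cons, val_nil, mul_one,
      fval_invF, val_cons, mul_inv_rev, ← ih]
    rfl

/-- commutator cubes -/
def cw : List (Fac d G) → List (Fac d G) → List (Fac d G)
  | w, [] => w
  | w, f :: fs => cw (w ++ [f] ++ invL w ++ [invF f]) fs

lemma val_cw (w fs : List (Fac d G)) (ε : Fin d → Bool) (s : Bool) :
    val (cw w fs) ε s = lc (val w ε s) (fs.map (fval ε s)) := by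
  induction fs generalizing w with
  | nil => rfl
  | cons f fs ih =>
    rw [cw, ih, List.map_cons, lc]
    congr 1
    rw [val_append, val_append, val_append, val_invL, val_cons, val_cons, val_nil, fval_invF,
      mul_one, mul_one, commutatorElement_def]

lemma length_cw (w fs : List (Fac d G)) :
    (cw w fs).length + 2 = 2 ^ fs.length * (w.length + 2) := by
  induction fs generalizing w with
  | nil => simp [cw]
  | cons f fs ih =>
    rw [cw, ih]
    simp only [List.length_append, invL, List.length_reverse, List.length_map, List.length_cons,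
      List.length_nil]
    rw [pow_succ]
    ring

theorem mem_ucs (k : ℕ) (x : G) (h : ∀ ys : List G, ys.length = k → lc x ys = 1) :
    x ∈ Subgroup.upperCentralSeries G k := by
  induction k generalizing x with
  | zero =>
    have := h [] rfl
    rw [lc] at this
    rw [this]
    exact one_mem _
  | succ k ih =>
    rw [Subgroup.mem_upperCentralSeries_succ_iff]
    intro y
    apply ih
    intro ys hys
    exact h (y :: ys) (by simp [hys])

/-- directions in order: `none` last -/
def dirs (d : ℕ) : List (Option (Fin d)) := (List.finRange d).map some ++ [none]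

lemma SN.lc_eq_one (hn : Nd d ≤ n) (h : SN d n G) (x : G) (ys : List G) (hys : ys.length = d) :
    lc x ys = 1 := by
  -- factors
  obtain ⟨F, hF⟩ : ∃ F : List (Fac d G), F = List.zipWith (fun i g => (i, 1, g)) (dirs d) (x :: ys) :=
    ⟨_, rfl⟩
  have hlenD : (dirs d).length = d + 1 := by simp [dirs]
  have hlenF : F.length = d + 1 := by
    rw [hF, List.length_zipWith, hlenD]
    simp [hys]
  have hval : ∀ ε s, F.map (fval ε s) =
      List.zipWith (fun i g => if ev ε s i = true then g else 1) (dirs d) (x :: ys) := by
    intro ε s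
    rw [hF, List.map_zipWith]
    rfl
  cases hFc : F with
  | nil => rw [hFc] at hlenF; simp at hlenF
  | cons f fs =>
    have hfs : fs.length = d := by
      rw [hFc] at hlenF
      simpa using hlenF
    -- value of the commutator cube
    have hcube : ∀ ε s, val (cw [f] fs) ε s = lc (fval ε s f) (fs.map (fval ε s)) := by
      intro ε s
      rw [val_cw, val_cons, val_nil, mul_one]
    -- a false coordinate kills
    have hkill : ∀ ε s, (∃ i ∈ dirs d, ev ε s i = false) → val (cw [f] fs) ε s = 1 := by
      intro ε s hex
      have h1 : (1 : G) ∈ F.map (fval ε s) := by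
        rw [hval]
        obtain ⟨i, hi, hi2⟩ := hex
        obtain ⟨k, hk, hk2⟩ := List.mem_iff_getElem.mp hi
        rw [List.mem_iff_getElem]
        have hk3 : k < (x :: ys).length := by
          simp only [List.length_cons, hys]; omega
        refine ⟨k, by rw [List.length_zipWith]; exact lt_min hk hk3, ?_⟩
        rw [List.getElem_zipWith, hk2, hi2]
        simp
      rw [hFc, List.map_cons] at h1
      rw [hcube]
      rcases List.mem_cons.mp h1 with h2 | h2
      · rw [← h2, lc_one]
      · exact Pool.Agent.Lib.MP_d3d931_al.lc_eq_one _ _ h2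
    have htop : val (cw [f] fs) (top d) true = lc x ys := by
      have h1 : F.map (fval (top d) true) = x :: ys := by
        rw [hval]
        have h2 : ∀ (D : List (Option (Fin d))) (z : List G), D.length = z.length →
            List.zipWith (fun i g => if ev (top d) true i = true then g else 1) D z = z := by
          intro D
          induction D with
          | nil =>
            intro z hz
            cases z with
            | nil => rfl
            | cons a z => simp at hz
          | cons i D ih =>
            intro z hz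
            cases z with
            | nil => simp at hz
            | cons a z =>
              rw [List.zipWith_cons_cons, ih z (by simpa using hz)]
              have : ev (top d) true i = true := by
                cases i <;> rfl
              rw [if_pos this]
        exact h2 _ _ (by rw [hlenD]; simp [hys])
      rw [hFc, List.map_cons] at h1
      rw [hcube]
      have h3 := List.cons.inj h1
      rw [h3.1, h3.2]
    have hlast : ∀ ε : Fin d → Bool, val (cw [f] fs) ε false = 1 := by
      intro ε
      apply hkill
      exact ⟨none, by simp [dirs], rfl⟩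
    have key := h (cw [f] fs) ?_ ?_
    · rw [hlast, htop] at key
      exact key.symm
    · have h1 := length_cw [f] fs
      rw [hfs] at h1
      simp only [List.length_cons, List.length_nil] at h1
      have h2 : 2 ^ d ≤ 4 ^ d := Nat.pow_le_pow_left (by norm_num) d
      have h3 : Nd d = 4 * 4 ^ d := by unfold Nd; rw [pow_succ]; ring
      omega
    · intro ε hε
      rw [hlast, hkill]
      by_contra hcon
      push Not at hcon
      apply hε
      funext i
      have h1 := hcon (some i) (by simp [dirs])
      simpa [ev, top] using h1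

theorem SN.class_le (hn : Nd d ≤ n) (h : SN d n G) : Subgroup.upperCentralSeries G d = ⊤ := by
  rw [Subgroup.eq_top_iff']
  intro x
  exact mem_ucs d x fun ys hys => SN.lc_eq_one hn h x ys hys

end transfer

/-- Part (A): structure of monoids satisfying the bounded condition. -/
theorem partA (M : Type u) [Monoid M] (d n : ℕ) (hn : Nd d ≤ n) (h : SN d n M) :
    (∀ a b c : M, a * b = a * c → b = c) ∧ (∀ a b c : M, b * a = c * a → b = c) ∧
    (∀ a b : M, ∃ c c' : M, a * c = b * c') ∧ (∀ a b : M, ∃ c c' : M, c * a = c' * b) ∧
    ∃ (G : Type u) (_ : Group G) (ι : M →* G), Function.Injective ι ∧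
      (∀ g : G, ∃ a b : M, g = (ι a)⁻¹ * ι b) ∧
      (∀ g : G, ∃ a b : M, g = ι a * (ι b)⁻¹) ∧ Subgroup.upperCentralSeries G d = ⊤ := by
  have hl := SN.left_cancel (le_trans (Nd_ge d) hn) h
  have hr := SN.right_cancel (le_trans (Nd_ge d) hn) h
  have ol := h.ore_left hn
  have or := h.ore_right hn
  obtain ⟨G, hG, ι, hι, hf⟩ := exists_left_frac hr hl ol
  refine ⟨hl, hr, or, ol, G, hG, ι, hι, hf, ?_, ?_⟩
  · intro g
    obtain ⟨a, b, hg⟩ := hf g
    obtain ⟨c, c', hc⟩ := or a b
    refine ⟨c, c', ?_⟩
    have h1 : ι a * ι c = ι b * ι c' := by rw [← map_mul, ← map_mul, hc]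
    rw [hg, inv_mul_eq_iff_eq_mul, ← mul_assoc, h1]
    group
  · exact SN.class_le hn (SN.transfer h ι hι hf ol)

end Pool.Agent.Lib.MP_d3d931_al
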