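import Pool.Agent.Lib.MP_d3d931_al.Defs

/-!
# A left and right nilpotent semigroup that is not supernilpotent
-/

namespace Pool.Agent.Lib.MP_d3d931_al

namespace Twin

/-- Number of pairs of positions `i < j` of a word with letters `a`, `b`. -/
def P (a b : ℕ) : List ℕ → ℕ
  | [] => 0
  | c :: l => (if c = a then l.count b else 0) + P a b l

theorem P_append (a b : ℕ) (l l' : List ℕ) :
    P a b (l ++ l') = P a b l + P a b l' + l.count a * l'.count b := by
  induction l with
  | nil => simp [P]
  | cons c l ih =>
    simp only [List.cons_append, P, ih, List.count_append, List.count_cons]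
    by_cases h : c = a
    · subst h
      simp only [if_true, beq_self_eq_true]
      ring
    · have h' : (c == a) = false := by simpa using h
      simp only [h', h, if_false, Bool.false_eq_true]
      ring

theorem P_le (a b : ℕ) (l : List ℕ) : P a b l ≤ l.count a * l.count b := by
  induction l with
  | nil => simp [P]
  | cons c l ih =>
    simp only [P, List.count_cons]
    have hb : l.count b ≤ l.count b + (if (c == b) = true then 1 else 0) := Nat.le_add_right _ _
    generalize l.count b + (if (c == b) = true then 1 else 0) = t at hb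
    by_cases h : c = a
    · subst h
      simp only [if_true, beq_self_eq_true]
      have := Nat.mul_le_mul_left (l.count c) hb
      linarith [add_mul (l.count c) 1 t, one_mul t]
    · simp only [h, if_false]
      have h' : (c == a) = false := by simpa using h
      simp only [h', Bool.false_eq_true, if_false, zero_add, add_zero]
      exact le_trans ih (Nat.mul_le_mul_left _ hb)

/-- Words with the same letter counts and the same ordered pair counts. -/
def Ceq (u v : List ℕ) : Prop :=
  (∀ a, u.count a = v.count a) ∧ ∀ a b, P a b u = P a b v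

theorem Ceq.refl (u : List ℕ) : Ceq u u := ⟨fun _ => rfl, fun _ _ => rfl⟩

theorem Ceq.symm {u v : List ℕ} (h : Ceq u v) : Ceq v u :=
  ⟨fun a => (h.1 a).symm, fun a b => (h.2 a b).symm⟩

theorem Ceq.trans {u v w : List ℕ} (h : Ceq u v) (h' : Ceq v w) : Ceq u w :=
  ⟨fun a => (h.1 a).trans (h'.1 a), fun a b => (h.2 a b).trans (h'.2 a b)⟩

theorem Ceq.append {u v s t : List ℕ} (h : Ceq u v) (h' : Ceq s t) : Ceq (u ++ s) (v ++ t) := by
  refine ⟨fun a => ?_, fun a b => ?_⟩
  · simp [List.count_append, h.1 a, h'.1 a]
  · simp [P_append, h.1 a, h'.1 b, h.2 a b, h'.2 a b]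

theorem Ceq.cons_cancel {c : ℕ} {u v : List ℕ} (h : Ceq (c :: u) (c :: v)) : Ceq u v := by
  have hc : ∀ a, u.count a = v.count a := by
    intro a
    have := h.1 a
    simpa [List.count_cons] using this
  refine ⟨hc, fun a b => ?_⟩
  have := h.2 a b
  simp only [P, hc b] at this
  omega

/-- Words determined by their counts, a sufficient condition. -/
def Good : List ℕ → Prop
  | [] => True
  | a :: l => (a ∉ l ∨ l.Nodup) ∧ Good l

theorem Good.of_nodup {l : List ℕ} (h : l.Nodup) : Good l := by
  induction l with
  | nil => trivial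
  | cons a l ih =>
    rw [List.nodup_cons] at h
    exact ⟨Or.inl h.1, ih h.2⟩

theorem Good.sublist {l l' : List ℕ} (h : l.Sublist l') (hg : Good l') : Good l := by
  induction h with
  | slnil => trivial
  | cons a h ih => exact ih hg.2
  | cons_cons a h ih =>
    refine ⟨?_, ih hg.2⟩
    rcases hg.1 with h1 | h1
    · exact Or.inl fun hm => h1 (h.subset hm)
    · exact Or.inr (h1.sublist h)

theorem Good.uniq {u v : List ℕ} (hg : Good u) (h : Ceq u v) : u = v := by
  induction u generalizing v with
  | nil =>
    cases v with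
    | nil => rfl
    | cons c w =>
      have := h.1 c
      simp at this
  | cons a u ih =>
    cases v with
    | nil =>
      have := h.1 a
      simp at this
    | cons c w =>
      by_cases hca : c = a
      · subst hca
        rw [ih hg.2 h.cons_cancel]
      · exfalso
        have h1 := h.2 c a
        have h2 := h.1 a
        have h3 := h.1 c
        have hac : a ≠ c := fun h => hca h.symm
        simp only [P, if_true, if_neg hac] at h1
        simp only [List.count_cons, beq_self_eq_true, if_true] at h2
        have h4 : (c == a) = false := by simpa using hca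
        simp only [h4] at h2
        have h5 : P c a u ≤ u.count c * u.count a := P_le c a u
        have h6 : P c a u ≤ u.count a := by
          rcases hg.1 with h7 | h7
          · have h8 : u.count a = 0 := List.count_eq_zero.mpr h7
            rw [h8] at h5 ⊢
            simpa using h5
          · have h8 : u.count c ≤ 1 := List.nodup_iff_count_le_one.mp h7 c
            nlinarith
        simp at h2
        omega

/-- The letters `z_0, …, z_{m-1}`. -/
def zs (m : ℕ) : List ℕ := (List.range m).map (· + 2)

theorem zs_nodup (m : ℕ) : (zs m).Nodup :=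
  List.Nodup.map (fun a b h => by simpa using h) (List.nodup_range)

theorem mem_zs {m a : ℕ} (h : a ∈ zs m) : 2 ≤ a := by
  simp only [zs, List.mem_map, List.mem_range] at h
  obtain ⟨b, _, rfl⟩ := h
  omega

/-- The special words `x y z_0 … z_{m-1} y x`. -/
def W (m : ℕ) : List ℕ := [0, 1] ++ zs m ++ [1, 0]

/-- Being a special word. -/
def Sp (u : List ℕ) : Prop := ∃ m, u = W m

theorem good_left (m : ℕ) : Good ([0, 1] ++ zs m ++ [1]) := by
  have h0 : 0 ∉ zs m := fun h => by have := mem_zs h; omega
  have h1 : 1 ∉ zs m := fun h => by have := mem_zs h; omega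
  have hn : (zs m ++ [1]).Nodup := by
    rw [List.nodup_append]
    refine ⟨zs_nodup m, by simp, ?_⟩
    intro a ha b hb
    simp only [List.mem_singleton] at hb
    subst hb
    rintro rfl
    exact h1 ha
  refine ⟨Or.inl ?_, Or.inr hn, Good.of_nodup hn⟩
  simp [h0]

theorem good_right (m : ℕ) : Good (1 :: (zs m ++ [1, 0])) := by
  have h0 : 0 ∉ zs m := fun h => by have := mem_zs h; omega
  have h1 : 1 ∉ zs m := fun h => by have := mem_zs h; omega
  have hn : (zs m ++ [1, 0]).Nodup := by
    rw [List.nodup_append]
    refine ⟨zs_nodup m, by simp, ?_⟩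
    intro a ha b hb
    simp only [List.mem_cons, List.not_mem_nil, or_false] at hb
    rcases hb with rfl | rfl
    · rintro rfl; exact h1 ha
    · rintro rfl; exact h0 ha
  exact ⟨Or.inr hn, Good.of_nodup hn⟩

theorem eq_of_append_left {u v s : List ℕ} (hs : s ≠ []) (hsp : Sp (u ++ s)) (h : Ceq u v) :
    u = v := by
  obtain ⟨m, hm⟩ := hsp
  refine Good.uniq (Good.sublist ?_ (good_left m)) h
  obtain ⟨s', c, rfl⟩ : ∃ s' c, s = s' ++ [c] :=
    ⟨s.dropLast, s.getLast hs, (List.dropLast_append_getLast hs).symm⟩
  have h1 : (u ++ s') ++ [c] = ([0, 1] ++ zs m ++ [1]) ++ [0] := by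
    simpa [W] using hm
  have h2 := List.append_inj_left' h1 rfl
  rw [← h2]
  exact List.sublist_append_left _ _

theorem eq_of_append_right {u v s : List ℕ} (hs : s ≠ []) (hsp : Sp (s ++ u)) (h : Ceq u v) :
    u = v := by
  obtain ⟨m, hm⟩ := hsp
  refine Good.uniq (Good.sublist ?_ (good_right m)) h
  cases s with
  | nil => exact absurd rfl hs
  | cons c s' =>
    have h1 : c :: (s' ++ u) = 0 :: (1 :: (zs m ++ [1, 0])) := by
      simpa [W] using hm
    have h2 := (List.cons.inj h1).2
    rw [← h2]
    exact List.sublist_append_right _ _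

/-- The relation on words. -/
def R (u v : List ℕ) : Prop := u = v ∨ (Ceq u v ∧ ¬ Sp u ∧ ¬ Sp v)

theorem R.ceq {u v : List ℕ} (h : R u v) : Ceq u v := by
  rcases h with rfl | h
  · exact Ceq.refl _
  · exact h.1

/-- Words with the same counts become related after multiplication by a nonempty word. -/
theorem R.of_ceq_left {u v s : List ℕ} (hs : s ≠ []) (h : Ceq u v) : R (u ++ s) (v ++ s) := by
  by_cases h1 : Sp (u ++ s)
  · left; rw [eq_of_append_left hs h1 h]
  · by_cases h2 : Sp (v ++ s)
    · left; rw [eq_of_append_left hs h2 h.symm]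
    · exact Or.inr ⟨h.append (Ceq.refl _), h1, h2⟩

theorem R.of_ceq_right {u v s : List ℕ} (hs : s ≠ []) (h : Ceq u v) : R (s ++ u) (s ++ v) := by
  by_cases h1 : Sp (s ++ u)
  · left; rw [eq_of_append_right hs h1 h]
  · by_cases h2 : Sp (s ++ v)
    · left; rw [eq_of_append_right hs h2 h.symm]
    · exact Or.inr ⟨(Ceq.refl _).append h, h1, h2⟩

theorem R.trans {u v w : List ℕ} (h : R u v) (h' : R v w) : R u w := by
  rcases h with rfl | h
  · exact h'
  · rcases h' with rfl | h'
    · exact Or.inr h
    · exact Or.inr ⟨h.1.trans h'.1, h.2.1, h'.2.2⟩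

theorem R.symm {u v : List ℕ} (h : R u v) : R v u := by
  rcases h with rfl | h
  · exact Or.inl rfl
  · exact Or.inr ⟨h.1.symm, h.2.2, h.2.1⟩

/-- The free semigroup on `ℕ`, as nonempty words. -/
def Wd : Type := {l : List ℕ // l ≠ []}

instance : Mul Wd := ⟨fun u v => ⟨u.1 ++ v.1, by
  intro h
  exact u.2 (List.append_eq_nil_iff.mp h).1⟩⟩

theorem Wd.mul_val (u v : Wd) : (u * v).1 = u.1 ++ v.1 := rfl

instance : Semigroup Wd where
  mul_assoc u v w := Subtype.ext (by simp [Wd.mul_val])

/-- The congruence `R` on nonempty words. -/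
def cong : Con Wd where
  r u v := R u.1 v.1
  iseqv := ⟨fun _ => Or.inl rfl, R.symm, R.trans⟩
  mul' := by
    intro u v s t h h'
    change R (u.1 ++ s.1) (v.1 ++ t.1)
    exact (R.of_ceq_left s.2 h.ceq).trans (R.of_ceq_right v.2 h'.ceq)

/-- The semigroup. -/
abbrev T : Type := cong.Quotient

/-- Letter counts on `T`. -/
def cnt (a : ℕ) (x : T) : ℕ :=
  Con.liftOn x (fun w => w.1.count a) fun _ _ h => (R.ceq h).1 a

/-- Pair counts on `T`. -/
def PT (a b : ℕ) (x : T) : ℕ :=
  Con.liftOn x (fun w => P a b w.1) fun _ _ h => (R.ceq h).2 a b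

theorem cnt_mul (a : ℕ) (x y : T) : cnt a (x * y) = cnt a x + cnt a y := by
  induction x, y using Con.induction_on₂ with
  | _ u v => exact List.count_append

theorem PT_mul (a b : ℕ) (x y : T) :
    PT a b (x * y) = PT a b x + PT a b y + cnt a x * cnt b y := by
  induction x, y using Con.induction_on₂ with
  | _ u v => exact P_append a b u.1 v.1

/-- Equal letter counts. -/
def K1 : Con T where
  r x y := ∀ a, cnt a x = cnt a y
  iseqv := ⟨fun _ _ => rfl, fun h a => (h a).symm, fun h h' a => (h a).trans (h' a)⟩
  mul' := by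
    intro u v s t h h' a
    rw [cnt_mul, cnt_mul, h a, h' a]

/-- Equal letter counts and pair counts. -/
def K2 : Con T where
  r x y := (∀ a, cnt a x = cnt a y) ∧ ∀ a b, PT a b x = PT a b y
  iseqv := ⟨fun _ => ⟨fun _ => rfl, fun _ _ => rfl⟩,
    fun h => ⟨fun a => (h.1 a).symm, fun a b => (h.2 a b).symm⟩,
    fun h h' => ⟨fun a => (h.1 a).trans (h'.1 a), fun a b => (h.2 a b).trans (h'.2 a b)⟩⟩
  mul' := by
    intro u v s t h h'
    refine ⟨fun a => ?_, fun a b => ?_⟩
    · rw [cnt_mul, cnt_mul, h.1 a, h'.1 a]
    · rw [PT_mul, PT_mul, h.2 a b, h'.2 a b, h.1 a, h'.1 b]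

theorem K2_mul_right {x y : T} (h : K2 x y) (z : T) : x * z = y * z := by
  induction x, y using Con.induction_on₂ with
  | _ u v =>
    induction z using Con.induction_on with
    | _ s =>
      exact (Con.eq cong).mpr (R.of_ceq_left s.2 ⟨h.1, h.2⟩)

theorem K2_mul_left {x y : T} (h : K2 x y) (z : T) : z * x = z * y := by
  induction x, y using Con.induction_on₂ with
  | _ u v =>
    induction z using Con.induction_on with
    | _ s =>
      exact (Con.eq cong).mpr (R.of_ceq_right s.2 ⟨h.1, h.2⟩)

theorem cent1 : Centralizes (m := 1) ![(⊤ : Con T), ⊤] K1 := by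
  refine centralizes_two
    (fun x => ∀ a, cnt a (x false false) + cnt a (x true true) =
      cnt a (x false true) + cnt a (x true false)) ?_ ?_ ?_ ?_
  · intro a b _ c; simp
  · intro a b _ c; simp [add_comm]
  · intro x y hx hy c
    simp only [cnt_mul]
    have := hx c
    have := hy c
    omega
  · intro x hx h a
    have h1 := hx a
    have h2 := h a
    omega

theorem cent2 : Centralizes (m := 1) ![K1, (⊤ : Con T)] K2 := by
  refine centralizes_two
    (fun x => (∀ a, cnt a (x false false) + cnt a (x true true) =
      cnt a (x false true) + cnt a (x true false)) ∧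
      (∀ a η, cnt a (x false η) = cnt a (x true η)) ∧
      ∀ a b, PT a b (x false false) + PT a b (x true true) =
      PT a b (x false true) + PT a b (x true false)) ?_ ?_ ?_ ?_
  · intro a b hab
    refine ⟨fun c => by simp, fun c η => ?_, fun c d => by simp⟩
    simpa using hab c
  · intro a b _
    exact ⟨fun c => by simp [add_comm], fun c η => by simp, fun c d => by simp [add_comm]⟩
  · rintro x y ⟨hx1, hx2, hx3⟩ ⟨hy1, hy2, hy3⟩
    refine ⟨fun c => ?_, fun c η => ?_, fun c d => ?_⟩
    · simp only [cnt_mul]
      have := hx1 c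
      have := hy1 c
      omega
    · simp only [cnt_mul, hx2, hy2]
    · simp only [PT_mul]
      have h1 := hx3 c d
      have h2 := hy3 c d
      rw [← hx2 c false, ← hx2 c true, ← hy2 d false, ← hy2 d true]
      omega
  · rintro x ⟨hx1, hx2, hx3⟩ ⟨h1, h2⟩
    refine ⟨fun a => ?_, fun a b => ?_⟩
    · rw [← hx2 a false, ← hx2 a true, h1]
    · have := hx3 a b
      have := h2 a b
      omega

theorem cent2' : Centralizes (m := 1) ![(⊤ : Con T), K1] K2 := by
  refine centralizes_two
    (fun x => (∀ a ε, cnt a (x ε false) = cnt a (x ε true)) ∧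
      ∀ a b, PT a b (x false false) + PT a b (x true true) =
      PT a b (x false true) + PT a b (x true false)) ?_ ?_ ?_ ?_
  · intro a b _
    exact ⟨fun c ε => by simp, fun c d => by simp⟩
  · intro a b hab
    refine ⟨fun c ε => ?_, fun c d => by simp [add_comm]⟩
    simpa using hab c
  · rintro x y ⟨hx1, hx3⟩ ⟨hy1, hy3⟩
    refine ⟨fun c η => ?_, fun c d => ?_⟩
    · simp only [cnt_mul, hx1, hy1]
    · simp only [PT_mul]
      have h1 := hx3 c d
      have h2 := hy3 c d
      rw [hx1 c false, hx1 c true, hy1 d false, hy1 d true]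
      omega
  · rintro x ⟨hx1, hx3⟩ ⟨h1, h2⟩
    refine ⟨fun a => hx1 a true, fun a b => ?_⟩
    have := hx3 a b
    have := h2 a b
    omega

theorem cent3 : Centralizes (m := 1) ![K2, (⊤ : Con T)] ⊥ := by
  refine centralizes_two
    (fun x => (∀ η, K2 (x false η) (x true η)) ∧
      ((∀ η, x false η = x true η) ∨ x true false = x true true)) ?_ ?_ ?_ ?_
  · intro a b hab
    exact ⟨fun η => by simpa using hab, Or.inr (by simp)⟩
  · intro a b _
    exact ⟨fun η => K2.refl _, Or.inl fun η => rfl⟩
  · rintro x y ⟨hx, _⟩ ⟨hy, _⟩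
    refine ⟨fun η => K2.mul (hx η) (hy η), Or.inl fun η => ?_⟩
    change x false η * y false η = x true η * y true η
    rw [K2_mul_right (hx η), K2_mul_left (hy η)]
  · rintro x ⟨_, h | h⟩ h1
    · have h1' : x false false = x false true := h1
      change x true false = x true true
      rw [← h, ← h, h1']
    · exact h

theorem cent3' : Centralizes (m := 1) ![(⊤ : Con T), K2] ⊥ := by
  refine centralizes_two
    (fun x => (∀ ε, K2 (x ε false) (x ε true)) ∧
      ((∀ η, x false η = x true η) ∨ x true false = x true true)) ?_ ?_ ?_ ?_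
  · intro a b hab
    exact ⟨fun η => K2.refl _, Or.inr (by simp)⟩
  · intro a b hab
    exact ⟨fun η => by simpa using hab, Or.inl fun η => rfl⟩
  · rintro x y ⟨hx, _⟩ ⟨hy, _⟩
    refine ⟨fun ε => K2.mul (hx ε) (hy ε), Or.inr ?_⟩
    change x true false * y true false = x true true * y true true
    rw [K2_mul_right (hx true), K2_mul_left (hy true)]
  · rintro x ⟨_, h | h⟩ h1
    · have h1' : x false false = x false true := h1
      change x true false = x true true
      rw [← h, ← h, h1']
    · exact h

theorem mono_left {α β γ : Con T} (h : α ≤ β) :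
    comm (m := 1) ![α, γ] ≤ comm (m := 1) ![β, γ] := by
  apply comm_mono
  intro i
  fin_cases i
  · exact h
  · exact le_refl γ

theorem mono_right {α β γ : Con T} (h : α ≤ β) :
    comm (m := 1) ![γ, α] ≤ comm (m := 1) ![γ, β] := by
  apply comm_mono
  intro i
  fin_cases i
  · exact le_refl γ
  · exact h

theorem left3 : leftSeries T 3 = ⊥ := by
  have h1 : leftSeries T 1 ≤ K1 := comm_le cent1
  have h2 : leftSeries T 2 ≤ K2 := le_trans (mono_right h1) (comm_le cent2')
  exact le_bot_iff.mp (le_trans (mono_right h2) (comm_le cent3'))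

theorem right3 : rightSeries T 3 = ⊥ := by
  have h1 : rightSeries T 1 ≤ K1 := comm_le cent1
  have h2 : rightSeries T 2 ≤ K2 := le_trans (mono_left h1) (comm_le cent2)
  exact le_bot_iff.mp (le_trans (mono_left h2) (comm_le cent3))

/-- Class of a word starting with a given nonempty prefix. -/
def mk (l : List ℕ) (h : l ≠ []) : T := Con.toQuotient (c := cong) (⟨l, h⟩ : Wd)

theorem mk_mul (l l' : List ℕ) (h : l ≠ []) (h' : l' ≠ []) (h'' : l ++ l' ≠ []) :
    mk l h * mk l' h' = mk (l ++ l') h'' := rfl

theorem mk_eq {l l' : List ℕ} {h : l ≠ []} {h' : l' ≠ []} : mk l h = mk l' h' ↔ R l l' :=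
  Con.eq cong

/-- The first factor. -/
def fst (η : Bool) : List ℕ := if η = true then [1, 0] else [0, 1]

/-- The last factor. -/
def lst (η : Bool) : List ℕ := if η = true then [0, 1] else [1, 0]

/-- The middle factors. -/
def mid {d : ℕ} (ε : Fin d → Bool) (L : List (Fin d)) : List ℕ :=
  L.flatMap fun i => if ε i = true then [i.1 + 2] else [0, 1]

theorem fst_append_ne {η : Bool} (l : List ℕ) : fst η ++ l ≠ [] := by
  cases η <;> simp [fst]

theorem mem_mid {d : ℕ} (L : List (Fin d)) :
    (fun (ε : Fin d → Bool) (η : Bool) => mk (fst η ++ mid ε L) (fst_append_ne _)) ∈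
      M (fun _ : Fin (d + 1) => (⊤ : Con T)) := by
  induction L using List.reverseRecOn with
  | nil =>
    apply Subsemigroup.subset_closure
    refine Or.inr ⟨mk [0, 1] (by simp), mk [1, 0] (by simp), trivial, ?_⟩
    funext ε η
    cases η <;> rfl
  | append_singleton L i ih =>
    have h2 : rowGen i (mk [0, 1] (by simp)) (mk [i.1 + 2] (by simp)) ∈
        M (fun _ : Fin (d + 1) => (⊤ : Con T)) :=
      Subsemigroup.subset_closure (Or.inl ⟨i, _, _, trivial, rfl⟩)
    have h3 := Subsemigroup.mul_mem _ ih h2
    have h4 : (fun (ε : Fin d → Bool) (η : Bool) =>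
        mk (fst η ++ mid ε (L ++ [i])) (fst_append_ne _)) =
        (fun (ε : Fin d → Bool) (η : Bool) => mk (fst η ++ mid ε L) (fst_append_ne _)) *
          rowGen i (mk [0, 1] (by simp)) (mk [i.1 + 2] (by simp)) := by
      funext ε η
      change _ = mk (fst η ++ mid ε L) (fst_append_ne _) *
        (if ε i = true then mk [i.1 + 2] (by simp) else mk [0, 1] (by simp))
      by_cases h : ε i = true
      · rw [if_pos h, mk_mul _ _ _ _ (by rw [List.append_assoc]; exact fst_append_ne _)]
        congr 1
        simp [mid, h]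
      · rw [if_neg h, mk_mul _ _ _ _ (by rw [List.append_assoc]; exact fst_append_ne _)]
        congr 1
        simp [mid, h]
    rw [h4]
    exact h3

/-- The full product in row `ε` and column `η`. -/
def prodWord (d : ℕ) (ε : Fin d → Bool) (η : Bool) : List ℕ :=
  fst η ++ (mid ε (List.finRange d) ++ lst η)

theorem mem_prod (d : ℕ) :
    (fun (ε : Fin d → Bool) (η : Bool) => mk (prodWord d ε η) (fst_append_ne _)) ∈
      M (fun _ : Fin (d + 1) => (⊤ : Con T)) := by
  have h1 := mem_mid (List.finRange d)
  have h2 : colGen (mk [1, 0] (by simp)) (mk [0, 1] (by simp)) ∈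
      M (fun _ : Fin (d + 1) => (⊤ : Con T)) :=
    Subsemigroup.subset_closure (Or.inr ⟨_, _, trivial, rfl⟩)
  have h3 := Subsemigroup.mul_mem _ h1 h2
  have h4 : (fun (ε : Fin d → Bool) (η : Bool) => mk (prodWord d ε η) (fst_append_ne _)) =
      (fun (ε : Fin d → Bool) (η : Bool) =>
        mk (fst η ++ mid ε (List.finRange d)) (fst_append_ne _)) *
        colGen (mk [1, 0] (by simp)) (mk [0, 1] (by simp)) := by
    funext ε η
    change _ = mk (fst η ++ mid ε (List.finRange d)) (fst_append_ne _) *
        (if η = true then mk [0, 1] (by simp) else mk [1, 0] (by simp))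
    by_cases h : η = true
    · rw [if_pos h, mk_mul _ _ _ _ (by rw [List.append_assoc]; exact fst_append_ne _)]
      congr 1
      simp [prodWord, lst, h]
    · rw [if_neg h, mk_mul _ _ _ _ (by rw [List.append_assoc]; exact fst_append_ne _)]
      congr 1
      simp [prodWord, lst, h]
  rw [h4]
  exact h3

theorem ceq_prod (d : ℕ) (ε : Fin d → Bool) : Ceq (prodWord d ε false) (prodWord d ε true) := by
  refine ⟨fun a => ?_, fun a b => ?_⟩
  · simp only [prodWord, List.count_append]
    have h1 : (fst false).count a = (lst true).count a := rfl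
    have h2 : (fst true).count a = (lst false).count a := rfl
    rw [h1, h2]
    ring
  · simp only [prodWord, P_append, List.count_append]
    have h1 : ∀ c, (fst false).count c = (lst true).count c := fun c => rfl
    have h2 : ∀ c, (fst true).count c = (lst false).count c := fun c => rfl
    have h3 : P a b (fst false) = P a b (lst true) := rfl
    have h4 : P a b (fst true) = P a b (lst false) := rfl
    have h5 : ∀ c, (lst true).count c = (lst false).count c := by
      intro c
      exact (List.Perm.swap 1 0 []).count_eq c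
    rw [h3, h4, h1, h2, h5 a, h5 b]
    ring

theorem count_W (m : ℕ) : (W m).count 0 = 2 := by
  have h0 : (zs m).count 0 = 0 := List.count_eq_zero.mpr fun h => by
    have := mem_zs h; omega
  simp [W, List.count_append, h0]

theorem count_mid {d : ℕ} (ε : Fin d → Bool) (L : List (Fin d)) (h : ∃ i ∈ L, ε i = false) :
    1 ≤ (mid ε L).count 0 := by
  obtain ⟨i, hi, hε⟩ := h
  rw [Nat.one_le_iff_ne_zero]
  intro h0
  rw [List.count_eq_zero] at h0
  apply h0
  simp only [mid, List.mem_flatMap]
  exact ⟨i, hi, by simp [hε]⟩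

theorem not_sp (d : ℕ) (ε : Fin d → Bool) (hε : ε ≠ fun _ => true) (η : Bool) :
    ¬ Sp (prodWord d ε η) := by
  rintro ⟨m, hm⟩
  have h1 : (prodWord d ε η).count 0 = 2 := by rw [hm, count_W]
  have h2 : 1 ≤ (mid ε (List.finRange d)).count 0 := by
    apply count_mid
    by_contra hcon
    push Not at hcon
    apply hε
    funext i
    have := hcon i (List.mem_finRange i)
    simpa using this
  have h3 : (fst η).count 0 = 1 := by cases η <;> rfl
  have h4 : (lst η).count 0 = 1 := by cases η <;> rfl
  simp only [prodWord, List.count_append, h3, h4] at h1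
  omega

theorem mid_true (d : ℕ) : mid (fun _ : Fin d => true) (List.finRange d) = zs d := by
  simp only [mid, zs, if_true]
  rw [← List.map_eq_flatMap]
  rw [← List.map_coe_finRange_eq_range, List.map_map]
  rfl

theorem not_centralizes (d : ℕ) : ¬ Centralizes (fun _ : Fin (d + 1) => (⊤ : Con T)) ⊥ := by
  intro h
  have h1 := h _ (mem_prod d) ?_
  · have h2 : mk (prodWord d (fun _ => true) false) (fst_append_ne _) =
        mk (prodWord d (fun _ => true) true) (fst_append_ne _) := h1
    have h3 : R (prodWord d (fun _ => true) false) (prodWord d (fun _ => true) true) :=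
      mk_eq.mp h2
    rcases h3 with h4 | h4
    · simp [prodWord, fst] at h4
    · apply h4.2.1
      refine ⟨d, ?_⟩
      simp [prodWord, mid_true, W, fst, lst]
  · intro ε hε
    change mk (prodWord d ε false) (fst_append_ne _) = mk (prodWord d ε true) (fst_append_ne _)
    exact mk_eq.mpr (Or.inr ⟨ceq_prod d ε, not_sp d ε hε _, not_sp d ε hε _⟩)

theorem not_supernilpotent : ¬ Supernilpotent T := by
  rintro ⟨d, hd⟩
  apply not_centralizes d
  have := centralizes_comm (fun _ : Fin (d + 1) => (⊤ : Con T))
  rw [show comm (fun _ : Fin (d + 1) => (⊤ : Con T)) = ⊥ from hd] at this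
  exact this

end Twin

end Pool.Agent.Lib.MP_d3d931_al
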